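import Mathlib
import Pool.Agent.H566W.Ana

set_option autoImplicit false

/-!
# Expansions with countably many choices preserve the countable-or-perfect dichotomy
-/

namespace Pool.Agent.Y558.EC

open Set MeasureTheory

theorem ecc {X Y : Type} [TopologicalSpace X] [TopologicalSpace Y]
    (EX : X → X → Prop) (EY : Y → Y → Prop) (pr : Y → X) (hpr : Continuous pr)
    (hE : ∀ g : (ℕ → Bool) → X, Continuous g →
      AnalyticSet {p : (ℕ → Bool) × (ℕ → Bool) | EX (g p.1) (g p.2)})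
    (hXs : ∀ x x', EX x x' → EX x' x)
    (hYs : ∀ y y', EY y y' → EY y' y) (hYt : ∀ y y' y'', EY y y' → EY y' y'' → EY y y'')
    (hYX : ∀ y y', EY y y' → EX (pr y) (pr y'))
    (lift : ∀ y x', EX (pr y) x' → ∃ y', pr y' = x' ∧ EY y y')
    (G : Y → Prop) (hG : ∀ y y', EY y y' → G y → G y')
    (B : Set X)
    (hex : ∀ x ∈ B, ∃ y, G y ∧ pr y = x)
    (hcount : ∀ x ∈ B, {y | G y ∧ pr y = x}.Countable)
    (dich : (∃ f : ℕ → Y, ∀ y, G y → pr y ∈ B → ∃ n, EY (f n) y) ∨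
      ∃ g : (ℕ → Bool) → Y, Continuous g ∧ (∀ a, G (g a) ∧ pr (g a) ∈ B) ∧
        ∀ a b, EY (g a) (g b) → a = b) :
    (∃ f : ℕ → X, ∀ x ∈ B, ∃ n, EX (f n) x) ∨
    ∃ g : (ℕ → Bool) → X, Continuous g ∧ (∀ a, g a ∈ B) ∧ ∀ a b, EX (g a) (g b) → a = b := by
  rcases dich with ⟨f, hf⟩ | ⟨g, hg, hgB, hgi⟩
  · left
    refine ⟨fun n => pr (f n), fun x hx => ?_⟩
    obtain ⟨y, hy, rfl⟩ := hex x hx
    obtain ⟨n, hn⟩ := hf y hy hx
    exact ⟨n, hYX _ _ hn⟩
  · right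
    have hc : ∀ a, {b | EX (pr (g a)) (pr (g b))}.Countable := by
      intro a
      have h1 := hcount _ (hgB a).2
      have h2 : ∀ b ∈ {b | EX (pr (g a)) (pr (g b))}, ∃ y', (G y' ∧ pr y' = pr (g a)) ∧
          EY (g b) y' := by
        intro b hb
        obtain ⟨y', h3, h4⟩ := lift (g b) (pr (g a)) (hXs _ _ hb)
        exact ⟨y', ⟨hG _ _ h4 (hgB b).1, h3⟩, h4⟩
      have hne : Nonempty Y := ⟨g fun _ => false⟩
      choose! F hF using h2
      refine Set.MapsTo.countable_of_injOn (f := F) (fun b hb => (hF b hb).1) ?_ h1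
      intro b hb b' hb' hbb
      have h3 := (hF b hb).2
      have h4 := (hF b' hb').2
      rw [hbb] at h3
      exact hgi _ _ (hYt _ _ _ h3 (hYs _ _ h4))
    obtain ⟨h, hh, hhi⟩ := Pool.Agent.H566W.perfect_independent
      (fun a b => EX (pr (g a)) (pr (g b))) (hE (fun a => pr (g a)) (hpr.comp hg)) hc
    refine ⟨fun a => pr (g (h a)), hpr.comp (hg.comp hh), fun a => (hgB _).2, fun a b hab => ?_⟩
    by_contra hne
    exact hhi a b hne hab

theorem pol (T : Type) [TopologicalSpace T] [SecondCountableTopology T]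
    [TopologicalSpace.IsCompletelyMetrizableSpace T] : PolishSpace T := by
  have h : TopologicalSpace.SeparableSpace T := inferInstance
  infer_instance

/-- the permutations, as a closed set of pairs of functions -/
theorem analytic_iso {X : Type} [TopologicalSpace X]
    (I : (ℕ → ℕ) → (ℕ → ℕ) → X → X → Prop)
    (hI : IsClosed {q : ((ℕ → ℕ) × (ℕ → ℕ)) × (X × X) | I q.1.1 q.1.2 q.2.1 q.2.2})
    (g : (ℕ → Bool) → X) (hg : Continuous g) :
    AnalyticSet {p : (ℕ → Bool) × (ℕ → Bool) | ∃ s t, I s t (g p.1) (g p.2)} := by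
  let C : Set (((ℕ → ℕ) × (ℕ → ℕ)) × ((ℕ → Bool) × (ℕ → Bool))) :=
    {q | I q.1.1 q.1.2 (g q.2.1) (g q.2.2)}
  have hC : IsClosed C := by
    have h1 : Continuous fun q : ((ℕ → ℕ) × (ℕ → ℕ)) × ((ℕ → Bool) × (ℕ → Bool)) =>
        ((q.1, (g q.2.1, g q.2.2)) : ((ℕ → ℕ) × (ℕ → ℕ)) × (X × X)) :=
      continuous_fst.prodMk ((hg.comp (continuous_fst.comp continuous_snd)).prodMk
        (hg.comp (continuous_snd.comp continuous_snd)))
    exact hI.preimage h1
  have h2 : {p : (ℕ → Bool) × (ℕ → Bool) | ∃ s t, I s t (g p.1) (g p.2)} = Prod.snd '' C := by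
    ext p
    constructor
    · rintro ⟨s, t, h⟩
      exact ⟨((s, t), p), h, rfl⟩
    · rintro ⟨⟨⟨s, t⟩, p'⟩, h, rfl⟩
      exact ⟨s, t, h⟩
  rw [h2]
  have hP : PolishSpace (((ℕ → ℕ) × (ℕ → ℕ)) × ((ℕ → Bool) × (ℕ → Bool))) := pol _
  exact hC.analyticSet.image_of_continuous continuous_snd

end Pool.Agent.Y558.EC
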