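import Pool.Agent.Y558.EC.Fin
import Pool.Agent.H533R2.VS.All2

set_option autoImplicit false

/-!
# Families of expansions with countably many choices
-/

namespace Pool.Agent.Y558.EC

open Set MeasureTheory
open Pool.Agent.H533R2.VO (RS)
open Pool.Agent.H533R2.VS (US UIso UDich VCu)

/-- isomorphism -/
def UI {a : ℕ → ℕ} (σ : Equiv.Perm ℕ) (x y : US a) : Prop :=
  (∀ (i : ℕ) (v : Fin (a i) → ℕ), y.1 i (⇑σ ∘ v) = x.1 i v) ∧ ∀ i u, y.2 i (σ u) = x.2 i u

theorem ui_unique {a : ℕ → ℕ} {σ : Equiv.Perm ℕ} {x z z' : US a} (h : UI σ x z) (h' : UI σ x z') :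
    z = z' := by
  refine Prod.ext ?_ ?_
  · funext i v
    have e : (⇑σ ∘ (⇑σ.symm ∘ v)) = v := by
      funext j
      exact σ.apply_symm_apply _
    rw [← e, h.1, h'.1]
  · funext p m
    obtain ⟨m, rfl⟩ := σ.surjective m
    rw [h.2, h'.2]

theorem ui_symm {a : ℕ → ℕ} {σ : Equiv.Perm ℕ} {x z : US a} (h : UI σ x z) : UI σ.symm z x := by
  refine ⟨fun i v => ?_, fun i u => ?_⟩
  · have e : (⇑σ ∘ (⇑σ.symm ∘ v)) = v := by
      funext j
      exact σ.apply_symm_apply _
    rw [← h.1, e]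
  · rw [← h.2, Equiv.apply_symm_apply]

/-- the form needed for analyticity -/
def UA {a : ℕ → ℕ} (s t : ℕ → ℕ) (x y : US a) : Prop :=
  (∀ a b, s a = b ↔ t b = a) ∧
    (∀ i (v w : Fin (a i) → ℕ), (∀ j, s (v j) = w j) → y.1 i w = x.1 i v) ∧
      ∀ j a k, s a = k → y.2 j k = x.2 j a

theorem closed_UA {a : ℕ → ℕ} : IsClosed {q : ((ℕ → ℕ) × (ℕ → ℕ)) × (US a × US a) |
    UA q.1.1 q.1.2 q.2.1 q.2.2} := by
  have cs : ∀ u k : ℕ, IsClopen {q : ((ℕ → ℕ) × (ℕ → ℕ)) × (US a × US a) | q.1.1 u = k} := by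
    intro u k
    have h1 : Continuous fun q : ((ℕ → ℕ) × (ℕ → ℕ)) × (US a × US a) => q.1.1 u :=
      (continuous_apply u).comp (continuous_fst.comp continuous_fst)
    exact (isClopen_discrete {k}).preimage h1
  have ct : ∀ u k : ℕ, IsClopen {q : ((ℕ → ℕ) × (ℕ → ℕ)) × (US a × US a) | q.1.2 u = k} := by
    intro u k
    have h1 : Continuous fun q : ((ℕ → ℕ) × (ℕ → ℕ)) × (US a × US a) => q.1.2 u :=
      (continuous_apply u).comp (continuous_snd.comp continuous_fst)
    exact (isClopen_discrete {k}).preimage h1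
  have e : {q : ((ℕ → ℕ) × (ℕ → ℕ)) × (US a × US a) | UA q.1.1 q.1.2 q.2.1 q.2.2} =
      (⋂ u, ⋂ b, {q | q.1.1 u = b ↔ q.1.2 b = u}) ∩
      ((⋂ i, ⋂ (v : Fin (a i) → ℕ), ⋂ (w : Fin (a i) → ℕ),
        {q | (∀ j, q.1.1 (v j) = w j) → q.2.2.1 i w = q.2.1.1 i v}) ∩
      (⋂ j, ⋂ u, ⋂ k, {q | q.1.1 u = k → q.2.2.2 j k = q.2.1.2 j u})) := by
    ext q
    simp only [mem_inter_iff, mem_iInter]
    rfl
  rw [e]
  refine IsClosed.inter ?_ (IsClosed.inter ?_ ?_)
  · refine isClosed_iInter fun u => isClosed_iInter fun b => ?_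
    have e2 : {q : ((ℕ → ℕ) × (ℕ → ℕ)) × (US a × US a) | q.1.1 u = b ↔ q.1.2 b = u} =
        ({q | q.1.1 u = b} ∩ {q | q.1.2 b = u}) ∪ ({q | q.1.1 u = b}ᶜ ∩ {q | q.1.2 b = u}ᶜ) := by
      ext q
      simp only [mem_union, mem_inter_iff, mem_compl_iff, mem_ofPred_eq]
      tauto
    rw [e2]
    exact (((cs u b).isClosed.inter (ct b u).isClosed).union
      ((cs u b).compl.isClosed.inter (ct b u).compl.isClosed))
  · refine isClosed_iInter fun i => isClosed_iInter fun v => isClosed_iInter fun w => ?_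
    have h0 : IsOpen {q : ((ℕ → ℕ) × (ℕ → ℕ)) × (US a × US a) | ∀ j, q.1.1 (v j) = w j} := by
      have e3 : {q : ((ℕ → ℕ) × (ℕ → ℕ)) × (US a × US a) | ∀ j, q.1.1 (v j) = w j} =
          ⋂ j, {q | q.1.1 (v j) = w j} := by
        ext q
        simp only [mem_iInter]
        rfl
      rw [e3]
      exact isOpen_iInter_of_finite fun j => (cs (v j) (w j)).isOpen
    refine isClosed_imp h0 ?_
    refine isClosed_eq ?_ ?_
    · exact (continuous_apply w).comp ((continuous_apply i).comp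
        (continuous_fst.comp (continuous_snd.comp continuous_snd)))
    · exact (continuous_apply v).comp ((continuous_apply i).comp
        (continuous_fst.comp (continuous_fst.comp continuous_snd)))
  · refine isClosed_iInter fun j => isClosed_iInter fun u => isClosed_iInter fun k => ?_
    refine isClosed_imp (cs u k).isOpen ?_
    refine isClosed_eq ?_ ?_
    · exact (continuous_apply k).comp ((continuous_apply j).comp
        (continuous_snd.comp (continuous_snd.comp continuous_snd)))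
    · exact (continuous_apply u).comp ((continuous_apply j).comp
        (continuous_snd.comp (continuous_fst.comp continuous_snd)))

theorem ua_iff {a : ℕ → ℕ} (x y : US a) : (∃ s t, UA s t x y) ↔ UIso x y := by
  constructor
  · rintro ⟨s, t, h1, h2, h3⟩
    let σ : Equiv.Perm ℕ := ⟨s, t, fun a => (h1 a (s a)).1 rfl, fun b => (h1 (t b) b).2 rfl⟩
    exact ⟨σ, fun i v => h2 i v _ fun _ => rfl, fun j a => h3 j a _ rfl⟩
  · rintro ⟨σ, h1, h2⟩
    refine ⟨σ, σ.symm, fun a b => ?_, ?_, ?_⟩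
    · constructor
      · rintro rfl
        exact σ.symm_apply_apply a
      · rintro rfl
        exact σ.apply_symm_apply b
    · intro i v w hvw
      have e : w = ⇑σ ∘ v := funext fun j => (hvw j).symm
      rw [e]
      exact h1 i v
    · rintro j a k rfl
      exact h2 j a

theorem ana_UI {a : ℕ → ℕ} (g : (ℕ → Bool) → US a) (hg : Continuous g) :
    AnalyticSet {p : (ℕ → Bool) × (ℕ → Bool) | UIso (g p.1) (g p.2)} := by
  have h := analytic_iso (X := US a) UA closed_UA g hg
  have e : {p : (ℕ → Bool) × (ℕ → Bool) | UIso (g p.1) (g p.2)} =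
      {p | ∃ s t, UA s t (g p.1) (g p.2)} := by
    ext p
    exact (ua_iff _ _).symm
  rw [e]
  exact h

/-- a family of expansions with the dichotomy, with countably many members over each structure
in `Pm` -/
structure Fam (a : ℕ → ℕ) (Pm : RS a → Prop) where
  Y : Type
  top : TopologicalSpace Y
  E : Y → Y → Prop
  pr : Y → US a
  G : Y → Prop
  cont : Continuous pr
  sy : ∀ y y', E y y' → E y' y
  tr : ∀ y y' y'', E y y' → E y' y'' → E y y''
  toX : ∀ y y', E y y' → UIso (pr y) (pr y')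
  lift : ∀ y x', UIso (pr y) x' → ∃ y', pr y' = x' ∧ E y y'
  inv : ∀ y y', E y y' → G y → G y'
  count : ∀ x : US a, Pm x.1 → {y | G y ∧ pr y = x}.Countable
  dich : ∀ B : Set (US a), MeasurableSet B → (∀ x y, UIso x y → (x ∈ B ↔ y ∈ B)) →
    (∃ f : ℕ → Y, ∀ y, G y → pr y ∈ B → ∃ n, E (f n) y) ∨
      ∃ g : (ℕ → Bool) → Y, Continuous g ∧ (∀ c, G (g c) ∧ pr (g c) ∈ B) ∧
        ∀ c d, E (g c) (g d) → c = d

variable {a : ℕ → ℕ} {Pm : RS a → Prop}

theorem Fam.vcu (F : Fam a Pm) : VCu fun x : RS a => Pm x ∧ ∀ u, ∃ y, F.G y ∧ F.pr y = (x, u) := by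
  intro B hB hi hV
  letI := F.top
  refine ecc (fun x y => UIso x y) F.E F.pr F.cont ana_UI (fun x x' h => ?_) F.sy F.tr F.toX
    F.lift F.G F.inv B (fun x hx => (hV x hx).2 x.2) (fun x hx => F.count x (hV x hx).1)
    (F.dich B hB hi)
  obtain ⟨σ, h⟩ := h
  exact ⟨_, ui_symm h⟩

def SE (F H : Fam a Pm) : F.Y ⊕ H.Y → F.Y ⊕ H.Y → Prop
  | Sum.inl y, Sum.inl y' => F.E y y'
  | Sum.inr y, Sum.inr y' => H.E y y'
  | _, _ => False

def Fam.sum (F H : Fam a Pm) : Fam a Pm :=
  letI := F.top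
  letI := H.top
  { Y := F.Y ⊕ H.Y
    top := inferInstance
    E := SE F H
    pr := Sum.elim F.pr H.pr
    G := Sum.elim F.G H.G
    cont := continuous_sum_dom.2 ⟨F.cont, H.cont⟩
    sy := by
      rintro (y | y) (y' | y') h
      · exact F.sy _ _ h
      · exact h
      · exact h
      · exact H.sy _ _ h
    tr := by
      rintro (y | y) (y' | y') (y'' | y'') h h'
      · exact F.tr _ _ _ h h'
      · exact h'
      · exact h.elim
      · exact h.elim
      · exact h.elim
      · exact h.elim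
      · exact h'
      · exact H.tr _ _ _ h h'
    toX := by
      rintro (y | y) (y' | y') h
      · exact F.toX _ _ h
      · exact h.elim
      · exact h.elim
      · exact H.toX _ _ h
    lift := by
      rintro (y | y) x' h
      · obtain ⟨y', h1, h2⟩ := F.lift y x' h
        exact ⟨Sum.inl y', h1, h2⟩
      · obtain ⟨y', h1, h2⟩ := H.lift y x' h
        exact ⟨Sum.inr y', h1, h2⟩
    inv := by
      rintro (y | y) (y' | y') h
      · exact F.inv _ _ h
      · exact h.elim
      · exact h.elim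
      · exact H.inv _ _ h
    count := by
      intro x hx
      refine (((F.count x hx).image Sum.inl).union ((H.count x hx).image Sum.inr)).mono ?_
      rintro (y | y) ⟨h1, h2⟩
      · exact Or.inl ⟨y, ⟨h1, h2⟩, rfl⟩
      · exact Or.inr ⟨y, ⟨h1, h2⟩, rfl⟩
    dich := by
      intro B hB hi
      rcases F.dich B hB hi with ⟨f, hf⟩ | ⟨g, hg, h1, h2⟩
      · rcases H.dich B hB hi with ⟨f', hf'⟩ | ⟨g, hg, h1, h2⟩
        · left
          let f0 : ℕ → F.Y ⊕ H.Y := fun n =>
            if n % 2 = 0 then Sum.inl (f (n / 2)) else Sum.inr (f' (n / 2))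
          have k1 : ∀ n, f0 (2 * n) = Sum.inl (f n) := by
            intro n
            have e1 : (2 * n) % 2 = 0 := by omega
            have e2 : (2 * n) / 2 = n := by omega
            show (if (2 * n) % 2 = 0 then Sum.inl (f (2 * n / 2)) else Sum.inr (f' (2 * n / 2))) = _
            rw [if_pos e1, e2]
          have k2 : ∀ n, f0 (2 * n + 1) = Sum.inr (f' n) := by
            intro n
            have e1 : (2 * n + 1) % 2 ≠ 0 := by omega
            have e2 : (2 * n + 1) / 2 = n := by omega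
            show (if (2 * n + 1) % 2 = 0 then Sum.inl (f ((2 * n + 1) / 2)) else
              Sum.inr (f' ((2 * n + 1) / 2))) = _
            rw [if_neg e1, e2]
          refine ⟨f0, ?_⟩
          rintro (y | y) h1 h2
          · obtain ⟨n, hn⟩ := hf y h1 h2
            refine ⟨2 * n, ?_⟩
            rw [k1]
            exact hn
          · obtain ⟨n, hn⟩ := hf' y h1 h2
            refine ⟨2 * n + 1, ?_⟩
            rw [k2]
            exact hn
        · right
          exact ⟨fun c => Sum.inr (g c), continuous_inr.comp hg, fun c => h1 c,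
            fun c d h => h2 c d h⟩
      · right
        exact ⟨fun c => Sum.inl (g c), continuous_inl.comp hg, fun c => h1 c,
          fun c d h => h2 c d h⟩ }

theorem vcu_mono {V W : RS a → Prop} (h : ∀ x, V x → W x) (hW : VCu W) : VCu V :=
  fun B hB hi hV => hW B hB hi fun x hx => h _ (hV x hx)

/-- expansions by tuples of linear orders -/
def famL {n : ℕ} (pr : YO n → US a) (hpr : Continuous pr)
    (heq : ∀ σ y y', IY σ y y' → UI σ (pr y) (pr y')) (K : YO n → Prop)
    (hK : MeasurableSet {y | K y}) (hKi : ∀ σ y y', IY σ y y' → K y → K y')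
    (count : ∀ x : US a, Pm x.1 → {y | (Gd y ∧ K y) ∧ pr y = x}.Countable) : Fam a Pm where
  Y := YO n
  top := inferInstance
  E := fun y y' => ∃ σ : Equiv.Perm ℕ, IY σ y y'
  pr := pr
  G := fun y => Gd y ∧ K y
  cont := hpr
  sy := by
    rintro x x' ⟨σ, h⟩
    exact ⟨_, iy_symm h⟩
  tr := by
    rintro x x' x'' ⟨σ, h⟩ ⟨τ, h'⟩
    exact ⟨_, iy_trans h h'⟩
  toX := by
    rintro y y' ⟨σ, h⟩
    exact ⟨σ, heq σ y y' h⟩
  lift := by
    rintro y x' ⟨σ, h⟩
    exact ⟨trY σ y, ui_unique (heq σ y _ (iy_tr σ y)) h, σ, iy_tr σ y⟩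
  inv := by
    rintro y y' ⟨σ, h⟩ hG
    exact ⟨gd_iso h hG.1, hKi σ _ _ h hG.2⟩
  count := count
  dich := by
    intro B hB hi
    have hbs : BorelSpace (YO n) := bsY
    rcases dichY {y : YO n | (Gd y ∧ K y) ∧ pr y ∈ B}
      (((measurableSet_setOfPred.2 m_Gd).inter hK).inter (hpr.measurable hB)) (by
        rintro y ⟨h1, h2⟩ y' σ h
        exact ⟨⟨gd_iso h h1.1, hKi σ _ _ h h1.2⟩, (hi _ _ ⟨σ, heq σ y y' h⟩).1 h2⟩)
        (fun y hy => hy.1.1) with
        ⟨f, hf⟩ | ⟨g, hg, hgB, hgi⟩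
    · left
      refine ⟨f, fun y h1 h2 => ?_⟩
      obtain ⟨m, σ, h⟩ := hf y ⟨h1, h2⟩
      exact ⟨m, σ, h⟩
    · right
      exact ⟨g, hg, hgB, hgi⟩

end Pool.Agent.Y558.EC
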