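import Pool.Agent.Y558.EC.Lin

set_option autoImplicit false

/-!
# The dichotomy for finitely many linear orders
-/

namespace Pool.Agent.Y558.EC

open Set MeasureTheory

variable {n : ℕ}

/-- there is a partition into finitely many classes, on each of which the orders agree with the
first order or are opposite to it -/
def Cov (x : XO n) : Prop := ∃ (s : ℕ) (c : ℕ → Fin s), ∀ i t,
  (∀ a b, c a = t → c b = t → x.1 0 a b = true → x.1 i a b = true) ∨
  (∀ a b, c a = t → c b = t → x.1 0 a b = true → x.1 i b a = true)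

theorem asym {x : XO n} (h : LOs x) {i : Fin (n + 1)} {a b : ℕ} (h1 : x.1 i a b = true) :
    x.1 i b a = false := by
  rcases hb : x.1 i b a with _ | _
  · rfl
  · have := h.tr i a b a h1 hb
    rw [h.irr] at this
    exact absurd this (by decide)

theorem dg_trans {x : XO n} (h : LOs x) {i : Fin (n + 1)} {e : Bool} {a b c : ℕ}
    (h1 : Dg x i e a b) (h2 : Dg x i e b c) : Dg x i e a c := by
  refine ⟨h.tr 0 a b c h1.1 h2.1, ?_⟩
  rcases e with _ | _
  · have h3 : x.1 i a b = true := by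
      rcases h.tot i a b with h4 | h4 | h4
      · have := h1.1
        rw [h4, h.irr] at this
        exact absurd this (by decide)
      · exact h4
      · rw [h1.2] at h4
        exact absurd h4 (by decide)
    have h4 : x.1 i b c = true := by
      rcases h.tot i b c with h5 | h5 | h5
      · have := h2.1
        rw [h5, h.irr] at this
        exact absurd this (by decide)
      · exact h5
      · rw [h2.2] at h5
        exact absurd h5 (by decide)
    exact asym h (h.tr i a b c h3 h4)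
  · exact h.tr i c b a h2.2 h1.2

open Classical in
theorem gd_of_cov {x : XO n} (h : LOs x) (hc : Cov x) : ∃ w, Gd ((x, w) : YO n) := by
  obtain ⟨s, c, hc⟩ := hc
  let w : ℕ → SV n := fun a i => decide (∀ u v, c u = c a → c v = c a → x.1 0 u v = true →
    x.1 i u v = true)
  have hno : ∀ i u v, c u = c v → ¬ Dg x i (w v i) u v := by
    rintro i u v huv ⟨h1, h2⟩
    by_cases hw : ∀ a b, c a = c v → c b = c v → x.1 0 a b = true → x.1 i a b = true
    · have e : w v i = true := decide_eq_true hw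
      rw [e] at h2
      have h3 := hw u v huv rfl h1
      rw [asym h h3] at h2
      exact absurd h2 (by decide)
    · have e : w v i = false := decide_eq_false hw
      rw [e] at h2
      rcases hc i (c v) with h3 | h3
      · exact hw h3
      · rw [h3 u v huv rfl h1] at h2
        exact absurd h2 (by decide)
  have key : ∀ i k b, H ((x, w) : YO n) i k b → ∃ S : Finset (Fin s), S.card = k ∧
      ∀ t ∈ S, ∃ u, c u = t ∧ w u = w b ∧ Dg x i (w b i) u b := by
    intro i k
    induction k with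
    | zero => exact fun b _ => ⟨∅, rfl, fun t ht => absurd ht (Finset.notMem_empty t)⟩
    | succ k ih =>
      rintro b ⟨a, h1, h2, h3⟩
      have h1' : w a = w b := h1
      have h2' : Dg x i (w b i) a b := h2
      obtain ⟨S, hS, hS'⟩ := ih a h3
      have hn : c a ∉ S := by
        intro hcon
        obtain ⟨u, h4, h5, h6⟩ := hS' _ hcon
        exact hno i u a h4 h6
      refine ⟨insert (c a) S, ?_, ?_⟩
      · rw [Finset.card_insert_of_notMem hn, hS]
      · intro t ht
        rcases Finset.mem_insert.1 ht with rfl | ht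
        · exact ⟨a, rfl, h1', h2'⟩
        · obtain ⟨u, h4, h5, h6⟩ := hS' t ht
          refine ⟨u, h4, h5.trans h1', ?_⟩
          rw [h1'] at h6
          exact dg_trans h h6 h2'
  refine ⟨w, h, s + 1, fun i b hb => ?_⟩
  obtain ⟨S, hS, -⟩ := key i (s + 1) b hb
  have := Finset.card_le_univ S
  rw [Fintype.card_fin] at this
  omega

theorem fin_diff {x : XO n} {w w' : ℕ → SV n} (h : Gd ((x, w) : YO n))
    (h' : Gd ((x, w') : YO n)) : {a | w a ≠ w' a}.Finite := by
  have hL : LOs x := h.1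
  have hS : ∀ e d : SV n, e ≠ d → {a | w a = e ∧ w' a = d}.Finite := by
    intro e d hed
    obtain ⟨i, hi⟩ : ∃ i, e i ≠ d i := by
      by_contra hcon
      push Not at hcon
      exact hed (funext hcon)
    obtain ⟨s, hs⟩ := h.2
    obtain ⟨s', hs'⟩ := h'.2
    choose f hf using fun a => ht_exists h i a
    choose f' hf' using fun a => ht_exists h' i a
    have hb : ∀ a, f a < s := by
      intro a
      by_contra hcon
      exact hs i a (H_mono _ i (not_lt.1 hcon) a (hf a).1)
    have hb' : ∀ a, f' a < s' := by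
      intro a
      by_contra hcon
      exact hs' i a (H_mono _ i (not_lt.1 hcon) a (hf' a).1)
    refine Set.Finite.of_injOn (f := fun a => (f a, f' a))
      (t := ((Finset.range s ×ˢ Finset.range s' : Finset (ℕ × ℕ)) : Set (ℕ × ℕ))) ?_ ?_
      (Finset.finite_toSet _)
    · intro a _
      show (f a, f' a) ∈ ((Finset.range s ×ˢ Finset.range s' : Finset (ℕ × ℕ)) : Set (ℕ × ℕ))
      rw [Finset.mem_coe, Finset.mem_product, Finset.mem_range, Finset.mem_range]
      exact ⟨hb a, hb' a⟩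
    · have aux : ∀ a b, (w a = e ∧ w' a = d) → (w b = e ∧ w' b = d) → f a = f b → f' a = f' b →
          x.1 0 a b = true → False := by
        intro a b ha hb h1 h2 hab
        have k1 : Ht ((x, w) : YO n) i (f b) a := by rw [← h1]; exact hf a
        have k2 : Ht ((x, w') : YO n) i (f' b) a := by rw [← h2]; exact hf' a
        have m1 : x.1 i b a = !(w b i) := ht_same k1 (hf b) (ha.1.trans hb.1.symm) hab
        have m2 : x.1 i b a = !(w' b i) := ht_same k2 (hf' b) (ha.2.trans hb.2.symm) hab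
        rw [hb.1] at m1
        rw [hb.2, m1] at m2
        apply hi
        revert m2
        cases e i <;> cases d i <;> simp
      intro a ha b hb hab
      have e1 : f a = f b := congrArg Prod.fst hab
      have e2 : f' a = f' b := congrArg Prod.snd hab
      rcases hL.tot 0 a b with h1 | h1 | h1
      · exact h1
      · exact absurd h1 (fun h1 => aux a b ha hb e1 e2 h1)
      · exact absurd h1 (fun h1 => aux b a hb ha e1.symm e2.symm h1)
  have hU : {a | w a ≠ w' a} ⊆ ⋃ p : SV n × SV n, {a | p.1 ≠ p.2 ∧ (w a = p.1 ∧ w' a = p.2)} := by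
    intro a ha
    exact mem_iUnion.2 ⟨(w a, w' a), ha, rfl, rfl⟩
  refine Set.Finite.subset (Set.finite_iUnion fun p => ?_) hU
  by_cases hp : p.1 = p.2
  · have e : {a | p.1 ≠ p.2 ∧ (w a = p.1 ∧ w' a = p.2)} = ∅ := by
      ext a
      simp [hp]
    rw [e]
    exact Set.finite_empty
  · exact (hS p.1 p.2 hp).subset fun a ha => ha.2

theorem count_w (x : XO n) : {w : ℕ → SV n | Gd ((x, w) : YO n)}.Countable := by
  rcases Set.eq_empty_or_nonempty {w : ℕ → SV n | Gd ((x, w) : YO n)} with h0 | ⟨w₀, h0⟩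
  · rw [h0]
    exact Set.countable_empty
  · refine Set.MapsTo.countable_of_injOn
      (f := fun w => {p : ℕ × Fin (n + 1) | w p.1 p.2 ≠ w₀ p.1 p.2})
      (t := {t : Set (ℕ × Fin (n + 1)) | t.Finite ∧ t ⊆ univ}) ?_ ?_
      (Set.countable_ofPred_finite_subset (Set.to_countable _))
    · intro w hw
      refine ⟨?_, subset_univ _⟩
      have h1 := fin_diff hw h0
      refine Set.Finite.subset (h1.prod (Set.finite_univ (α := Fin (n + 1)))) ?_
      rintro ⟨a, i⟩ hp
      refine ⟨?_, mem_univ _⟩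
      intro hcon
      exact hp (congrFun hcon i)
    · intro w _ w' _ hww
      funext a i
      have h1 : (a, i) ∈ {p : ℕ × Fin (n + 1) | w p.1 p.2 ≠ w₀ p.1 p.2} ↔
          (a, i) ∈ {p : ℕ × Fin (n + 1) | w' p.1 p.2 ≠ w₀ p.1 p.2} := by
        have h2 : {p : ℕ × Fin (n + 1) | w p.1 p.2 ≠ w₀ p.1 p.2} =
          {p : ℕ × Fin (n + 1) | w' p.1 p.2 ≠ w₀ p.1 p.2} := hww
        rw [h2]
      have h3 : w a i ≠ w₀ a i ↔ w' a i ≠ w₀ a i := h1
      revert h3
      cases w a i <;> cases w' a i <;> cases w₀ a i <;> simp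

/-- the isomorphism relation in the form needed for analyticity -/
def IA (s t : ℕ → ℕ) (x y : XO n) : Prop :=
  (∀ a b, s a = b ↔ t b = a) ∧
    (∀ i a b k l, s a = k → s b = l → y.1 i k l = x.1 i a b) ∧
    (∀ i a b k l, s a = k → s b = l → y.2.1 i k l = x.2.1 i a b) ∧
      ∀ j a k, s a = k → y.2.2 j k = x.2.2 j a

theorem closed_IA : IsClosed {q : ((ℕ → ℕ) × (ℕ → ℕ)) × (XO n × XO n) |
    IA q.1.1 q.1.2 q.2.1 q.2.2} := by
  have cs : ∀ a k : ℕ, IsClopen {q : ((ℕ → ℕ) × (ℕ → ℕ)) × (XO n × XO n) | q.1.1 a = k} := by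
    intro a k
    have h1 : Continuous fun q : ((ℕ → ℕ) × (ℕ → ℕ)) × (XO n × XO n) => q.1.1 a :=
      (continuous_apply a).comp (continuous_fst.comp continuous_fst)
    exact (isClopen_discrete {k}).preimage h1
  have ct : ∀ a k : ℕ, IsClopen {q : ((ℕ → ℕ) × (ℕ → ℕ)) × (XO n × XO n) | q.1.2 a = k} := by
    intro a k
    have h1 : Continuous fun q : ((ℕ → ℕ) × (ℕ → ℕ)) × (XO n × XO n) => q.1.2 a :=
      (continuous_apply a).comp (continuous_snd.comp continuous_fst)
    exact (isClopen_discrete {k}).preimage h1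
  have e : {q : ((ℕ → ℕ) × (ℕ → ℕ)) × (XO n × XO n) | IA q.1.1 q.1.2 q.2.1 q.2.2} =
      (⋂ a, ⋂ b, {q | q.1.1 a = b ↔ q.1.2 b = a}) ∩
      ((⋂ i, ⋂ a, ⋂ b, ⋂ k, ⋂ l, {q | q.1.1 a = k → q.1.1 b = l → q.2.2.1 i k l = q.2.1.1 i a b}) ∩
      ((⋂ i, ⋂ a, ⋂ b, ⋂ k, ⋂ l,
        {q | q.1.1 a = k → q.1.1 b = l → q.2.2.2.1 i k l = q.2.1.2.1 i a b}) ∩
      (⋂ j, ⋂ a, ⋂ k, {q | q.1.1 a = k → q.2.2.2.2 j k = q.2.1.2.2 j a}))) := by
    ext q
    simp only [mem_inter_iff, mem_iInter]
    rfl
  rw [e]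
  refine IsClosed.inter ?_ (IsClosed.inter ?_ (IsClosed.inter ?_ ?_))
  · refine isClosed_iInter fun a => isClosed_iInter fun b => ?_
    have e2 : {q : ((ℕ → ℕ) × (ℕ → ℕ)) × (XO n × XO n) | q.1.1 a = b ↔ q.1.2 b = a} =
        ({q | q.1.1 a = b} ∩ {q | q.1.2 b = a}) ∪ ({q | q.1.1 a = b}ᶜ ∩ {q | q.1.2 b = a}ᶜ) := by
      ext q
      simp only [mem_union, mem_inter_iff, mem_compl_iff, mem_ofPred_eq]
      tauto
    rw [e2]
    exact (((cs a b).isClosed.inter (ct b a).isClosed).union
      ((cs a b).compl.isClosed.inter (ct b a).compl.isClosed))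
  · refine isClosed_iInter fun i => isClosed_iInter fun a => isClosed_iInter fun b =>
      isClosed_iInter fun k => isClosed_iInter fun l => ?_
    refine isClosed_imp (cs a k).isOpen (isClosed_imp (cs b l).isOpen ?_)
    refine isClosed_eq ?_ ?_
    · exact (continuous_apply l).comp ((continuous_apply k).comp ((continuous_apply i).comp
        (continuous_fst.comp (continuous_snd.comp continuous_snd))))
    · exact (continuous_apply b).comp ((continuous_apply a).comp ((continuous_apply i).comp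
        (continuous_fst.comp (continuous_fst.comp continuous_snd))))
  · refine isClosed_iInter fun i => isClosed_iInter fun a => isClosed_iInter fun b =>
      isClosed_iInter fun k => isClosed_iInter fun l => ?_
    refine isClosed_imp (cs a k).isOpen (isClosed_imp (cs b l).isOpen ?_)
    refine isClosed_eq ?_ ?_
    · exact (continuous_apply l).comp ((continuous_apply k).comp ((continuous_apply i).comp
        (continuous_fst.comp (continuous_snd.comp (continuous_snd.comp continuous_snd)))))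
    · exact (continuous_apply b).comp ((continuous_apply a).comp ((continuous_apply i).comp
        (continuous_fst.comp (continuous_snd.comp (continuous_fst.comp continuous_snd)))))
  · refine isClosed_iInter fun j => isClosed_iInter fun a => isClosed_iInter fun k => ?_
    refine isClosed_imp (cs a k).isOpen ?_
    refine isClosed_eq ?_ ?_
    · exact (continuous_apply k).comp ((continuous_apply j).comp
        (continuous_snd.comp (continuous_snd.comp (continuous_snd.comp continuous_snd))))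
    · exact (continuous_apply a).comp ((continuous_apply j).comp
        (continuous_snd.comp (continuous_snd.comp (continuous_fst.comp continuous_snd))))

theorem ia_iff (x y : XO n) : (∃ s t, IA s t x y) ↔ ∃ σ : Equiv.Perm ℕ, IX σ x y := by
  constructor
  · rintro ⟨s, t, h1, h2, h3, h4⟩
    let σ : Equiv.Perm ℕ := ⟨s, t, fun a => (h1 a (s a)).1 rfl, fun b => (h1 (t b) b).2 rfl⟩
    exact ⟨σ, fun i a b => h2 i a b _ _ rfl rfl, fun i a b => h3 i a b _ _ rfl rfl,
      fun j a => h4 j a _ rfl⟩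
  · rintro ⟨σ, h1, h2, h3⟩
    refine ⟨σ, σ.symm, fun a b => ?_, ?_, ?_, ?_⟩
    · constructor
      · rintro rfl
        exact σ.symm_apply_apply a
      · rintro rfl
        exact σ.apply_symm_apply b
    · rintro i a b k l rfl rfl
      exact h1 i a b
    · rintro i a b k l rfl rfl
      exact h2 i a b
    · rintro j a k rfl
      exact h3 j a

theorem ana_IX (g : (ℕ → Bool) → XO n) (hg : Continuous g) :
    AnalyticSet {p : (ℕ → Bool) × (ℕ → Bool) | ∃ σ : Equiv.Perm ℕ, IX σ (g p.1) (g p.2)} := by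
  have h := analytic_iso (X := XO n) IA closed_IA g hg
  have e : {p : (ℕ → Bool) × (ℕ → Bool) | ∃ σ : Equiv.Perm ℕ, IX σ (g p.1) (g p.2)} =
      {p | ∃ s t, IA s t (g p.1) (g p.2)} := by
    ext p
    exact (ia_iff _ _).symm
  rw [e]
  exact h

theorem ix_symm {σ : Equiv.Perm ℕ} {x y : XO n} (h : IX σ x y) : IX σ.symm y x := by
  refine ⟨fun i a b => ?_, fun i a b => ?_, fun j a => ?_⟩
  · rw [← h.1, Equiv.apply_symm_apply, Equiv.apply_symm_apply]
  · rw [← h.2.1, Equiv.apply_symm_apply, Equiv.apply_symm_apply]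
  · rw [← h.2.2, Equiv.apply_symm_apply]

theorem ix_trans {σ τ : Equiv.Perm ℕ} {x y z : XO n} (h : IX σ x y) (h' : IX τ y z) :
    IX (σ.trans τ) x z := by
  refine ⟨fun i a b => ?_, fun i a b => ?_, fun j a => ?_⟩
  · show z.1 i (τ (σ a)) (τ (σ b)) = _
    rw [h'.1, h.1]
  · show z.2.1 i (τ (σ a)) (τ (σ b)) = _
    rw [h'.2.1, h.2.1]
  · show z.2.2 j (τ (σ a)) = _
    rw [h'.2.2, h.2.2]

theorem iy_symm {σ : Equiv.Perm ℕ} {x y : YO n} (h : IY σ x y) : IY σ.symm y x := by
  refine ⟨ix_symm h.1, fun a => ?_⟩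
  rw [← h.2, Equiv.apply_symm_apply]

theorem iy_trans {σ τ : Equiv.Perm ℕ} {x y z : YO n} (h : IY σ x y) (h' : IY τ y z) :
    IY (σ.trans τ) x z := by
  refine ⟨ix_trans h.1 h'.1, fun a => ?_⟩
  show z.2 (τ (σ a)) = _
  rw [h'.2, h.2]

/-- The dichotomy for finitely many linear orders which agree or are opposite on the classes of a
finite partition. -/
theorem outL (B : Set (XO n)) (hB : MeasurableSet B) (hL : ∀ x ∈ B, LOs x) (hC : ∀ x ∈ B, Cov x)
    (hinv : ∀ x ∈ B, ∀ (y : XO n) (σ : Equiv.Perm ℕ), IX σ x y → y ∈ B) :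
    (∃ f : ℕ → XO n, ∀ x ∈ B, ∃ m, ∃ σ : Equiv.Perm ℕ, IX σ (f m) x) ∨
    (∃ g : (ℕ → Bool) → XO n, Continuous g ∧ (∀ a, g a ∈ B) ∧
      ∀ a b, (∃ σ : Equiv.Perm ℕ, IX σ (g a) (g b)) → a = b) := by
  refine ecc (fun x x' => ∃ σ : Equiv.Perm ℕ, IX σ x x') (fun y y' => ∃ σ : Equiv.Perm ℕ, IY σ y y')
    (Prod.fst : YO n → XO n) continuous_fst ana_IX ?_ ?_ ?_ ?_ ?_ Gd ?_ B ?_ ?_ ?_
  · rintro x x' ⟨σ, h⟩
    exact ⟨_, ix_symm h⟩
  · rintro x x' ⟨σ, h⟩
    exact ⟨_, iy_symm h⟩
  · rintro x x' x'' ⟨σ, h⟩ ⟨τ, h'⟩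
    exact ⟨_, iy_trans h h'⟩
  · rintro y y' ⟨σ, h⟩
    exact ⟨σ, h.1⟩
  · rintro y x' ⟨σ, h⟩
    refine ⟨(x', fun a => y.2 (σ.symm a)), rfl, σ, h, fun a => ?_⟩
    show y.2 (σ.symm (σ a)) = y.2 a
    rw [σ.symm_apply_apply]
  · rintro y y' ⟨σ, h⟩ hG
    exact gd_iso h hG
  · intro x hx
    obtain ⟨w, hw⟩ := gd_of_cov (hL x hx) (hC x hx)
    exact ⟨(x, w), hw, rfl⟩
  · intro x hx
    refine ((count_w x).image fun w => ((x, w) : YO n)).mono ?_
    rintro ⟨x', w⟩ ⟨h1, h2⟩
    have h2' : x' = x := h2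
    subst h2'
    exact ⟨w, h1, rfl⟩
  · rcases dichY {y : YO n | Gd y ∧ y.1 ∈ B}
      ((measurableSet_setOfPred.2 m_Gd).inter (measurable_fst hB)) (by
        rintro y ⟨h1, h2⟩ y' σ h
        exact ⟨gd_iso h h1, hinv _ h2 _ σ h.1⟩) (fun y hy => hy.1) with ⟨f, hf⟩ | ⟨g, hg, hgB, hgi⟩
    · left
      refine ⟨f, fun y h1 h2 => ?_⟩
      obtain ⟨m, σ, h⟩ := hf y ⟨h1, h2⟩
      exact ⟨m, σ, h⟩
    · right
      exact ⟨g, hg, hgB, hgi⟩

end Pool.Agent.Y558.EC
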