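import Mathlib

set_option autoImplicit false

/-!
# Gallai's theorem: a prime comparability graph has at most two transitive orientations
-/

namespace Pool.Agent.Y558.EC.Gal

open Set

/-- `P` is a transitive orientation of `G`. -/
structure TO (G P : ℕ → ℕ → Prop) : Prop where
  iff : ∀ a b, G a b ↔ P a b ∨ P b a
  asym : ∀ a b, P a b → ¬ P b a
  tr : ∀ a b c, P a b → P b c → P a c

def Mod (G : ℕ → ℕ → Prop) (M : Set ℕ) : Prop :=
  ∀ x, x ∉ M → ∀ y ∈ M, ∀ z ∈ M, G x y → G x z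

def Pri (G : ℕ → ℕ → Prop) : Prop := ∀ M, Mod G M → M.Subsingleton ∨ M = univ

/-- the ordered pairs forced by the pair `a0 b0` -/
inductive F (G : ℕ → ℕ → Prop) (a0 b0 : ℕ) : ℕ → ℕ → Prop
  | base : F G a0 b0 a0 b0
  | right {a b c : ℕ} : F G a0 b0 a b → G a c → ¬ G b c → F G a0 b0 a c
  | left {a b c : ℕ} : F G a0 b0 a b → G c b → ¬ G a c → F G a0 b0 c b

def A (G : ℕ → ℕ → Prop) (a0 b0 a b : ℕ) : Prop := F G a0 b0 a b ∨ F G a0 b0 b a

variable {G : ℕ → ℕ → Prop} {a0 b0 : ℕ}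

theorem A.sy {a b : ℕ} (h : A G a0 b0 a b) : A G a0 b0 b a := Or.symm h

theorem F.g (h0 : G a0 b0) {a b : ℕ} (h : F G a0 b0 a b) : G a b := by
  cases h with
  | base => exact h0
  | right _ h _ => exact h
  | left _ h _ => exact h

theorem A.g (hs : ∀ a b, G a b → G b a) (h0 : G a0 b0) {a b : ℕ} (h : A G a0 b0 a b) : G a b := by
  rcases h with h | h
  · exact h.g h0
  · exact hs _ _ (h.g h0)

theorem k1 (hs : ∀ a b, G a b → G b a) {u v w : ℕ} (h : A G a0 b0 u v) (h1 : G v w)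
    (h2 : ¬ G u w) : A G a0 b0 v w := by
  rcases h with h | h
  · exact Or.inr (F.left h (hs _ _ h1) h2)
  · exact Or.inl (F.right h h1 h2)

theorem k2 (hs : ∀ a b, G a b → G b a) (hi : ∀ a, ¬ G a a) (h0 : G a0 b0) (hp : Pri G) (x : ℕ) :
    ∃ v, A G a0 b0 x v := by
  let V : Set ℕ := {u | ∃ v, A G a0 b0 u v}
  have aux : ∀ x, x ∉ V → ∀ u v, A G a0 b0 u v → G x u → G x v := by
    intro x hx u v h h1
    by_contra h2
    exact hx ⟨u, (k1 hs h.sy (hs _ _ h1) (fun h3 => h2 (hs _ _ h3))).sy⟩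
  have key : ∀ x, x ∉ V → ∀ u v, F G a0 b0 u v → (G x u ↔ G x a0) ∧ (G x v ↔ G x a0) := by
    intro x hx u v h
    induction h with
    | base => exact ⟨Iff.rfl, aux x hx _ _ (Or.inr F.base), aux x hx _ _ (Or.inl F.base)⟩
    | @right a b c h h1 h2 ih =>
      have h3 : A G a0 b0 a c := Or.inl (F.right h h1 h2)
      exact ⟨ih.1, (⟨aux x hx _ _ h3.sy, aux x hx _ _ h3⟩ : G x c ↔ G x a).trans ih.1⟩
    | @left a b c h h1 h2 ih =>
      have h3 : A G a0 b0 c b := Or.inl (F.left h h1 h2)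
      exact ⟨(⟨aux x hx _ _ h3, aux x hx _ _ h3.sy⟩ : G x c ↔ G x b).trans ih.2, ih.2⟩
  have hM : Mod G V := by
    rintro x hx y ⟨u, hy⟩ z ⟨v, hz⟩ h
    have e1 : G x y ↔ G x a0 := by
      rcases hy with h1 | h1
      · exact (key x hx _ _ h1).1
      · exact (key x hx _ _ h1).2
    have e2 : G x z ↔ G x a0 := by
      rcases hz with h1 | h1
      · exact (key x hx _ _ h1).1
      · exact (key x hx _ _ h1).2
    exact e2.2 (e1.1 h)
  rcases hp V hM with h | h
  · have e : a0 = b0 := h ⟨b0, Or.inl F.base⟩ ⟨a0, Or.inr F.base⟩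
    rw [e] at h0
    exact absurd h0 (hi _)
  · have : x ∈ V := by rw [h]; trivial
    exact this

def Q (G : ℕ → ℕ → Prop) (a0 b0 p u v : ℕ) : Prop :=
  G p u ∧ G p v ∧ ¬ A G a0 b0 p u ∧ ¬ A G a0 b0 p v

theorem Q.sy {p u v : ℕ} (h : Q G a0 b0 p u v) : Q G a0 b0 p v u := ⟨h.2.1, h.1, h.2.2.2, h.2.2.1⟩

theorem q_step (hs : ∀ a b, G a b → G b a) {p u v d : ℕ}
    (h2 : A G a0 b0 u d) (h3 : ¬ G v d) (h : Q G a0 b0 p u v) : Q G a0 b0 p u d := by
  obtain ⟨q1, q2, q3, q4⟩ := h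
  refine ⟨q1, ?_, q3, ?_⟩
  · by_contra hc
    exact q3 (k1 hs h2.sy (hs _ _ q1) (fun h => hc (hs _ _ h))).sy
  · intro hc
    exact q4 (k1 hs hc.sy q2 (fun h => h3 (hs _ _ h)))

theorem k3 (hs : ∀ a b, G a b → G b a) (hi : ∀ a, ¬ G a a) (h0 : G a0 b0) (hp : Pri G)
    {p u v : ℕ} (h : A G a0 b0 u v) : ¬ Q G a0 b0 p u v := by
  have key : ∀ u v, F G a0 b0 u v → (Q G a0 b0 p a0 b0 ↔ Q G a0 b0 p u v) := by
    intro u v h
    induction h with
    | base => exact Iff.rfl
    | @right a b c h h1 h2 ih =>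
      have h3 : A G a0 b0 a c := Or.inl (F.right h h1 h2)
      have h4 : A G a0 b0 a b := Or.inl h
      exact ih.trans ⟨q_step hs h3 h2, q_step hs h4 (fun h => h2 (hs _ _ h))⟩
    | @left a b c h h1 h2 ih =>
      have h3 : A G a0 b0 b c := Or.inr (F.left h h1 h2)
      have h4 : A G a0 b0 b a := Or.inr h
      exact ih.trans ⟨fun q => (q_step hs h3 h2 q.sy).sy,
        fun q => (q_step hs h4 (fun h => h2 (hs _ _ h)) q.sy).sy⟩
  have h5 : ¬ Q G a0 b0 p a0 b0 := by
    obtain ⟨q, hq⟩ := k2 hs hi h0 hp p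
    intro hc
    rcases hq with hq | hq
    · exact hi p ((key _ _ hq).1 hc).1
    · exact hi p ((key _ _ hq).1 hc).2.1
  rcases h with h | h
  · exact fun hc => h5 ((key _ _ h).2 hc)
  · exact fun hc => h5 ((key _ _ h).2 hc.sy)

theorem k4 (hs : ∀ a b, G a b → G b a) (hi : ∀ a, ¬ G a a) (h0 : G a0 b0) (hp : Pri G)
    {u v w : ℕ} (h1 : G v w) (h2 : ¬ A G a0 b0 v w) (h : A G a0 b0 u v) : A G a0 b0 u w := by
  have h3 : G u w := by
    by_contra hc
    exact h2 (k1 hs h h1 hc)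
  by_contra hc
  exact k3 hs hi h0 hp h (p := w) ⟨hs _ _ h3, hs _ _ h1, fun h => hc h.sy, fun h => h2 h.sy⟩

theorem k5 (hs : ∀ a b, G a b → G b a) (hi : ∀ a, ¬ G a a) (h0 : G a0 b0) (hp : Pri G)
    {v0 w0 : ℕ} (h : G v0 w0) : A G a0 b0 v0 w0 := by
  by_contra hA
  let D : ℕ → ℕ → Prop := fun a b => G a b ∧ ¬ A G a0 b0 a b
  have hD : ∀ a b, D a b → D b a := fun a b h => ⟨hs _ _ h.1, fun h' => h.2 h'.sy⟩
  let C : Set ℕ := {w | Relation.ReflTransGen D v0 w}
  have hM : Mod G C := by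
    intro x hx
    have key : ∀ y, Relation.ReflTransGen D v0 y → (G x y ↔ G x v0) := by
      intro y hy
      induction hy with
      | refl => exact Iff.rfl
      | @tail y y' hy hyy ih =>
        have aux : ∀ z z', Relation.ReflTransGen D v0 z → D z z' → G x z → G x z' := by
          intro z z' hz hzz h1
          have h2 : A G a0 b0 x z := by
            by_contra hc
            exact hx (hz.tail ⟨hs _ _ h1, fun h => hc h.sy⟩)
          exact (k4 hs hi h0 hp hzz.1 hzz.2 h2).g hs h0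
        exact (⟨aux _ _ (hy.tail hyy) (hD _ _ hyy), aux _ _ hy hyy⟩ : G x y' ↔ G x y).trans ih
    intro y hy z hz h1
    exact (key z hz).2 ((key y hy).1 h1)
  rcases hp C hM with h1 | h1
  · have e : v0 = w0 := h1 Relation.ReflTransGen.refl (Relation.ReflTransGen.single ⟨h, hA⟩)
    rw [e] at h
    exact hi _ h
  · have ha : Relation.ReflTransGen D v0 a0 := by
      have : a0 ∈ C := by rw [h1]; trivial
      exact this
    have hb : Relation.ReflTransGen D v0 b0 := by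
      have : b0 ∈ C := by rw [h1]; trivial
      exact this
    have hb' : Relation.ReflTransGen D b0 v0 := by
      have aux : ∀ y, Relation.ReflTransGen D v0 y → Relation.ReflTransGen D y v0 := by
        intro y hy
        induction hy with
        | refl => exact Relation.ReflTransGen.refl
        | tail _ hyy ih => exact Relation.ReflTransGen.head (hD _ _ hyy) ih
      exact aux _ hb
    have hab := hb'.trans ha
    have : ∀ y, Relation.ReflTransGen D b0 y → A G a0 b0 a0 y := by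
      intro y hy
      induction hy with
      | refl => exact Or.inl F.base
      | tail _ hyy ih => exact k4 hs hi h0 hp hyy.1 hyy.2 ih
    exact hi _ ((this a0 hab).g hs h0)

theorem f_to {P : ℕ → ℕ → Prop} (hP : TO G P) (h0 : P a0 b0) {a b : ℕ} (h : F G a0 b0 a b) :
    P a b := by
  induction h with
  | base => exact h0
  | @right a b c h h1 h2 ih =>
    rcases (hP.iff _ _).1 h1 with h3 | h3
    · exact h3
    · exact absurd ((hP.iff _ _).2 (Or.inr (hP.tr _ _ _ h3 ih))) h2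
  | @left a b c h h1 h2 ih =>
    rcases (hP.iff _ _).1 h1 with h3 | h3
    · exact h3
    · exact absurd ((hP.iff _ _).2 (Or.inl (hP.tr _ _ _ ih h3))) h2

theorem TO.sy {P : ℕ → ℕ → Prop} (hP : TO G P) (a b : ℕ) (h : G a b) : G b a :=
  (hP.iff _ _).2 ((hP.iff _ _).1 h).symm

theorem TO.ir {P : ℕ → ℕ → Prop} (hP : TO G P) (a : ℕ) : ¬ G a a := by
  intro h
  rcases (hP.iff _ _).1 h with h1 | h1 <;> exact hP.asym _ _ h1 h1

theorem uniq (hp : Pri G) {P P' : ℕ → ℕ → Prop} (hP : TO G P) (hP' : TO G P') (h0 : P a0 b0)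
    (h0' : P' a0 b0) : P = P' := by
  have hg : G a0 b0 := (hP.iff _ _).2 (Or.inl h0)
  funext a b
  apply propext
  constructor
  · intro h
    rcases k5 hP.sy hP.ir hg hp ((hP.iff a b).2 (Or.inl h)) with h1 | h1
    · exact f_to hP' h0' h1
    · exact absurd (f_to hP h0 h1) (hP.asym _ _ h)
  · intro h
    rcases k5 hP.sy hP.ir hg hp ((hP'.iff a b).2 (Or.inl h)) with h1 | h1
    · exact f_to hP h0 h1
    · exact absurd (f_to hP' h0' h1) (hP'.asym _ _ h)

theorem count (hp : Pri G) : {P : ℕ → ℕ → Prop | TO G P}.Countable := by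
  by_cases he : ∃ a0 b0, G a0 b0
  · obtain ⟨a0, b0, h0⟩ := he
    refine Set.MapsTo.countable_of_injOn (f := fun P : ℕ → ℕ → Prop => P a0 b0)
      (t := (univ : Set Prop)) (fun _ _ => trivial) ?_ (Set.to_countable _)
    intro P hP P' hP' hh
    have hh' : P a0 b0 = P' a0 b0 := hh
    rcases (hP.iff _ _).1 h0 with h1 | h1
    · exact uniq hp hP hP' h1 (hh' ▸ h1)
    · have h2 : ¬ P a0 b0 := hP.asym _ _ h1
      have h3 : ¬ P' a0 b0 := hh' ▸ h2
      have h4 : P' b0 a0 := ((hP'.iff _ _).1 h0).resolve_left h3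
      exact uniq hp hP hP' h1 h4
  · refine Set.Subsingleton.countable ?_
    intro P hP P' hP'
    funext a b
    apply propext
    constructor
    · exact fun h => absurd ⟨a, b, (hP.iff _ _).2 (Or.inl h)⟩ he
    · exact fun h => absurd ⟨a, b, (hP'.iff _ _).2 (Or.inl h)⟩ he

end Pool.Agent.Y558.EC.Gal
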