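import Pool.Agent.Y558.EC.Per

set_option autoImplicit false

/-!
# Interval orders
-/

namespace Pool.Agent.Y558.EC

open Set MeasureTheory
open Pool.Agent.H533R2.VO (RS)
open Pool.Agent.H533R2.VS (US UIso UDich VCu)

/-- lexicographic order of two preorders -/
def lex (X Y : ℕ → ℕ → Prop) (a b : ℕ) : Prop := ¬ X b a ∨ (X a b ∧ ¬ Y b a)

theorem lex_tr {X Y : ℕ → ℕ → Prop} (hX : ∀ a b, X a b ∨ X b a)
    (tX : ∀ a b c, X a b → X b c → X a c) (hY : ∀ a b, Y a b ∨ Y b a)
    (tY : ∀ a b c, Y a b → Y b c → Y a c) (a b c : ℕ) (h : lex X Y a b) (h' : lex X Y b c) :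
    lex X Y a c := by
  rcases h with h | ⟨h1, h2⟩
  · left
    have hab : X a b := (hX a b).resolve_right h
    rcases h' with h' | ⟨h3, h4⟩
    · exact fun hc => h' (tX _ _ _ hc hab)
    · exact fun hc => h (tX _ _ _ h3 hc)
  · rcases h' with h' | ⟨h3, h4⟩
    · left
      exact fun hc => h' (tX _ _ _ hc h1)
    · right
      refine ⟨tX _ _ _ h1 h3, fun hc => ?_⟩
      have hab : Y a b := (hY a b).resolve_right h2
      exact h4 (tY _ _ _ hc hab)

/-- interval orders -/
structure IO (P : ℕ → ℕ → Bool) : Prop where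
  irr : ∀ a, P a a = false
  two : ∀ a b c d, P a b = true → P c d = true → P a d = true ∨ P c b = true

def LL (P : ℕ → ℕ → Bool) (a b : ℕ) : Prop := ∀ u, P u a = true → P u b = true
def RR (P : ℕ → ℕ → Bool) (a b : ℕ) : Prop := ∀ u, P b u = true → P a u = true

variable {P : ℕ → ℕ → Bool}

theorem ll_tot (h : IO P) (a b : ℕ) : LL P a b ∨ LL P b a := by
  by_contra hc
  unfold LL at hc
  push Not at hc
  obtain ⟨⟨u, h1, h2⟩, ⟨v, h3, h4⟩⟩ := hc
  rcases h.two u a v b h1 h3 with h5 | h5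
  · exact h2 h5
  · exact h4 h5

theorem rr_tot (h : IO P) (a b : ℕ) : RR P a b ∨ RR P b a := by
  by_contra hc
  unfold RR at hc
  push Not at hc
  obtain ⟨⟨u, h1, h2⟩, ⟨v, h3, h4⟩⟩ := hc
  rcases h.two b u a v h1 h3 with h5 | h5
  · exact h4 h5
  · exact h2 h5

theorem ll_tr (a b c : ℕ) (h : LL P a b) (h' : LL P b c) : LL P a c := fun u hu => h' u (h u hu)
theorem rr_tr (a b c : ℕ) (h : RR P a b) (h' : RR P b c) : RR P a c := fun u hu => h u (h' u hu)

/-- `a` is strictly nested in `b` -/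
def Ne (P : ℕ → ℕ → Bool) (a b : ℕ) : Prop := ¬ LL P a b ∧ ¬ RR P b a

def lo (P : ℕ → ℕ → Bool) : ℕ → ℕ → Prop := lex (LL P) (RR P)
def ro (P : ℕ → ℕ → Bool) : ℕ → ℕ → Prop := lex (RR P) (LL P)

theorem pair_mod {E : ℕ → ℕ → Prop} (hp : PrB E) {a b : ℕ}
    (h : ∀ x, x ≠ a → x ≠ b → (E x a ↔ E x b) ∧ (E a x ↔ E b x)) : a = b := by
  have hM : MdB E {a, b} := by
    intro x hx y hy z hz
    have h1 : x ≠ a := fun e => hx (Or.inl e)
    have h2 : x ≠ b := fun e => hx (Or.inr e)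
    obtain ⟨h3, h4⟩ := h x h1 h2
    rcases hy with rfl | hy
    · rcases hz with rfl | hz
      · exact ⟨id, id⟩
      · have hz' : z = b := hz
        subst hz'
        exact ⟨h3.1, h4.1⟩
    · have hy' : y = b := hy
      subst hy'
      rcases hz with rfl | hz
      · exact ⟨h3.2, h4.2⟩
      · have hz' : z = y := hz
        subst hz'
        exact ⟨id, id⟩
  rcases hp _ hM with h1 | h1
  · exact h1 (Or.inl rfl) (Or.inr rfl)
  · exfalso
    have h2 : (a + b + 1) ∈ ({a, b} : Set ℕ) := by rw [h1]; trivial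
    rcases h2 with h2 | h2
    · omega
    · have h2' : a + b + 1 = b := h2
      omega

theorem lo_tot (_h : IO P) (hp : PrB fun a b => P a b = true) (a b : ℕ) :
    a = b ∨ lo P a b ∨ lo P b a := by
  by_contra hc
  push Not at hc
  obtain ⟨h0, h1, h2⟩ := hc
  unfold lo lex at h1 h2
  push Not at h1 h2
  have h3 := h1.2 h2.1
  have h4 := h2.2 h1.1
  refine h0 (pair_mod hp fun x _ _ => ⟨⟨h2.1 x, h1.1 x⟩, ⟨h3 x, h4 x⟩⟩)

theorem ro_tot (_h : IO P) (hp : PrB fun a b => P a b = true) (a b : ℕ) :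
    a = b ∨ ro P a b ∨ ro P b a := by
  by_contra hc
  push Not at hc
  obtain ⟨h0, h1, h2⟩ := hc
  unfold ro lex at h1 h2
  push Not at h1 h2
  have h3 := h1.2 h2.1
  have h4 := h2.2 h1.1
  refine h0 (pair_mod hp fun x _ _ => ⟨⟨h4 x, h3 x⟩, ⟨h1.1 x, h2.1 x⟩⟩)

theorem lo_ll (h : IO P) {a b : ℕ} (hab : lo P a b) : LL P a b := by
  rcases hab with h1 | h1
  · exact (ll_tot h a b).resolve_right h1
  · exact h1.1

theorem ro_rr (h : IO P) {a b : ℕ} (hab : ro P a b) : RR P a b := by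
  rcases hab with h1 | h1
  · exact (rr_tot h a b).resolve_right h1
  · exact h1.1

open Classical in
/-- the orders -/
noncomputable def fo (P : ℕ → ℕ → Bool) : Fin 2 → ℕ → ℕ → Bool :=
  fun i a b => if i = 0 then decide (lo P a b) else decide (ro P a b)

theorem fo0 (a b : ℕ) : fo P 0 a b = true ↔ lo P a b := by
  classical
  show (if (0 : Fin 2) = 0 then decide (lo P a b) else decide (ro P a b)) = true ↔ _
  rw [if_pos rfl]
  exact decide_eq_true_iff

theorem fo1 (a b : ℕ) : fo P 1 a b = true ↔ ro P a b := by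
  classical
  show (if (1 : Fin 2) = 0 then decide (lo P a b) else decide (ro P a b)) = true ↔ _
  rw [if_neg (by decide)]
  exact decide_eq_true_iff

/-- the relations -/
def Ro (P : ℕ → ℕ → Bool) : ℕ → ℕ → ℕ → Bool := fun j a b => if j = 0 then P a b else false

theorem ro0 (a b : ℕ) : Ro P 0 a b = P a b := if_pos rfl

theorem los_io (h : IO P) (hp : PrB fun a b => P a b = true) (u : ℕ → ℕ → Bool) :
    LOs ((fo P, Ro P, u) : XO 1) := by
  refine ⟨fun i a => ?_, fun i a b c => ?_, fun i a b => ?_, fun j => ?_, fun j => ?_⟩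
  · rw [← Bool.not_eq_true]
    match i with
    | 0 =>
      intro h1
      rcases (fo0 a a).1 h1 with h2 | h2
      · exact h2 fun _ h => h
      · exact h2.2 fun _ h => h
    | 1 =>
      intro h1
      rcases (fo1 a a).1 h1 with h2 | h2
      · exact h2 fun _ h => h
      · exact h2.2 fun _ h => h
  · match i with
    | 0 => exact fun h1 h2 => (fo0 _ _).2 (lex_tr (ll_tot h) ll_tr (rr_tot h) rr_tr a b c
        ((fo0 _ _).1 h1) ((fo0 _ _).1 h2))
    | 1 => exact fun h1 h2 => (fo1 _ _).2 (lex_tr (rr_tot h) rr_tr (ll_tot h) ll_tr a b c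
        ((fo1 _ _).1 h1) ((fo1 _ _).1 h2))
  · match i with
    | 0 => exact (lo_tot h hp a b).imp id fun h => h.imp (fo0 _ _).2 (fo0 _ _).2
    | 1 => exact (ro_tot h hp a b).imp id fun h => h.imp (fo1 _ _).2 (fo1 _ _).2
  · by_cases hj : j = 0
    · subst hj
      refine ⟨1, false, fun a a' b hab => ⟨fun he => absurd he (by decide), fun _ h1 => ?_⟩⟩
      exact ro_rr h ((fo1 _ _).1 hab) b h1
    · refine ⟨1, false, fun a a' b hab => ⟨fun he => absurd he (by decide), fun _ h1 => ?_⟩⟩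
      have h2 : (if j = 0 then P a' b else false) = true := h1
      rw [if_neg hj] at h2
      exact absurd h2 (by decide)
  · by_cases hj : j = 0
    · subst hj
      refine ⟨0, true, fun a b b' hab => ⟨fun _ h1 => ?_, fun he => absurd he (by decide)⟩⟩
      exact lo_ll h ((fo0 _ _).1 hab) a h1
    · refine ⟨0, true, fun a b b' hab => ⟨fun _ h1 => ?_, fun he => absurd he (by decide)⟩⟩
      have h2 : (if j = 0 then P a b else false) = true := h1
      rw [if_neg hj] at h2
      exact absurd h2 (by decide)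

/-- the cover -/
def CvI (P : ℕ → ℕ → Bool) : Prop := ∃ (s : ℕ) (c : ℕ → Fin s), ∀ t,
  (∀ a b, c a = t → c b = t → ¬ Ne P a b) ∨
  (∀ a b, a ≠ b → c a = t → c b = t → Ne P a b ∨ Ne P b a)

theorem cov_io (h : IO P) (hp : PrB fun a b => P a b = true) (hc : CvI P) (u : ℕ → ℕ → Bool) :
    Cov ((fo P, Ro P, u) : XO 1) := by
  obtain ⟨s, c, hc⟩ := hc
  refine ⟨s, c, fun i t => ?_⟩
  match i with
  | 0 => exact Or.inl fun a b _ _ h => h
  | 1 =>
    rcases hc t with h1 | h1
    · left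
      intro a b ha hb hab
      have hl : lo P a b := (fo0 _ _).1 hab
      refine (fo1 _ _).2 ?_
      rcases ro_tot h hp a b with h2 | h2 | h2
      · rw [h2] at hl
        rcases hl with h3 | h3
        · exact absurd (fun _ h => h) h3
        · exact absurd (fun _ h => h) h3.2
      · exact h2
      · exfalso
        rcases hl with h3 | ⟨h3, h4⟩
        · rcases h2 with h5 | ⟨h5, h6⟩
          · exact h1 b a hb ha ⟨h3, h5⟩
          · exact h6 ((ll_tot h a b).resolve_right h3)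
        · rcases h2 with h5 | ⟨h5, h6⟩
          · exact h5 ((rr_tot h a b).resolve_right h4)
          · exact h4 h5
    · right
      intro a b ha hb hab
      have hl : lo P a b := (fo0 _ _).1 hab
      refine (fo1 _ _).2 ?_
      have hne : a ≠ b := by
        rintro rfl
        rcases hl with h3 | h3
        · exact h3 fun _ h => h
        · exact h3.2 fun _ h => h
      rcases h1 a b hne ha hb with h2 | h2
      · exfalso
        rcases hl with h3 | ⟨h3, h4⟩
        · exact h2.1 ((ll_tot h a b).resolve_right h3)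
        · exact h2.1 h3
      · exact Or.inl h2.2

/-- the good expansions -/
structure KI (y : YO 1) : Prop where
  io : IO (y.1.2.1 0)
  rel : ∀ j, j ≠ 0 → ∀ a b, y.1.2.1 j a b = false
  o0 : ∀ a b, y.1.1 0 a b = true ↔ lo (y.1.2.1 0) a b
  o1 : ∀ a b, y.1.1 1 a b = true ↔ ro (y.1.2.1 0) a b

theorem io_iso {P P' : ℕ → ℕ → Bool} {σ : Equiv.Perm ℕ} (h : ∀ a b, P' (σ a) (σ b) = P a b)
    (hP : IO P) : IO P' := by
  refine ⟨fun a => ?_, fun a b c d => ?_⟩
  · obtain ⟨a, rfl⟩ := σ.surjective a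
    rw [h]; exact hP.irr a
  · obtain ⟨a, rfl⟩ := σ.surjective a
    obtain ⟨b, rfl⟩ := σ.surjective b
    obtain ⟨c, rfl⟩ := σ.surjective c
    obtain ⟨d, rfl⟩ := σ.surjective d
    rw [h, h, h, h]; exact hP.two a b c d

theorem ll_iso {P P' : ℕ → ℕ → Bool} {σ : Equiv.Perm ℕ} (h : ∀ a b, P' (σ a) (σ b) = P a b)
    (a b : ℕ) : LL P' (σ a) (σ b) ↔ LL P a b := by
  constructor
  · intro h1 u hu
    rw [← h] at hu ⊢
    exact h1 _ hu
  · intro h1 u hu
    obtain ⟨u, rfl⟩ := σ.surjective u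
    rw [h] at hu ⊢
    exact h1 _ hu

theorem rr_iso {P P' : ℕ → ℕ → Bool} {σ : Equiv.Perm ℕ} (h : ∀ a b, P' (σ a) (σ b) = P a b)
    (a b : ℕ) : RR P' (σ a) (σ b) ↔ RR P a b := by
  constructor
  · intro h1 u hu
    rw [← h] at hu ⊢
    exact h1 _ hu
  · intro h1 u hu
    obtain ⟨u, rfl⟩ := σ.surjective u
    rw [h] at hu ⊢
    exact h1 _ hu

theorem ki_iso (σ : Equiv.Perm ℕ) (y y' : YO 1) (h : IY σ y y') (hy : KI y) : KI y' := by
  have h0 : ∀ a b, y'.1.2.1 0 (σ a) (σ b) = y.1.2.1 0 a b := h.1.2.1 0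
  refine ⟨io_iso h0 hy.io, fun j hj a b => ?_, fun a b => ?_, fun a b => ?_⟩
  · obtain ⟨a, rfl⟩ := σ.surjective a
    obtain ⟨b, rfl⟩ := σ.surjective b
    rw [h.1.2.1]; exact hy.rel j hj a b
  · obtain ⟨a, rfl⟩ := σ.surjective a
    obtain ⟨b, rfl⟩ := σ.surjective b
    rw [h.1.1, hy.o0]
    unfold lo lex
    rw [ll_iso h0, ll_iso h0, rr_iso h0]
  · obtain ⟨a, rfl⟩ := σ.surjective a
    obtain ⟨b, rfl⟩ := σ.surjective b
    rw [h.1.1, hy.o1]
    unfold ro lex
    rw [ll_iso h0, rr_iso h0, rr_iso h0]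

theorem m_LL (a b : ℕ) : Measurable fun y : YO 1 => LL (y.1.2.1 0) a b := by
  unfold LL
  exact Measurable.forall fun u => (mb (m_rel 0 u a)).imp (mb (m_rel 0 u b))

theorem m_RR (a b : ℕ) : Measurable fun y : YO 1 => RR (y.1.2.1 0) a b := by
  unfold RR
  exact Measurable.forall fun u => (mb (m_rel 0 b u)).imp (mb (m_rel 0 a u))

theorem m_KI : MeasurableSet {y : YO 1 | KI y} := by
  have e : {y : YO 1 | KI y} = {y : YO 1 |
      ((∀ a, y.1.2.1 0 a a = false) ∧
      (∀ a b c d, y.1.2.1 0 a b = true → y.1.2.1 0 c d = true → y.1.2.1 0 a d = true ∨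
        y.1.2.1 0 c b = true)) ∧
      (∀ j, j ≠ 0 → ∀ a b, y.1.2.1 j a b = false) ∧
      (∀ a b, y.1.1 0 a b = true ↔ lo (y.1.2.1 0) a b) ∧
      (∀ a b, y.1.1 1 a b = true ↔ ro (y.1.2.1 0) a b)} := by
    ext y
    exact ⟨fun h => ⟨⟨h.io.irr, h.io.two⟩, h.rel, h.o0, h.o1⟩,
      fun h => ⟨⟨h.1.1, h.1.2⟩, h.2.1, h.2.2.1, h.2.2.2⟩⟩
  rw [e]
  refine measurableSet_setOfPred.2 (Measurable.and (Measurable.and ?_ ?_) (Measurable.and ?_
    (Measurable.and ?_ ?_)))
  · exact Measurable.forall fun a => meq (m_rel 0 a a) measurable_const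
  · exact Measurable.forall fun a => Measurable.forall fun b => Measurable.forall fun c =>
      Measurable.forall fun d => (mb (m_rel 0 a b)).imp ((mb (m_rel 0 c d)).imp
        ((mb (m_rel 0 a d)).or (mb (m_rel 0 c b))))
  · exact Measurable.forall fun j => measurable_const.imp (Measurable.forall fun a =>
      Measurable.forall fun b => meq (m_rel j a b) measurable_const)
  · exact Measurable.forall fun a => Measurable.forall fun b => (mb (m_ord 0 a b)).iff
      ((m_LL b a).not.or ((m_LL a b).and (m_RR b a).not))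
  · exact Measurable.forall fun a => Measurable.forall fun b => (mb (m_ord 1 a b)).iff
      ((m_RR b a).not.or ((m_RR a b).and (m_LL b a).not))

/-- the reduct -/
def pI (F : Bool → Bool → Bool → Bool) (y : YO 1) : US a2 :=
  (fun i (v : Fin 2 → ℕ) => if i = 0 then
    F (y.1.2.1 0 (v 0) (v 1)) (y.1.2.1 0 (v 1) (v 0)) (decide (v 0 = v 1)) else false, y.1.2.2)

theorem cont_rel (i : ℕ) (a b : ℕ) : Continuous fun y : YO 1 => y.1.2.1 i a b :=
  (continuous_apply b).comp ((continuous_apply a).comp ((continuous_apply i).comp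
    (continuous_fst.comp (continuous_snd.comp continuous_fst))))

theorem cont_pI (F : Bool → Bool → Bool → Bool) : Continuous (pI F) := by
  refine Continuous.prodMk ?_ (continuous_snd.comp (continuous_snd.comp continuous_fst))
  refine continuous_pi fun i => continuous_pi fun (v : Fin 2 → ℕ) => ?_
  by_cases h : i = 0
  · have e : (fun y : YO 1 => (if i = 0 then
        F (y.1.2.1 0 (v 0) (v 1)) (y.1.2.1 0 (v 1) (v 0)) (decide (v 0 = v 1)) else false)) =
        (fun p : Bool × Bool => F p.1 p.2 (decide (v 0 = v 1))) ∘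
        fun y : YO 1 => (y.1.2.1 0 (v 0) (v 1), y.1.2.1 0 (v 1) (v 0)) := by
      funext y
      rw [if_pos h]
      rfl
    show Continuous fun y : YO 1 => (if i = 0 then
        F (y.1.2.1 0 (v 0) (v 1)) (y.1.2.1 0 (v 1) (v 0)) (decide (v 0 = v 1)) else false)
    rw [e]
    exact continuous_of_discreteTopology.comp ((cont_rel 0 _ _).prodMk (cont_rel 0 _ _))
  · have e : (fun y : YO 1 => (if i = 0 then
        F (y.1.2.1 0 (v 0) (v 1)) (y.1.2.1 0 (v 1) (v 0)) (decide (v 0 = v 1)) else false)) =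
        fun _ => false := by
      funext y
      rw [if_neg h]
    show Continuous fun y : YO 1 => (if i = 0 then
        F (y.1.2.1 0 (v 0) (v 1)) (y.1.2.1 0 (v 1) (v 0)) (decide (v 0 = v 1)) else false)
    rw [e]
    exact continuous_const

theorem eq_pI (F : Bool → Bool → Bool → Bool) (σ : Equiv.Perm ℕ) (y y' : YO 1) (h : IY σ y y') :
    UI σ (pI F y) (pI F y') := by
  refine ⟨fun i (v : Fin 2 → ℕ) => ?_, h.1.2.2⟩
  show (if i = 0 then F (y'.1.2.1 0 (σ (v 0)) (σ (v 1))) (y'.1.2.1 0 (σ (v 1)) (σ (v 0)))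
      (decide (σ (v 0) = σ (v 1))) else false) =
    (if i = 0 then F (y.1.2.1 0 (v 0) (v 1)) (y.1.2.1 0 (v 1) (v 0)) (decide (v 0 = v 1))
      else false)
  rw [h.1.2.1, h.1.2.1]
  simp only [σ.injective.eq_iff]

theorem count_pI (F : Bool → Bool → Bool → Bool) (x : US a2)
    (hc : {P : ℕ → ℕ → Bool | IO P ∧ ∀ a b, x.1 0 ![a, b] =
      F (P a b) (P b a) (decide (a = b))}.Countable) :
    {y : YO 1 | (Gd y ∧ KI y) ∧ pI F y = x}.Countable := by
  refine (hc.biUnion fun P _ => (count_w ((fo P, Ro P, x.2) : XO 1)).image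
    fun w => (((fo P, Ro P, x.2), w) : YO 1)).mono ?_
  rintro ⟨⟨f, r, u⟩, w⟩ ⟨⟨h1, h3⟩, h2⟩
  have hu : u = x.2 := congrArg Prod.snd h2
  subst hu
  have hr : r = Ro (r 0) := by
    funext j a b
    show _ = if j = 0 then r 0 a b else false
    by_cases hj : j = 0
    · rw [if_pos hj, hj]
    · rw [if_neg hj]
      exact h3.rel j hj a b
  have hf : f = fo (r 0) := by
    funext i a b
    rw [Bool.eq_iff_iff]
    match i with
    | 0 => exact (h3.o0 a b).trans (fo0 a b).symm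
    | 1 => exact (h3.o1 a b).trans (fo1 a b).symm
  refine mem_iUnion₂.2 ⟨r 0, ⟨h3.io, fun a b => ?_⟩, w, ?_, ?_⟩
  · have h4 := congrFun (congrFun (congrArg Prod.fst h2) 0) (![a, b] : Fin 2 → ℕ)
    exact h4.symm
  · show Gd (((fo (r 0), Ro (r 0), x.2), w) : YO 1)
    rw [← hr, ← hf]
    exact h1
  · show (((fo (r 0), Ro (r 0), x.2), w) : YO 1) = ((f, r, x.2), w)
    rw [← hr, ← hf]

/-- the families -/
def famI (F : Bool → Bool → Bool → Bool) (hc : ∀ x : US a2, Pm2 x.1 →
    {P : ℕ → ℕ → Bool | IO P ∧ ∀ a b, x.1 0 ![a, b] =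
      F (P a b) (P b a) (decide (a = b))}.Countable) : Fam a2 Pm2 :=
  famL (pI F) (cont_pI F) (eq_pI F) KI m_KI ki_iso fun x hx => count_pI F x (hc x hx)

theorem ex_pI (F : Bool → Bool → Bool → Bool) (hc : ∀ x : US a2, Pm2 x.1 →
    {P : ℕ → ℕ → Bool | IO P ∧ ∀ a b, x.1 0 ![a, b] =
      F (P a b) (P b a) (decide (a = b))}.Countable) (x : RS a2)
    (h0 : ∀ i, i ≠ 0 → ∀ v, x i v = false) (hx : Pm2 x) (hP : IO P)
    (hPx : ∀ a b, x 0 ![a, b] = F (P a b) (P b a) (decide (a = b))) (hC : CvI P)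
    (u : ℕ → ℕ → Bool) : ∃ y, (famI F hc).G y ∧ (famI F hc).pr y = (x, u) := by
  have hp : PrB fun a b => P a b = true := by
    intro M hM
    refine hx M ?_
    have key : ∀ x, x ∉ M → ∀ y ∈ M, ∀ z ∈ M, P x y = P x z ∧ P y x = P z x := by
      intro x hx y hy z hz
      have h1 := hM x hx y hy z hz
      have h2 := hM x hx z hz y hy
      exact ⟨Bool.eq_iff_iff.2 ⟨h1.1, h2.1⟩, Bool.eq_iff_iff.2 ⟨h1.2, h2.2⟩⟩
    intro v hv y hy z hz
    obtain ⟨k1, k2⟩ := key v hv y hy z hz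
    have n1 : v ≠ y := fun e => hv (e ▸ hy)
    have n2 : v ≠ z := fun e => hv (e ▸ hz)
    unfold Ed
    rw [hPx, hPx, hPx, hPx, k1, k2, decide_eq_false n1, decide_eq_false n2,
      decide_eq_false n1.symm, decide_eq_false n2.symm]
    exact ⟨id, id⟩
  obtain ⟨w, hw⟩ := gd_of_cov (los_io hP hp u) (cov_io hP hp hC u)
  refine ⟨((fo P, Ro P, u), w), ⟨hw, ⟨?_, ?_, ?_, ?_⟩⟩, ?_⟩
  · have e : Ro P 0 = P := by
      funext a b
      exact ro0 a b
    show IO (Ro P 0)
    rw [e]
    exact hP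
  · intro j hj a b
    exact if_neg hj
  · have e : Ro P 0 = P := by
      funext a b
      exact ro0 a b
    intro a b
    show fo P 0 a b = true ↔ lo (Ro P 0) a b
    rw [e]
    exact fo0 a b
  · have e : Ro P 0 = P := by
      funext a b
      exact ro0 a b
    intro a b
    show fo P 1 a b = true ↔ ro (Ro P 0) a b
    rw [e]
    exact fo1 a b
  · refine Prod.ext ?_ rfl
    funext i
    by_cases hi : i = 0
    · subst hi
      funext (v : Fin 2 → ℕ)
      show (if (0 : ℕ) = 0 then F (Ro P 0 (v 0) (v 1)) (Ro P 0 (v 1) (v 0))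
        (decide (v 0 = v 1)) else false) = x 0 v
      have hv : v = ![v 0, v 1] := by
        funext j
        match j with
        | 0 => rfl
        | 1 => rfl
      rw [if_pos rfl, ro0, ro0, ← hPx, ← hv]
    · funext v
      show (if i = 0 then F (Ro P 0 (v 0) (v 1)) (Ro P 0 (v 1) (v 0))
        (decide (v 0 = v 1)) else false) = x i v
      rw [h0 i hi v, if_neg hi]

end Pool.Agent.Y558.EC
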