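import Pool.Agent.Y558.EC.Via

set_option autoImplicit false

/-!
# Finitely many linear orders which agree or are opposite on the members of a finite partition
-/

namespace Pool.Agent.Y558.EC

open Set MeasureTheory
open Pool.Agent.Y558.MC (XS SO IsoS outS)

variable {n : ℕ}

/-- `n + 1` orders, binary relations and unary predicates -/
abbrev XO (n : ℕ) : Type :=
  (Fin (n + 1) → ℕ → ℕ → Bool) × (ℕ → ℕ → ℕ → Bool) × (ℕ → ℕ → Bool)

/-- sign vectors -/
abbrev SV (n : ℕ) : Type := Fin (n + 1) → Bool

/-- expansions by a function to the sign vectors -/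
abbrev YO (n : ℕ) : Type := XO n × (ℕ → SV n)

def IX (σ : Equiv.Perm ℕ) (x y : XO n) : Prop :=
  (∀ i a b, y.1 i (σ a) (σ b) = x.1 i a b) ∧ (∀ i a b, y.2.1 i (σ a) (σ b) = x.2.1 i a b) ∧
    ∀ j a, y.2.2 j (σ a) = x.2.2 j a

def IY (σ : Equiv.Perm ℕ) (x y : YO n) : Prop := IX σ x.1 y.1 ∧ ∀ a, y.2 (σ a) = x.2 a

/-- in the first argument the relation `j` is monotone or antitone for the order `i` -/
def M1 (x : XO n) (j : ℕ) (i : Fin (n + 1)) (e : Bool) : Prop :=
  ∀ a a' b, x.1 i a a' = true → (e = true → x.2.1 j a b = true → x.2.1 j a' b = true) ∧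
    (e = false → x.2.1 j a' b = true → x.2.1 j a b = true)

/-- the same for the second argument -/
def M2 (x : XO n) (j : ℕ) (i : Fin (n + 1)) (e : Bool) : Prop :=
  ∀ a b b', x.1 i b b' = true → (e = true → x.2.1 j a b = true → x.2.1 j a b' = true) ∧
    (e = false → x.2.1 j a b' = true → x.2.1 j a b = true)

structure LOs (x : XO n) : Prop where
  irr : ∀ i a, x.1 i a a = false
  tr : ∀ i a b c, x.1 i a b = true → x.1 i b c = true → x.1 i a c = true
  tot : ∀ i a b, a = b ∨ x.1 i a b = true ∨ x.1 i b a = true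
  fst : ∀ j, ∃ i e, M1 x j i e
  snd : ∀ j, ∃ i e, M2 x j i e

/-- `a` is below `b` and the order `i` does not relate them as the sign `e` says -/
def Dg (x : XO n) (i : Fin (n + 1)) (e : Bool) (a b : ℕ) : Prop :=
  x.1 0 a b = true ∧ x.1 i b a = e

/-- there is a chain of length `k` ending in `b` -/
def H (y : YO n) (i : Fin (n + 1)) : ℕ → ℕ → Prop
  | 0, _ => True
  | k + 1, b => ∃ a, y.2 a = y.2 b ∧ Dg y.1 i (y.2 b i) a b ∧ H y i k a

def Gd (y : YO n) : Prop := LOs y.1 ∧ ∃ s, ∀ i b, ¬ H y i s b

theorem H_step (y : YO n) (i : Fin (n + 1)) : ∀ k b, H y i (k + 1) b → H y i k b := by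
  intro k
  induction k with
  | zero => exact fun b _ => trivial
  | succ k ih =>
    rintro b ⟨a, h1, h2, h3⟩
    exact ⟨a, h1, h2, ih a h3⟩

theorem H_mono (y : YO n) (i : Fin (n + 1)) {k l : ℕ} (h : k ≤ l) (b : ℕ) (hb : H y i l b) :
    H y i k b := by
  induction h with
  | refl => exact hb
  | step h ih => exact ih (H_step _ _ _ _ hb)

/-- the height -/
def Ht (y : YO n) (i : Fin (n + 1)) (k b : ℕ) : Prop := H y i k b ∧ ¬ H y i (k + 1) b

theorem ht_unique (y : YO n) (i : Fin (n + 1)) {k l b : ℕ} (h : Ht y i k b) (h' : Ht y i l b) :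
    k = l := by
  rcases lt_trichotomy k l with h1 | h1 | h1
  · exact absurd (H_mono y i h1 b h'.1) h.2
  · exact h1
  · exact absurd (H_mono y i h1 b h.1) h'.2

theorem ht_exists {y : YO n} (h : Gd y) (i : Fin (n + 1)) (b : ℕ) : ∃ k, Ht y i k b := by
  classical
  obtain ⟨s, hs⟩ := h.2
  have h1 : ∃ k, ¬ H y i k b := ⟨s, hs i b⟩
  obtain ⟨k, hk⟩ : ∃ k, Nat.find h1 = k + 1 := by
    rcases hf : Nat.find h1 with _ | k
    · have := Nat.find_spec h1
      rw [hf] at this
      exact absurd trivial this
    · exact ⟨k, rfl⟩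
  refine ⟨k, ?_, ?_⟩
  · by_contra h2
    have := Nat.find_min' h1 h2
    omega
  · rw [← hk]
    exact Nat.find_spec h1

theorem ht_same {y : YO n} {i : Fin (n + 1)} {k a b : ℕ} (ha : Ht y i k a)
    (hb : Ht y i k b) (hw : y.2 a = y.2 b) (hab : y.1.1 0 a b = true) :
    y.1.1 i b a = !(y.2 b i) := by
  by_contra h
  have h1 : y.1.1 i b a = y.2 b i := by
    revert h
    cases y.1.1 i b a <;> cases y.2 b i <;> simp
  exact hb.2 ⟨a, hw, ⟨hab, h1⟩, ha.1⟩

theorem H_iso {σ : Equiv.Perm ℕ} {y y' : YO n} (h : IY σ y y') (i : Fin (n + 1)) :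
    ∀ k b, H y' i k (σ b) ↔ H y i k b := by
  intro k
  induction k with
  | zero => exact fun b => Iff.rfl
  | succ k ih =>
    intro b
    constructor
    · rintro ⟨a, h1, h2, h3⟩
      obtain ⟨a, rfl⟩ := σ.surjective a
      refine ⟨a, ?_, ?_, (ih a).1 h3⟩
      · rw [← h.2 a, ← h.2 b, h1]
      · refine ⟨?_, ?_⟩
        · rw [← h.1.1]; exact h2.1
        · rw [← h.1.1, ← h.2 b]; exact h2.2
    · rintro ⟨a, h1, h2, h3⟩
      refine ⟨σ a, ?_, ?_, (ih a).2 h3⟩
      · rw [h.2, h.2, h1]
      · refine ⟨?_, ?_⟩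
        · rw [h.1.1]; exact h2.1
        · rw [h.1.1, h.2]; exact h2.2

theorem los_iso {σ : Equiv.Perm ℕ} {x x' : XO n} (h : IX σ x x') (hL : LOs x) : LOs x' := by
  refine ⟨fun i a => ?_, fun i a b c => ?_, fun i a b => ?_, fun j => ?_, fun j => ?_⟩
  · obtain ⟨a, rfl⟩ := σ.surjective a
    rw [h.1]; exact hL.irr i a
  · obtain ⟨a, rfl⟩ := σ.surjective a
    obtain ⟨b, rfl⟩ := σ.surjective b
    obtain ⟨c, rfl⟩ := σ.surjective c
    rw [h.1, h.1, h.1]; exact hL.tr i a b c
  · obtain ⟨a, rfl⟩ := σ.surjective a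
    obtain ⟨b, rfl⟩ := σ.surjective b
    rw [h.1, h.1, σ.injective.eq_iff]; exact hL.tot i a b
  · obtain ⟨i, e, he⟩ := hL.fst j
    refine ⟨i, e, fun a a' b hab => ?_⟩
    obtain ⟨a, rfl⟩ := σ.surjective a
    obtain ⟨a', rfl⟩ := σ.surjective a'
    obtain ⟨b, rfl⟩ := σ.surjective b
    rw [h.1] at hab
    rw [h.2.1, h.2.1]
    exact he a a' b hab
  · obtain ⟨i, e, he⟩ := hL.snd j
    refine ⟨i, e, fun a b b' hab => ?_⟩
    obtain ⟨a, rfl⟩ := σ.surjective a
    obtain ⟨b, rfl⟩ := σ.surjective b
    obtain ⟨b', rfl⟩ := σ.surjective b'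
    rw [h.1] at hab
    rw [h.2.1, h.2.1]
    exact he a b b' hab

theorem gd_iso {σ : Equiv.Perm ℕ} {y y' : YO n} (h : IY σ y y') (hG : Gd y) : Gd y' := by
  refine ⟨los_iso h.1 hG.1, ?_⟩
  obtain ⟨s, hs⟩ := hG.2
  refine ⟨s, fun i b => ?_⟩
  obtain ⟨b, rfl⟩ := σ.surjective b
  rw [H_iso h]
  exact hs i b

/-! ### The coding -/

theorem exists_enum (n : ℕ) : ∃ e : ℕ → SV n × (Fin (n + 1) → ℕ), Function.Surjective e :=
  exists_surjective_nat _

noncomputable def en (n : ℕ) : ℕ → SV n × (Fin (n + 1) → ℕ) := (exists_enum n).choose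

theorem en_surj (n : ℕ) : Function.Surjective (en n) := (exists_enum n).choose_spec

/-- the part number `p` -/
def Pt (y : YO n) (p m : ℕ) : Prop :=
  y.2 m = (en n p).1 ∧ ∀ i, Ht y i ((en n p).2 i) m

open Classical in
/-- the code -/
noncomputable def Ps (y : YO n) : XS :=
  (fun i a b => if h : i < n + 1 then y.1.1 ⟨i, h⟩ a b else y.1.2.1 (i - (n + 1)) a b,
    fun p m => decide (Pt y p m),
    fun j m => if j % 2 = 0 then y.1.2.2 (j / 2) m else
      if h : j / 2 < n + 1 then y.2 m ⟨j / 2, h⟩ else false)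

/-- decoding -/
def De (x : XS) : YO n :=
  ((fun i a b => x.1 i.val a b, fun j a b => x.1 (n + 1 + j) a b, fun j a => x.2.2 (2 * j) a),
    fun a i => x.2.2 (2 * i.val + 1) a)

theorem de_ps (y : YO n) : De (Ps y) = y := by
  refine Prod.ext (Prod.ext ?_ (Prod.ext ?_ ?_)) ?_
  · funext i a b
    show (if h : i.val < n + 1 then y.1.1 ⟨i.val, h⟩ a b else _) = _
    rw [dif_pos i.isLt]
  · funext j a b
    show (if h : n + 1 + j < n + 1 then y.1.1 ⟨n + 1 + j, h⟩ a b else
      y.1.2.1 (n + 1 + j - (n + 1)) a b) = _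
    have e : n + 1 + j - (n + 1) = j := by omega
    rw [dif_neg (by omega), e]
  · funext j a
    show (if (2 * j) % 2 = 0 then y.1.2.2 ((2 * j) / 2) a else _) = _
    have e : (2 * j) / 2 = j := by omega
    rw [if_pos (by omega), e]
  · funext a i
    show (if (2 * i.val + 1) % 2 = 0 then y.1.2.2 ((2 * i.val + 1) / 2) a else
      if h : (2 * i.val + 1) / 2 < n + 1 then y.2 a ⟨(2 * i.val + 1) / 2, h⟩ else false) = _
    rw [if_neg (by omega), dif_pos (by have := i.isLt; omega)]
    exact congrArg (y.2 a) (Fin.ext (by show (2 * i.val + 1) / 2 = i.val; omega))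

theorem cont_de : Continuous (De : XS → YO n) := by
  refine Continuous.prodMk (Continuous.prodMk ?_ (Continuous.prodMk ?_ ?_)) ?_
  · refine continuous_pi fun i => continuous_pi fun a => continuous_pi fun b => ?_
    exact (continuous_apply b).comp ((continuous_apply a).comp ((continuous_apply i.val).comp
      continuous_fst))
  · refine continuous_pi fun i => continuous_pi fun a => continuous_pi fun b => ?_
    exact (continuous_apply b).comp ((continuous_apply a).comp ((continuous_apply (n + 1 + i)).comp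
      continuous_fst))
  · refine continuous_pi fun j => continuous_pi fun a => ?_
    exact (continuous_apply a).comp ((continuous_apply (2 * j)).comp
      (continuous_snd.comp continuous_snd))
  · refine continuous_pi fun a => continuous_pi fun i => ?_
    exact (continuous_apply a).comp ((continuous_apply (2 * i.val + 1)).comp
      (continuous_snd.comp continuous_snd))

theorem pt_iso {σ : Equiv.Perm ℕ} {y y' : YO n} (h : IY σ y y') (p m : ℕ) :
    Pt y' p (σ m) ↔ Pt y p m := by
  unfold Pt Ht
  simp only [H_iso h, h.2]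

theorem ps_iso (σ : Equiv.Perm ℕ) (y y' : YO n) (h : IY σ y y') : IsoS σ (Ps y) (Ps y') := by
  classical
  refine ⟨fun i a b => ?_, fun p m => ?_, fun j m => ?_⟩
  · show (if h : i < n + 1 then y'.1.1 ⟨i, h⟩ (σ a) (σ b) else
        y'.1.2.1 (i - (n + 1)) (σ a) (σ b)) =
      (if h : i < n + 1 then y.1.1 ⟨i, h⟩ a b else y.1.2.1 (i - (n + 1)) a b)
    simp only [h.1.1, h.1.2.1]
  · show decide (Pt y' p (σ m)) = decide (Pt y p m)
    rw [decide_eq_decide]
    exact pt_iso h p m
  · show (if j % 2 = 0 then y'.1.2.2 (j / 2) (σ m) else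
      if h : j / 2 < n + 1 then y'.2 (σ m) ⟨j / 2, h⟩ else false) =
      (if j % 2 = 0 then y.1.2.2 (j / 2) m else
      if h : j / 2 < n + 1 then y.2 m ⟨j / 2, h⟩ else false)
    simp only [h.1.2.2, h.2]

/-- transport -/
def trY (σ : Equiv.Perm ℕ) (y : YO n) : YO n :=
  ((fun i a b => y.1.1 i (σ.symm a) (σ.symm b), fun i a b => y.1.2.1 i (σ.symm a) (σ.symm b),
    fun j a => y.1.2.2 j (σ.symm a)), fun a => y.2 (σ.symm a))

theorem iy_tr (σ : Equiv.Perm ℕ) (y : YO n) : IY σ y (trY σ y) := by
  refine ⟨⟨fun i a b => ?_, fun i a b => ?_, fun j a => ?_⟩, fun a => ?_⟩ <;> simp [trY]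

theorem so_ps {y : YO n} (h : Gd y) : SO (Ps y) := by
  classical
  have hL := h.1
  have r0 : ∀ a b, (Ps y).1 0 a b = y.1.1 0 a b := fun a b => by
    show (if h : 0 < n + 1 then y.1.1 ⟨0, h⟩ a b else y.1.2.1 (0 - (n + 1)) a b) = _
    rw [dif_pos (Nat.succ_pos n)]
    rfl
  have ri : ∀ i (h : i < n + 1) a b, (Ps y).1 i a b = y.1.1 ⟨i, h⟩ a b := fun i h a b => by
    show (if h : i < n + 1 then y.1.1 ⟨i, h⟩ a b else y.1.2.1 (i - (n + 1)) a b) = _
    rw [dif_pos h]
  have rj : ∀ i (h : ¬ i < n + 1) a b, (Ps y).1 i a b = y.1.2.1 (i - (n + 1)) a b :=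
    fun i h a b => by
      show (if h : i < n + 1 then y.1.1 ⟨i, h⟩ a b else y.1.2.1 (i - (n + 1)) a b) = _
      rw [dif_neg h]
  have rp : ∀ p m, (Ps y).2.1 p m = true ↔ Pt y p m := fun p m => decide_eq_true_iff
  -- inside one part the order `i` agrees with the sign
  have key : ∀ p (i : Fin (n + 1)) a b, Pt y p a → Pt y p b → y.1.1 0 a b = true →
      y.1.1 i b a = !((en n p).1 i) := by
    intro p i a b ha hb hab
    have := ht_same (ha.2 i) (hb.2 i) (ha.1.trans hb.1.symm) hab
    rw [hb.1] at this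
    exact this
  have key2 : ∀ p (i : Fin (n + 1)) a b, Pt y p a → Pt y p b → y.1.1 0 a b = true →
      ((en n p).1 i = true → y.1.1 i a b = true) ∧ ((en n p).1 i = false → y.1.1 i b a = true) := by
    intro p i a b ha hb hab
    have h1 := key p i a b ha hb hab
    constructor
    · intro he
      rw [he] at h1
      rcases hL.tot i a b with h2 | h2 | h2
      · rw [h2, hL.irr] at hab
        exact absurd hab (by decide)
      · exact h2
      · rw [h2] at h1
        exact absurd h1 (by decide)
    · intro he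
      rw [he] at h1
      exact h1
  refine ⟨fun m => ?_, fun m => ?_, fun p m k l _ _ _ h1 h2 => ?_, fun p m k _ _ => ?_,
    fun i p q => ?_, fun i p q => ?_⟩
  · choose f hf using fun i => ht_exists h i m
    obtain ⟨p, hp⟩ := en_surj n (y.2 m, f)
    refine ⟨p, (rp p m).2 ⟨?_, fun i => ?_⟩⟩
    · rw [hp]
    · rw [hp]
      exact hf i
  · rw [r0]
    exact hL.irr 0 m
  · rw [r0] at h1 h2 ⊢
    exact hL.tr 0 m k l h1 h2
  · rw [r0, r0]
    exact hL.tot 0 m k
  · by_cases hi : i < n + 1
    · rcases he : (en n p).1 ⟨i, hi⟩ with _ | _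
      · left
        intro m m' k hm hm' _ hlt hR
        rw [rp] at hm hm'
        rw [r0] at hlt
        rw [ri i hi] at hR ⊢
        exact hL.tr _ _ _ _ ((key2 p ⟨i, hi⟩ m m' hm hm' hlt).2 he) hR
      · right
        intro m m' k hm hm' _ hlt hR
        rw [rp] at hm hm'
        rw [r0] at hlt
        rw [ri i hi] at hR ⊢
        exact hL.tr _ _ _ _ ((key2 p ⟨i, hi⟩ m' m hm' hm hlt).1 he) hR
    · obtain ⟨i', e, he⟩ := hL.fst (i - (n + 1))
      rcases hs : (en n p).1 i' with _ | _
      · rcases e with _ | _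
        · left
          intro m m' k hm hm' _ hlt hR
          rw [rp] at hm hm'
          rw [r0] at hlt
          rw [rj i hi] at hR ⊢
          exact (he _ _ _ ((key2 p i' m m' hm hm' hlt).2 hs)).2 rfl hR
        · right
          intro m m' k hm hm' _ hlt hR
          rw [rp] at hm hm'
          rw [r0] at hlt
          rw [rj i hi] at hR ⊢
          exact (he _ _ _ ((key2 p i' m' m hm' hm hlt).2 hs)).1 rfl hR
      · rcases e with _ | _
        · right
          intro m m' k hm hm' _ hlt hR
          rw [rp] at hm hm'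
          rw [r0] at hlt
          rw [rj i hi] at hR ⊢
          exact (he _ _ _ ((key2 p i' m' m hm' hm hlt).1 hs)).2 rfl hR
        · left
          intro m m' k hm hm' _ hlt hR
          rw [rp] at hm hm'
          rw [r0] at hlt
          rw [rj i hi] at hR ⊢
          exact (he _ _ _ ((key2 p i' m m' hm hm' hlt).1 hs)).1 rfl hR
  · by_cases hi : i < n + 1
    · rcases he : (en n q).1 ⟨i, hi⟩ with _ | _
      · right
        intro m k k' _ hk hk' hlt hR
        rw [rp] at hk hk'
        rw [r0] at hlt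
        rw [ri i hi] at hR ⊢
        exact hL.tr _ _ _ _ hR ((key2 q ⟨i, hi⟩ k' k hk' hk hlt).2 he)
      · left
        intro m k k' _ hk hk' hlt hR
        rw [rp] at hk hk'
        rw [r0] at hlt
        rw [ri i hi] at hR ⊢
        exact hL.tr _ _ _ _ hR ((key2 q ⟨i, hi⟩ k k' hk hk' hlt).1 he)
    · obtain ⟨i', e, he⟩ := hL.snd (i - (n + 1))
      rcases hs : (en n q).1 i' with _ | _
      · rcases e with _ | _
        · left
          intro m k k' _ hk hk' hlt hR
          rw [rp] at hk hk'
          rw [r0] at hlt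
          rw [rj i hi] at hR ⊢
          exact (he _ _ _ ((key2 q i' k k' hk hk' hlt).2 hs)).2 rfl hR
        · right
          intro m k k' _ hk hk' hlt hR
          rw [rp] at hk hk'
          rw [r0] at hlt
          rw [rj i hi] at hR ⊢
          exact (he _ _ _ ((key2 q i' k' k hk' hk hlt).2 hs)).1 rfl hR
      · rcases e with _ | _
        · right
          intro m k k' _ hk hk' hlt hR
          rw [rp] at hk hk'
          rw [r0] at hlt
          rw [rj i hi] at hR ⊢
          exact (he _ _ _ ((key2 q i' k' k hk' hk hlt).1 hs)).2 rfl hR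
        · left
          intro m k k' _ hk hk' hlt hR
          rw [rp] at hk hk'
          rw [r0] at hlt
          rw [rj i hi] at hR ⊢
          exact (he _ _ _ ((key2 q i' k k' hk hk' hlt).1 hs)).1 rfl hR

/-! ### Measurability -/

theorem mb {W : Type} [MeasurableSpace W] {f : W → Bool} (hf : Measurable f) :
    Measurable (fun w => f w = true) :=
  measurableSet_setOfPred.1 (hf (measurableSet_singleton true))

theorem meq {W : Type} [MeasurableSpace W] {f g : W → Bool} (hf : Measurable f)
    (hg : Measurable g) : Measurable (fun w => f w = g w) := by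
  have e : (fun w => f w = g w) = fun w => (f w = true ↔ g w = true) :=
    funext fun w => propext Bool.eq_iff_iff
  rw [e]
  exact (mb hf).iff (mb hg)

open Classical in
theorem mdec {W : Type} [MeasurableSpace W] {P : W → Prop} (h : Measurable P) :
    Measurable fun w => decide (P w) := by
  refine measurable_to_bool ?_
  have e : (fun w => decide (P w)) ⁻¹' {true} = {w | P w} := by
    ext w
    simp
  rw [e]
  exact measurableSet_setOfPred.2 h

theorem m_ord (i : Fin (n + 1)) (a b : ℕ) : Measurable fun y : YO n => y.1.1 i a b :=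
  (measurable_pi_apply b).comp ((measurable_pi_apply a).comp ((measurable_pi_apply i).comp
    (measurable_fst.comp measurable_fst)))

theorem m_rel (i : ℕ) (a b : ℕ) : Measurable fun y : YO n => y.1.2.1 i a b :=
  (measurable_pi_apply b).comp ((measurable_pi_apply a).comp ((measurable_pi_apply i).comp
    (measurable_fst.comp (measurable_snd.comp measurable_fst))))

theorem m_sg (a : ℕ) (i : Fin (n + 1)) : Measurable fun y : YO n => y.2 a i :=
  (measurable_pi_apply i).comp ((measurable_pi_apply a).comp measurable_snd)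

theorem m_H (i : Fin (n + 1)) : ∀ k b, Measurable fun y : YO n => H y i k b := by
  intro k
  induction k with
  | zero => exact fun b => measurable_const
  | succ k ih =>
    intro b
    refine Measurable.exists fun a => Measurable.and ?_ (Measurable.and ?_ (ih a))
    · have e : (fun y : YO n => y.2 a = y.2 b) = fun y => ∀ i, y.2 a i = y.2 b i :=
        funext fun y => propext funext_iff
      rw [e]
      exact Measurable.forall fun i => meq (m_sg a i) (m_sg b i)
    · exact (mb (m_ord 0 a b)).and (meq (m_ord i b a) (m_sg b i))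

theorem m_Pt (p m : ℕ) : Measurable fun y : YO n => Pt y p m := by
  refine Measurable.and ?_ (Measurable.forall fun i => (m_H i _ m).and (m_H i _ m).not)
  have e : (fun y : YO n => y.2 m = (en n p).1) = fun y => ∀ i, y.2 m i = (en n p).1 i :=
    funext fun y => propext funext_iff
  rw [e]
  exact Measurable.forall fun i => meq (m_sg m i) measurable_const

theorem m_Ps : Measurable (Ps : YO n → XS) := by
  refine Measurable.prodMk ?_ (Measurable.prodMk ?_ ?_)
  · refine measurable_pi_iff.2 fun i => measurable_pi_iff.2 fun a => measurable_pi_iff.2 fun b => ?_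
    by_cases h : i < n + 1
    · simp only [dif_pos h]
      exact m_ord _ a b
    · simp only [dif_neg h]
      exact m_rel _ a b
  · exact measurable_pi_iff.2 fun p => measurable_pi_iff.2 fun m => mdec (m_Pt p m)
  · refine measurable_pi_iff.2 fun j => measurable_pi_iff.2 fun m => ?_
    by_cases h : j % 2 = 0
    · simp only [if_pos h]
      exact (measurable_pi_apply m).comp ((measurable_pi_apply _).comp
        (measurable_snd.comp (measurable_snd.comp measurable_fst)))
    · simp only [if_neg h]
      by_cases h' : j / 2 < n + 1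
      · simp only [dif_pos h']
        exact m_sg m _
      · simp only [dif_neg h']
        exact measurable_const

theorem m_M1 (j : ℕ) (i : Fin (n + 1)) (e : Bool) : Measurable fun y : YO n => M1 y.1 j i e := by
  unfold M1
  exact Measurable.forall fun a => Measurable.forall fun a' => Measurable.forall fun b =>
    (mb (m_ord i a a')).imp ((measurable_const.imp ((mb (m_rel j a b)).imp (mb (m_rel j a' b)))).and
      (measurable_const.imp ((mb (m_rel j a' b)).imp (mb (m_rel j a b)))))

theorem m_M2 (j : ℕ) (i : Fin (n + 1)) (e : Bool) : Measurable fun y : YO n => M2 y.1 j i e := by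
  unfold M2
  exact Measurable.forall fun a => Measurable.forall fun b => Measurable.forall fun b' =>
    (mb (m_ord i b b')).imp ((measurable_const.imp ((mb (m_rel j a b)).imp (mb (m_rel j a b')))).and
      (measurable_const.imp ((mb (m_rel j a b')).imp (mb (m_rel j a b)))))

theorem m_LOs : Measurable fun y : YO n => LOs y.1 := by
  have e : (fun y : YO n => LOs y.1) = fun y => (∀ i a, y.1.1 i a a = false) ∧
      (∀ i a b c, y.1.1 i a b = true → y.1.1 i b c = true → y.1.1 i a c = true) ∧
      (∀ i a b, a = b ∨ y.1.1 i a b = true ∨ y.1.1 i b a = true) ∧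
      (∀ j, ∃ i e, M1 y.1 j i e) ∧ (∀ j, ∃ i e, M2 y.1 j i e) := by
    funext y
    exact propext ⟨fun h => ⟨h.irr, h.tr, h.tot, h.fst, h.snd⟩,
      fun h => ⟨h.1, h.2.1, h.2.2.1, h.2.2.2.1, h.2.2.2.2⟩⟩
  rw [e]
  refine Measurable.and ?_ (Measurable.and ?_ (Measurable.and ?_
    (Measurable.and (Measurable.forall fun j => Measurable.exists fun i => Measurable.exists fun e =>
      m_M1 j i e) (Measurable.forall fun j => Measurable.exists fun i => Measurable.exists fun e =>
      m_M2 j i e))))
  · exact Measurable.forall fun i => Measurable.forall fun a => meq (m_ord i a a) measurable_const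
  · exact Measurable.forall fun i => Measurable.forall fun a => Measurable.forall fun b =>
      Measurable.forall fun c => (mb (m_ord i a b)).imp ((mb (m_ord i b c)).imp (mb (m_ord i a c)))
  · exact Measurable.forall fun i => Measurable.forall fun a => Measurable.forall fun b =>
      measurable_const.or ((mb (m_ord i a b)).or (mb (m_ord i b a)))

theorem m_Gd : Measurable fun y : YO n => Gd y :=
  m_LOs.and (Measurable.exists fun s => Measurable.forall fun i => Measurable.forall fun b =>
    (m_H i s b).not)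

theorem bsX : BorelSpace (XO n) := by
  have b0 : BorelSpace (ℕ → Bool) := Pi.borelSpace
  have b2 : BorelSpace (ℕ → ℕ → Bool) := Pi.borelSpace
  have b3 : BorelSpace (Fin (n + 1) → ℕ → ℕ → Bool) := Pi.borelSpace
  have b4 : BorelSpace (ℕ → ℕ → ℕ → Bool) := Pi.borelSpace
  have b5 : BorelSpace ((ℕ → ℕ → ℕ → Bool) × (ℕ → ℕ → Bool)) := Prod.borelSpace
  exact Prod.borelSpace

theorem bsY : BorelSpace (YO n) := by
  have b0 : BorelSpace (SV n) := Pi.borelSpace
  have b1 : BorelSpace (ℕ → SV n) := Pi.borelSpace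
  have b2 : BorelSpace (XO n) := bsX
  exact Prod.borelSpace

theorem cmY : TopologicalSpace.IsCompletelyMetrizableSpace (YO n) := by
  have b0 : TopologicalSpace.IsCompletelyMetrizableSpace (SV n) := inferInstance
  have b1 : TopologicalSpace.IsCompletelyMetrizableSpace (ℕ → SV n) := inferInstance
  have b2 : TopologicalSpace.IsCompletelyMetrizableSpace (XO n) := inferInstance
  infer_instance

/-- the dichotomy for good expansions -/
theorem dichY (B : Set (YO n)) (hB : MeasurableSet B)
    (hinv : ∀ y ∈ B, ∀ y' σ, IY σ y y' → y' ∈ B) (hG : ∀ y ∈ B, Gd y) :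
    (∃ f : ℕ → YO n, ∀ y ∈ B, ∃ n σ, IY σ (f n) y) ∨
    ∃ g : (ℕ → Bool) → YO n, Continuous g ∧ (∀ a, g a ∈ B) ∧ ∀ a b, (∃ σ, IY σ (g a) (g b)) →
      a = b := by
  have h1 := @bsY n
  have h2 := @cmY n
  have h3 : SecondCountableTopology (YO n) := inferInstance
  exact viaS IY Ps De m_Ps cont_de de_ps ps_iso (fun σ y => ⟨trY σ y, iy_tr σ y⟩) B hB hinv
    fun y hy => so_ps (hG y hy)

end Pool.Agent.Y558.EC
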