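import Pool.Agent.Y558.EC.Fam
import Pool.Agent.Y558.EC.Gal

set_option autoImplicit false

/-!
# Permutation graphs of finite cochromatic number
-/

namespace Pool.Agent.Y558.EC

open Set MeasureTheory
open Pool.Agent.H533R2.VO (RS)
open Pool.Agent.H533R2.VS (US UIso UDich VCu)

abbrev a2 : ℕ → ℕ := fun _ => 2

/-- the binary relation 0 -/
def Ed (x : RS a2) (u v : ℕ) : Prop := x 0 ![u, v] = true

/-- modules of a binary relation -/
def MdB (E : ℕ → ℕ → Prop) (M : Set ℕ) : Prop :=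
  ∀ x, x ∉ M → ∀ y ∈ M, ∀ z ∈ M, (E x y → E x z) ∧ (E y x → E z x)

def PrB (E : ℕ → ℕ → Prop) : Prop := ∀ M, MdB E M → M.Subsingleton ∨ M = univ

/-- relation 0 is prime -/
def Pm2 (x : RS a2) : Prop := PrB (Ed x)

theorem pri_of {E : ℕ → ℕ → Prop} (h : PrB E) (hs : ∀ a b, E a b → E b a) : Gal.Pri E := by
  intro M hM
  refine h M fun x hx y hy z hz => ⟨hM x hx y hy z hz, fun h1 => ?_⟩
  exact hs _ _ (hM x hx y hy z hz (hs _ _ h1))

/-- the inversions of two relations -/
def inver (y : YO 1) (a b : ℕ) : Bool :=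
  (y.1.1 0 a b && y.1.1 1 b a) || (y.1.1 0 b a && y.1.1 1 a b)

def gr (y : YO 1) : US a2 :=
  (fun i (v : Fin 2 → ℕ) => if i = 0 then inver y (v 0) (v 1) else false, y.1.2.2)

theorem cont_ev (i : Fin 2) (a b : ℕ) : Continuous fun y : YO 1 => y.1.1 i a b :=
  (continuous_apply b).comp ((continuous_apply a).comp ((continuous_apply i).comp
    (continuous_fst.comp continuous_fst)))

theorem cont_gr : Continuous gr := by
  refine Continuous.prodMk ?_ (continuous_snd.comp (continuous_snd.comp continuous_fst))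
  refine continuous_pi fun i => continuous_pi fun (v : Fin 2 → ℕ) => ?_
  by_cases h : i = 0
  · have e : (fun y : YO 1 => (if i = 0 then inver y (v 0) (v 1) else false)) =
        (fun p : (Bool × Bool) × (Bool × Bool) => (p.1.1 && p.1.2) || (p.2.1 && p.2.2)) ∘
        fun y : YO 1 => ((y.1.1 0 (v 0) (v 1), y.1.1 1 (v 1) (v 0)),
          (y.1.1 0 (v 1) (v 0), y.1.1 1 (v 0) (v 1))) := by
      funext y
      rw [if_pos h]
      rfl
    show Continuous fun y : YO 1 => (if i = 0 then inver y (v 0) (v 1) else false)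
    rw [e]
    refine continuous_of_discreteTopology.comp ?_
    exact ((cont_ev 0 _ _).prodMk (cont_ev 1 _ _)).prodMk ((cont_ev 0 _ _).prodMk (cont_ev 1 _ _))
  · have e : (fun y : YO 1 => (if i = 0 then inver y (v 0) (v 1) else false)) =
        fun _ => false := by
      funext y
      rw [if_neg h]
    show Continuous fun y : YO 1 => (if i = 0 then inver y (v 0) (v 1) else false)
    rw [e]
    exact continuous_const

theorem eq_gr (σ : Equiv.Perm ℕ) (y y' : YO 1) (h : IY σ y y') : UI σ (gr y) (gr y') := by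
  refine ⟨fun i (v : Fin 2 → ℕ) => ?_, h.1.2.2⟩
  show (if i = 0 then inver y' (σ (v 0)) (σ (v 1)) else false) =
    (if i = 0 then inver y (v 0) (v 1) else false)
  have e : inver y' (σ (v 0)) (σ (v 1)) = inver y (v 0) (v 1) := by
    unfold inver
    rw [h.1.1, h.1.1, h.1.1, h.1.1]
  rw [e]

theorem pri_compl {G : ℕ → ℕ → Prop} (h : Gal.Pri G) :
    Gal.Pri fun a b => a ≠ b ∧ ¬ G a b := by
  intro M hM
  refine h M ?_
  intro x hx y hy z hz h1
  by_contra h2
  have hxz : x ≠ z := fun e => hx (e ▸ hz)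
  exact (hM x hx z hz y hy ⟨hxz, h2⟩).2 h1

theorem ed_gr (y : YO 1) (a b : ℕ) : Ed (gr y).1 a b ↔
    (y.1.1 0 a b = true ∧ y.1.1 1 b a = true) ∨ (y.1.1 0 b a = true ∧ y.1.1 1 a b = true) := by
  show (if (0 : ℕ) = 0 then inver y a b else false) = true ↔ _
  rw [if_pos rfl]
  unfold inver
  simp only [Bool.or_eq_true, Bool.and_eq_true]

theorem to_p {y : YO 1} (h : LOs y.1) :
    Gal.TO (Ed (gr y).1) fun a b => y.1.1 0 a b = true ∧ y.1.1 1 b a = true := by
  refine ⟨fun a b => ed_gr y a b, ?_, ?_⟩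
  · rintro a b ⟨h1, -⟩ ⟨h2, -⟩
    rw [asym h h1] at h2
    exact absurd h2 (by decide)
  · rintro a b c ⟨h1, h2⟩ ⟨h3, h4⟩
    exact ⟨h.tr 0 a b c h1 h3, h.tr 1 c b a h4 h2⟩

theorem to_n {y : YO 1} (h : LOs y.1) :
    Gal.TO (fun a b => a ≠ b ∧ ¬ Ed (gr y).1 a b)
      fun a b => y.1.1 0 a b = true ∧ y.1.1 1 a b = true := by
  refine ⟨fun a b => ?_, ?_, ?_⟩
  · rw [ed_gr]
    constructor
    · rintro ⟨h1, h2⟩
      rcases h.tot 0 a b with h3 | h3 | h3
      · exact absurd h3 h1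
      · rcases h.tot 1 a b with h4 | h4 | h4
        · exact absurd h4 h1
        · exact Or.inl ⟨h3, h4⟩
        · exact absurd (Or.inl ⟨h3, h4⟩) h2
      · rcases h.tot 1 a b with h4 | h4 | h4
        · exact absurd h4 h1
        · exact absurd (Or.inr ⟨h3, h4⟩) h2
        · exact Or.inr ⟨h3, h4⟩
    · intro h1
      have hne : a ≠ b := by
        rintro rfl
        rcases h1 with ⟨h2, -⟩ | ⟨h2, -⟩ <;>
        · rw [h.irr] at h2
          exact absurd h2 (by decide)
      refine ⟨hne, ?_⟩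
      rcases h1 with ⟨h2, h3⟩ | ⟨h2, h3⟩
      · rw [h2, h3, asym h h2, asym h h3]
        simp
      · rw [h2, h3, asym h h2, asym h h3]
        simp
  · rintro a b ⟨h1, -⟩ ⟨h2, -⟩
    rw [asym h h1] at h2
    exact absurd h2 (by decide)
  · rintro a b c ⟨h1, h2⟩ ⟨h3, h4⟩
    exact ⟨h.tr 0 a b c h1 h3, h.tr 1 a b c h2 h4⟩

theorem rec_0 {y : YO 1} (h : LOs y.1) (a b : ℕ) : y.1.1 0 a b = true ↔
    (y.1.1 0 a b = true ∧ y.1.1 1 b a = true) ∨ (y.1.1 0 a b = true ∧ y.1.1 1 a b = true) := by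
  constructor
  · intro h1
    rcases h.tot 1 a b with h4 | h4 | h4
    · rw [h4, h.irr] at h1
      exact absurd h1 (by decide)
    · exact Or.inr ⟨h1, h4⟩
    · exact Or.inl ⟨h1, h4⟩
  · rintro (h1 | h1)
    · exact h1.1
    · exact h1.1

theorem rec_1 {y : YO 1} (h : LOs y.1) (a b : ℕ) : y.1.1 1 a b = true ↔
    (y.1.1 0 b a = true ∧ y.1.1 1 a b = true) ∨ (y.1.1 0 a b = true ∧ y.1.1 1 a b = true) := by
  constructor
  · intro h1
    rcases h.tot 0 a b with h4 | h4 | h4
    · rw [h4, h.irr] at h1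
      exact absurd h1 (by decide)
    · exact Or.inr ⟨h4, h1⟩
    · exact Or.inl ⟨h4, h1⟩
  · rintro (h1 | h1)
    · exact h1.2
    · exact h1.2

/-- no further relations -/
def NR (y : YO 1) : Prop := y.1.2.1 = fun _ _ _ => false

theorem ed_symm (y : YO 1) (a b : ℕ) (h : Ed (gr y).1 a b) : Ed (gr y).1 b a := by
  rw [ed_gr] at h ⊢
  exact h.symm

theorem count_gr (x : US a2) (hx : Pm2 x.1) :
    {y : YO 1 | (Gd y ∧ NR y) ∧ gr y = x}.Countable := by
  let R0 : ℕ → ℕ → ℕ → Bool := fun _ _ _ => false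
  let S : Set (Fin 2 → ℕ → ℕ → Bool) := {f | ∃ w, Gd (((f, R0, x.2), w) : YO 1) ∧
    gr ((f, R0, x.2), w) = x}
  rcases Set.eq_empty_or_nonempty {y : YO 1 | (Gd y ∧ NR y) ∧ gr y = x} with h0 | ⟨y0, h0⟩
  · rw [h0]
    exact Set.countable_empty
  have hpr : Gal.Pri (Ed x.1) := by
    refine pri_of hx ?_
    rw [← h0.2]
    exact ed_symm y0
  have hS : S.Countable := by
    refine Set.MapsTo.countable_of_injOn
      (f := fun f : Fin 2 → ℕ → ℕ → Bool => ((fun a b => f 0 a b = true ∧ f 1 b a = true),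
        (fun a b => f 0 a b = true ∧ f 1 a b = true)))
      (t := {P : ℕ → ℕ → Prop | Gal.TO (Ed x.1) P} ×ˢ
        {P : ℕ → ℕ → Prop | Gal.TO (fun a b => a ≠ b ∧ ¬ Ed x.1 a b) P}) ?_ ?_
      ((Gal.count hpr).prod (Gal.count (pri_compl hpr)))
    · rintro f ⟨w, h1, h2⟩
      refine ⟨?_, ?_⟩
      · have h3 := to_p h1.1
        rw [h2] at h3
        exact h3
      · have h3 := to_n h1.1
        rw [h2] at h3
        exact h3
    · rintro f ⟨w, h1, -⟩ f' ⟨w', h1', -⟩ hff
      have e1 := congrArg Prod.fst hff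
      have e2 := congrArg Prod.snd hff
      have e1' : ∀ a b, (f 0 a b = true ∧ f 1 b a = true) ↔ (f' 0 a b = true ∧ f' 1 b a = true) :=
        fun a b => iff_of_eq (congrFun (congrFun e1 a) b)
      have e2' : ∀ a b, (f 0 a b = true ∧ f 1 a b = true) ↔ (f' 0 a b = true ∧ f' 1 a b = true) :=
        fun a b => iff_of_eq (congrFun (congrFun e2 a) b)
      have k0 : ∀ a b, f 0 a b = f' 0 a b := by
        intro a b
        rw [Bool.eq_iff_iff]
        refine (rec_0 h1.1 a b).trans (Iff.trans ?_ (rec_0 h1'.1 a b).symm)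
        exact or_congr (e1' a b) (e2' a b)
      have k1 : ∀ a b, f 1 a b = f' 1 a b := by
        intro a b
        rw [Bool.eq_iff_iff]
        refine (rec_1 h1.1 a b).trans (Iff.trans ?_ (rec_1 h1'.1 a b).symm)
        exact or_congr (e1' b a) (e2' a b)
      funext i a b
      match i with
      | 0 => exact k0 a b
      | 1 => exact k1 a b
  refine (hS.biUnion fun f _ => (count_w ((f, R0, x.2) : XO 1)).image
    fun w => (((f, R0, x.2), w) : YO 1)).mono ?_
  rintro ⟨⟨f, r, u⟩, w⟩ ⟨⟨h1, h3⟩, h2⟩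
  have hu : u = x.2 := congrArg Prod.snd h2
  have hr : r = R0 := h3
  subst hu
  subst hr
  exact mem_iUnion₂.2 ⟨f, ⟨w, h1, h2⟩, w, h1, rfl⟩

theorem m_NR : MeasurableSet {y : YO 1 | NR y} := by
  have h1 : Continuous fun y : YO 1 => y.1.2.1 :=
    continuous_fst.comp (continuous_snd.comp continuous_fst)
  have hbs : BorelSpace (YO 1) := bsY
  exact (isClosed_eq h1 continuous_const).measurableSet

theorem nr_iso (σ : Equiv.Perm ℕ) (y y' : YO 1) (h : IY σ y y') (hy : NR y) : NR y' := by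
  funext i a b
  obtain ⟨a, rfl⟩ := σ.surjective a
  obtain ⟨b, rfl⟩ := σ.surjective b
  rw [h.1.2.1, hy]

def famP : Fam a2 Pm2 := famL gr cont_gr eq_gr NR m_NR nr_iso count_gr

structure Lin (l : ℕ → ℕ → Prop) : Prop where
  irr : ∀ a, ¬ l a a
  tr : ∀ a b c, l a b → l b c → l a c
  tot : ∀ a b, a = b ∨ l a b ∨ l b a

open Classical in
theorem ex_gr (x : RS a2) (h0 : ∀ i, i ≠ 0 → ∀ v, x i v = false) (l k : ℕ → ℕ → Prop)
    (hl : Lin l) (hk : Lin k) (hx : ∀ a b, Ed x a b ↔ (l a b ∧ k b a) ∨ (l b a ∧ k a b))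
    (s : ℕ) (c : ℕ → Fin s) (hc : ∀ t, (∀ a b, a ≠ b → c a = t → c b = t → Ed x a b) ∨
      (∀ a b, c a = t → c b = t → ¬ Ed x a b)) (u : ℕ → ℕ → Bool) :
    ∃ y, famP.G y ∧ famP.pr y = (x, u) := by
  let f : Fin 2 → ℕ → ℕ → Bool := fun i a b => if i = 0 then decide (l a b) else decide (k a b)
  have f0 : ∀ a b, f 0 a b = true ↔ l a b := by
    intro a b
    show (if (0 : Fin 2) = 0 then decide (l a b) else decide (k a b)) = true ↔ _
    rw [if_pos rfl]
    exact decide_eq_true_iff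
  have f1 : ∀ a b, f 1 a b = true ↔ k a b := by
    intro a b
    show (if (1 : Fin 2) = 0 then decide (l a b) else decide (k a b)) = true ↔ _
    rw [if_neg (by decide)]
    exact decide_eq_true_iff
  let R0 : ℕ → ℕ → ℕ → Bool := fun _ _ _ => false
  have hL : LOs ((f, R0, u) : XO 1) := by
    refine ⟨fun i a => ?_, fun i a b c => ?_, fun i a b => ?_, fun j => ⟨0, true, fun a b c _ =>
      ⟨fun _ h => h, fun _ h => h⟩⟩, fun j => ⟨0, true, fun a b c _ =>
      ⟨fun _ h => h, fun _ h => h⟩⟩⟩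
    · rw [← Bool.not_eq_true]
      match i with
      | 0 => exact fun h => hl.irr a ((f0 a a).1 h)
      | 1 => exact fun h => hk.irr a ((f1 a a).1 h)
    · match i with
      | 0 => exact fun h h' => (f0 _ _).2 (hl.tr _ _ _ ((f0 _ _).1 h) ((f0 _ _).1 h'))
      | 1 => exact fun h h' => (f1 _ _).2 (hk.tr _ _ _ ((f1 _ _).1 h) ((f1 _ _).1 h'))
    · match i with
      | 0 => exact (hl.tot a b).imp id fun h => h.imp (f0 _ _).2 (f0 _ _).2
      | 1 => exact (hk.tot a b).imp id fun h => h.imp (f1 _ _).2 (f1 _ _).2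
  have hC : Cov ((f, R0, u) : XO 1) := by
    refine ⟨s, c, fun i t => ?_⟩
    match i with
    | 0 => exact Or.inl fun a b _ _ h => h
    | 1 =>
      rcases hc t with h | h
      · right
        intro a b ha hb hab
        have hab' := (f0 _ _).1 hab
        have hne : a ≠ b := fun e => hl.irr a (by rw [← e] at hab'; exact hab')
        rcases (hx a b).1 (h a b hne ha hb) with h1 | h1
        · exact (f1 _ _).2 h1.2
        · exact absurd (hl.tr _ _ _ hab' h1.1) (hl.irr a)
      · left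
        intro a b ha hb hab
        have hab' := (f0 _ _).1 hab
        rcases hk.tot a b with h1 | h1 | h1
        · rw [h1] at hab'
          exact absurd hab' (hl.irr b)
        · exact (f1 _ _).2 h1
        · exact absurd ((hx a b).2 (Or.inl ⟨hab', h1⟩)) (h a b ha hb)
  obtain ⟨w, hw⟩ := gd_of_cov hL hC
  refine ⟨((f, R0, u), w), ⟨hw, rfl⟩, ?_⟩
  refine Prod.ext ?_ rfl
  funext i
  by_cases hi : i = 0
  · subst hi
    funext (v : Fin 2 → ℕ)
    show (if (0 : ℕ) = 0 then inver ((f, R0, u), w) (v 0) (v 1) else false) = x 0 v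
    rw [if_pos rfl]
    have hv : v = ![v 0, v 1] := by
      funext j
      match j with
      | 0 => rfl
      | 1 => rfl
    rw [Bool.eq_iff_iff]
    have h1 : x 0 v = true ↔ Ed x (v 0) (v 1) := by
      unfold Ed
      rw [← hv]
    rw [h1, hx]
    unfold inver
    simp only [Bool.or_eq_true, Bool.and_eq_true]
    exact or_congr (and_congr (f0 _ _) (f1 _ _)) (and_congr (f0 _ _) (f1 _ _))
  · funext v
    show (if i = 0 then inver ((f, R0, u), w) (v 0) (v 1) else false) = x i v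
    rw [h0 i hi v, if_neg hi]

end Pool.Agent.Y558.EC
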