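import Pool.Agent.Y558.EC.Per

set_option autoImplicit false

/-!
# Partial orders of dimension two
-/

namespace Pool.Agent.Y558.EC

open Set MeasureTheory
open Pool.Agent.H533R2.VO (RS)
open Pool.Agent.H533R2.VS (US UIso UDich VCu)

section prime

variable {P : ℕ → ℕ → Prop}

/-- comparability -/
def Cg (P : ℕ → ℕ → Prop) (a b : ℕ) : Prop := P a b ∨ P b a

theorem hull_mod (tr : ∀ a b c, P a b → P b c → P a c) {M : Set ℕ} (hM : Gal.Mod (Cg P) M) :
    MdB P {z | (∃ m ∈ M, m = z ∨ P m z) ∧ ∃ m ∈ M, z = m ∨ P z m} := by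
  intro x hx y hy z hz
  have hxM : x ∉ M := fun h => hx ⟨⟨x, h, Or.inl rfl⟩, ⟨x, h, Or.inl rfl⟩⟩
  obtain ⟨⟨m1, hm1, h1⟩, ⟨m2, hm2, h2⟩⟩ := hy
  obtain ⟨⟨m3, hm3, h3⟩, ⟨m4, hm4, h4⟩⟩ := hz
  constructor
  · intro h
    have h5 : P x m2 := by
      rcases h2 with rfl | h2
      · exact h
      · exact tr _ _ _ h h2
    have h6 : Cg P x m3 := hM x hxM m2 hm2 m3 hm3 (Or.inl h5)
    have h7 : P x m3 := by
      rcases h6 with h6 | h6
      · exact h6
      · exact absurd ⟨⟨m3, hm3, Or.inr h6⟩, ⟨m2, hm2, Or.inr h5⟩⟩ hx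
    rcases h3 with rfl | h3
    · exact h7
    · exact tr _ _ _ h7 h3
  · intro h
    have h5 : P m1 x := by
      rcases h1 with rfl | h1
      · exact h
      · exact tr _ _ _ h1 h
    have h6 : Cg P x m4 := hM x hxM m1 hm1 m4 hm4 (Or.inr h5)
    have h7 : P m4 x := by
      rcases h6 with h6 | h6
      · exact absurd ⟨⟨m1, hm1, Or.inr h5⟩, ⟨m4, hm4, Or.inr h6⟩⟩ hx
      · exact h6
    rcases h4 with rfl | h4
    · exact h7
    · exact tr _ _ _ h4 h7

theorem cc_mod (tr : ∀ a b c, P a b → P b c → P a c) (m : ℕ) :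
    MdB P {z | Relation.ReflTransGen (fun a b => ¬ Cg P a b) m z} := by
  intro x hx
  have hadj : ∀ y, Relation.ReflTransGen (fun a b => ¬ Cg P a b) m y → Cg P y x := by
    intro y hy
    by_contra hc
    exact hx (hy.tail hc)
  have key : ∀ y, Relation.ReflTransGen (fun a b => ¬ Cg P a b) m y →
      (P x y ↔ P x m) ∧ (P y x ↔ P m x) := by
    intro y hy
    induction hy with
    | refl => exact ⟨Iff.rfl, Iff.rfl⟩
    | @tail y y' hy hyy ih =>
      have a1 := hadj _ hy
      have a2 := hadj _ (hy.tail hyy)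
      refine ⟨Iff.trans ⟨fun h => ?_, fun h => ?_⟩ ih.1, Iff.trans ⟨fun h => ?_, fun h => ?_⟩ ih.2⟩
      · rcases a1 with a1 | a1
        · exact absurd (Or.inl (tr _ _ _ a1 h)) hyy
        · exact a1
      · rcases a2 with a2 | a2
        · exact absurd (Or.inr (tr _ _ _ a2 h)) hyy
        · exact a2
      · rcases a1 with a1 | a1
        · exact a1
        · exact absurd (Or.inr (tr _ _ _ h a1)) hyy
      · rcases a2 with a2 | a2
        · exact a2
        · exact absurd (Or.inl (tr _ _ _ h a2)) hyy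
  intro y hy z hz
  exact ⟨fun h => (key z hz).1.2 ((key y hy).1.1 h), fun h => (key z hz).2.2 ((key y hy).2.1 h)⟩

/-- Gallai: a poset is prime if and only if its comparability graph is. -/
theorem pri_cg (irr : ∀ a, ¬ P a a) (tr : ∀ a b c, P a b → P b c → P a c) (hp : PrB P) :
    Gal.Pri (Cg P) := by
  intro M hM
  by_contra hcon
  rw [not_or] at hcon
  obtain ⟨hn, hu⟩ := hcon
  -- the hull is everything
  have hW : {z | (∃ m ∈ M, m = z ∨ P m z) ∧ ∃ m ∈ M, z = m ∨ P z m} = univ := by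
    rcases hp _ (hull_mod tr hM) with h | h
    · exact absurd (fun a ha b hb => h ⟨⟨a, ha, Or.inl rfl⟩, ⟨a, ha, Or.inl rfl⟩⟩
        ⟨⟨b, hb, Or.inl rfl⟩, ⟨b, hb, Or.inl rfl⟩⟩) hn
    · exact h
  have hadj : ∀ x, x ∉ M → ∀ m ∈ M, Cg P x m := by
    intro x hx m hm
    have h1 : x ∈ {z | (∃ m ∈ M, m = z ∨ P m z) ∧ ∃ m ∈ M, z = m ∨ P z m} := by
      rw [hW]; trivial
    obtain ⟨⟨m1, hm1, h2⟩, -⟩ := h1
    rcases h2 with h2 | h2
    · exact absurd (h2 ▸ hm1) hx
    · exact hM x hx m1 hm1 m hm (Or.inr h2)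
  have hc1 : ∀ m ∈ M, ∀ z, Relation.ReflTransGen (fun a b => ¬ Cg P a b) m z → z ∈ M := by
    intro m hm z hz
    induction hz with
    | refl => exact hm
    | @tail y y' _ hyy ih =>
      by_contra hy'
      exact hyy (hadj y' hy' y ih).symm
  have hc2 : ∀ m, m ∉ M → ∀ z, Relation.ReflTransGen (fun a b => ¬ Cg P a b) m z → z ∉ M := by
    intro m hm z hz
    induction hz with
    | refl => exact hm
    | @tail y y' _ hyy ih =>
      intro hy'
      exact hyy (hadj y ih y' hy')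
  have hne : ∃ q, q ∉ M := by
    by_contra hc
    push Not at hc
    exact hu (Set.eq_univ_of_forall hc)
  have hne2 : ∃ q, q ∈ M := by
    by_contra hc
    push Not at hc
    exact hn fun a ha => absurd ha (hc a)
  have hsing : ∀ m, {z | Relation.ReflTransGen (fun a b => ¬ Cg P a b) m z}.Subsingleton := by
    intro m
    rcases hp _ (cc_mod tr m) with h | h
    · exact h
    · exfalso
      by_cases hm : m ∈ M
      · obtain ⟨q, hq⟩ := hne
        have : q ∈ {z | Relation.ReflTransGen (fun a b => ¬ Cg P a b) m z} := by rw [h]; trivial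
        exact hq (hc1 m hm q this)
      · obtain ⟨q, hq⟩ := hne2
        have : q ∈ {z | Relation.ReflTransGen (fun a b => ¬ Cg P a b) m z} := by rw [h]; trivial
        exact hc2 m hm q this hq
  have hlin : ∀ a b, a ≠ b → Cg P a b := by
    intro a b hab
    by_contra hc
    exact hab (hsing a Relation.ReflTransGen.refl (Relation.ReflTransGen.single hc))
  -- an initial segment is a module
  have hseg : ∀ c, MdB P {z | P z c} := by
    intro c x hx y hy z hz
    have hx' : x = c ∨ P c x := by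
      by_cases h : x = c
      · exact Or.inl h
      · rcases hlin x c h with h1 | h1
        · exact absurd h1 hx
        · exact Or.inr h1
    have hzx : P z x := by
      rcases hx' with h | h
      · rw [h]; exact hz
      · exact tr _ _ _ hz h
    have hyx : P y x := by
      rcases hx' with h | h
      · rw [h]; exact hy
      · exact tr _ _ _ hy h
    exact ⟨fun h => absurd (tr _ _ _ hyx h) (irr y), fun _ => hzx⟩
  have hfin : ∀ a b c, a ≠ b → P a c → P b c → False := by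
    intro a b c hab h1 h2
    rcases hp _ (hseg c) with h | h
    · exact hab (h h1 h2)
    · have : c ∈ {z | P z c} := by rw [h]; trivial
      exact irr c this
  -- three points
  have three : ∀ a b c : ℕ, a ≠ b → b ≠ c → a ≠ c → False := by
    intro a b c h1 h2 h3
    rcases hlin a b h1 with k1 | k1
    · rcases hlin b c h2 with k2 | k2
      · exact hfin a b c h1 (tr _ _ _ k1 k2) k2
      · exact hfin a c b h3 k1 k2
    · rcases hlin a c h3 with k2 | k2
      · exact hfin b a c h1.symm (tr _ _ _ k1 k2) k2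
      · exact hfin b c a h2 k1 k2
  exact three 0 1 2 (by decide) (by decide) (by decide)

end prime

/-- the intersection -/
def gp (y : YO 1) : US a2 :=
  (fun i (v : Fin 2 → ℕ) => if i = 0 then (y.1.1 0 (v 0) (v 1) && y.1.1 1 (v 0) (v 1)) else false,
    y.1.2.2)

theorem cont_gp : Continuous gp := by
  refine Continuous.prodMk ?_ (continuous_snd.comp (continuous_snd.comp continuous_fst))
  refine continuous_pi fun i => continuous_pi fun (v : Fin 2 → ℕ) => ?_
  show Continuous fun y : YO 1 =>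
    (if i = 0 then (y.1.1 0 (v 0) (v 1) && y.1.1 1 (v 0) (v 1)) else false)
  by_cases h : i = 0
  · simp only [if_pos h]
    exact (continuous_of_discreteTopology (f := fun p : Bool × Bool => p.1 && p.2)).comp
      ((cont_ev 0 _ _).prodMk (cont_ev 1 _ _))
  · simp only [if_neg h]
    exact continuous_const

theorem eq_gp (σ : Equiv.Perm ℕ) (y y' : YO 1) (h : IY σ y y') : UI σ (gp y) (gp y') := by
  refine ⟨fun i (v : Fin 2 → ℕ) => ?_, h.1.2.2⟩
  show (if i = 0 then (y'.1.1 0 (σ (v 0)) (σ (v 1)) && y'.1.1 1 (σ (v 0)) (σ (v 1))) else false) =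
    (if i = 0 then (y.1.1 0 (v 0) (v 1) && y.1.1 1 (v 0) (v 1)) else false)
  rw [h.1.1, h.1.1]

theorem ed_gp (y : YO 1) (a b : ℕ) : Ed (gp y).1 a b ↔
    (y.1.1 0 a b = true ∧ y.1.1 1 a b = true) := by
  show (if (0 : ℕ) = 0 then (y.1.1 0 a b && y.1.1 1 a b) else false) = true ↔ _
  rw [if_pos rfl]
  simp only [Bool.and_eq_true]

theorem to_n2 {y : YO 1} (h : LOs y.1) :
    Gal.TO (fun a b => a ≠ b ∧ ¬ Cg (Ed (gp y).1) a b)
      fun a b => y.1.1 0 a b = true ∧ y.1.1 1 b a = true := by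
  refine ⟨fun a b => ?_, ?_, ?_⟩
  · unfold Cg
    rw [ed_gp, ed_gp]
    constructor
    · rintro ⟨h1, h2⟩
      rcases h.tot 0 a b with h3 | h3 | h3
      · exact absurd h3 h1
      · rcases h.tot 1 a b with h4 | h4 | h4
        · exact absurd h4 h1
        · exact absurd (Or.inl ⟨h3, h4⟩) h2
        · exact Or.inl ⟨h3, h4⟩
      · rcases h.tot 1 a b with h4 | h4 | h4
        · exact absurd h4 h1
        · exact Or.inr ⟨h3, h4⟩
        · exact absurd (Or.inr ⟨h3, h4⟩) h2
    · intro h1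
      have hne : a ≠ b := by
        rintro rfl
        rcases h1 with ⟨h2, -⟩ | ⟨h2, -⟩ <;>
        · rw [h.irr] at h2
          exact absurd h2 (by decide)
      refine ⟨hne, ?_⟩
      rcases h1 with ⟨h2, h3⟩ | ⟨h2, h3⟩
      · rw [h2, h3, asym h h2, asym h h3]
        simp
      · rw [h2, h3, asym h h2, asym h h3]
        simp
  · rintro a b ⟨h1, -⟩ ⟨h2, -⟩
    rw [asym h h1] at h2
    exact absurd h2 (by decide)
  · rintro a b c ⟨h1, h2⟩ ⟨h3, h4⟩
    exact ⟨h.tr 0 a b c h1 h3, h.tr 1 c b a h4 h2⟩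

theorem rec_p0 {y : YO 1} (h : LOs y.1) (a b : ℕ) : y.1.1 0 a b = true ↔
    (y.1.1 0 a b = true ∧ y.1.1 1 a b = true) ∨ (y.1.1 0 a b = true ∧ y.1.1 1 b a = true) :=
  (rec_0 h a b).trans or_comm

theorem rec_p1 {y : YO 1} (h : LOs y.1) (a b : ℕ) : y.1.1 1 a b = true ↔
    (y.1.1 0 a b = true ∧ y.1.1 1 a b = true) ∨ (y.1.1 0 b a = true ∧ y.1.1 1 a b = true) :=
  (rec_1 h a b).trans or_comm

theorem count_gp (x : US a2) (hx : Pm2 x.1) :
    {y : YO 1 | (Gd y ∧ NR y) ∧ gp y = x}.Countable := by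
  let R0 : ℕ → ℕ → ℕ → Bool := fun _ _ _ => false
  let S : Set (Fin 2 → ℕ → ℕ → Bool) := {f | ∃ w, Gd (((f, R0, x.2), w) : YO 1) ∧
    gp ((f, R0, x.2), w) = x}
  rcases Set.eq_empty_or_nonempty {y : YO 1 | (Gd y ∧ NR y) ∧ gp y = x} with h0 | ⟨y0, h0⟩
  · rw [h0]
    exact Set.countable_empty
  have hpr : Gal.Pri (Cg (Ed x.1)) := by
    refine pri_cg ?_ ?_ hx
    · intro a
      rw [← h0.2, ed_gp]
      rintro ⟨h1, -⟩
      rw [h0.1.1.1.irr] at h1
      exact absurd h1 (by decide)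
    · intro a b c
      rw [← h0.2, ed_gp, ed_gp, ed_gp]
      rintro ⟨h1, h2⟩ ⟨h3, h4⟩
      exact ⟨h0.1.1.1.tr 0 a b c h1 h3, h0.1.1.1.tr 1 a b c h2 h4⟩
  have hS : S.Countable := by
    refine Set.MapsTo.countable_of_injOn
      (f := fun (f : Fin 2 → ℕ → ℕ → Bool) (a b : ℕ) => f 0 a b = true ∧ f 1 b a = true)
      (t := {P : ℕ → ℕ → Prop | Gal.TO (fun a b => a ≠ b ∧ ¬ Cg (Ed x.1) a b) P}) ?_ ?_
      (Gal.count (pri_compl hpr))
    · rintro f ⟨w, h1, h2⟩
      have h3 := to_n2 h1.1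
      rw [h2] at h3
      exact h3
    · rintro f ⟨w, h1, h2⟩ f' ⟨w', h1', h2'⟩ hff
      have e1' : ∀ a b, (f 0 a b = true ∧ f 1 b a = true) ↔ (f' 0 a b = true ∧ f' 1 b a = true) :=
        fun a b => iff_of_eq (congrFun (congrFun hff a) b)
      have e2' : ∀ a b, (f 0 a b = true ∧ f 1 a b = true) ↔
          (f' 0 a b = true ∧ f' 1 a b = true) := by
        intro a b
        have k1 := ed_gp ((f, R0, x.2), w) a b
        have k2 := ed_gp ((f', R0, x.2), w') a b
        rw [h2] at k1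
        rw [h2'] at k2
        exact k1.symm.trans k2
      have k0 : ∀ a b, f 0 a b = f' 0 a b := by
        intro a b
        rw [Bool.eq_iff_iff]
        refine (rec_p0 h1.1 a b).trans (Iff.trans ?_ (rec_p0 h1'.1 a b).symm)
        exact or_congr (e2' a b) (e1' a b)
      have k1 : ∀ a b, f 1 a b = f' 1 a b := by
        intro a b
        rw [Bool.eq_iff_iff]
        refine (rec_p1 h1.1 a b).trans (Iff.trans ?_ (rec_p1 h1'.1 a b).symm)
        exact or_congr (e2' a b) (e1' b a)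
      funext i a b
      match i with
      | 0 => exact k0 a b
      | 1 => exact k1 a b
  refine (hS.biUnion fun f _ => (count_w ((f, R0, x.2) : XO 1)).image
    fun w => (((f, R0, x.2), w) : YO 1)).mono ?_
  rintro ⟨⟨f, r, u⟩, w⟩ ⟨⟨h1, h3⟩, h2⟩
  have hu : u = x.2 := congrArg Prod.snd h2
  have hr : r = R0 := h3
  subst hu
  subst hr
  exact mem_iUnion₂.2 ⟨f, ⟨w, h1, h2⟩, w, h1, rfl⟩

def famQ : Fam a2 Pm2 := famL gp cont_gp eq_gp NR m_NR nr_iso count_gp

open Classical in
theorem ex_gp (x : RS a2) (h0 : ∀ i, i ≠ 0 → ∀ v, x i v = false) (l k : ℕ → ℕ → Prop)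
    (hl : Lin l) (hk : Lin k) (hx : ∀ a b, Ed x a b ↔ (l a b ∧ k a b))
    (s : ℕ) (c : ℕ → Fin s) (hc : ∀ t, (∀ a b, a ≠ b → c a = t → c b = t → Cg (Ed x) a b) ∨
      (∀ a b, c a = t → c b = t → ¬ Cg (Ed x) a b)) (u : ℕ → ℕ → Bool) :
    ∃ y, famQ.G y ∧ famQ.pr y = (x, u) := by
  let f : Fin 2 → ℕ → ℕ → Bool := fun i a b => if i = 0 then decide (l a b) else decide (k a b)
  have f0 : ∀ a b, f 0 a b = true ↔ l a b := by
    intro a b
    show (if (0 : Fin 2) = 0 then decide (l a b) else decide (k a b)) = true ↔ _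
    rw [if_pos rfl]
    exact decide_eq_true_iff
  have f1 : ∀ a b, f 1 a b = true ↔ k a b := by
    intro a b
    show (if (1 : Fin 2) = 0 then decide (l a b) else decide (k a b)) = true ↔ _
    rw [if_neg (by decide)]
    exact decide_eq_true_iff
  let R0 : ℕ → ℕ → ℕ → Bool := fun _ _ _ => false
  have hL : LOs ((f, R0, u) : XO 1) := by
    refine ⟨fun i a => ?_, fun i a b c => ?_, fun i a b => ?_, fun j => ⟨0, true, fun a b c _ =>
      ⟨fun _ h => h, fun _ h => h⟩⟩, fun j => ⟨0, true, fun a b c _ =>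
      ⟨fun _ h => h, fun _ h => h⟩⟩⟩
    · rw [← Bool.not_eq_true]
      match i with
      | 0 => exact fun h => hl.irr a ((f0 a a).1 h)
      | 1 => exact fun h => hk.irr a ((f1 a a).1 h)
    · match i with
      | 0 => exact fun h h' => (f0 _ _).2 (hl.tr _ _ _ ((f0 _ _).1 h) ((f0 _ _).1 h'))
      | 1 => exact fun h h' => (f1 _ _).2 (hk.tr _ _ _ ((f1 _ _).1 h) ((f1 _ _).1 h'))
    · match i with
      | 0 => exact (hl.tot a b).imp id fun h => h.imp (f0 _ _).2 (f0 _ _).2
      | 1 => exact (hk.tot a b).imp id fun h => h.imp (f1 _ _).2 (f1 _ _).2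
  have hC : Cov ((f, R0, u) : XO 1) := by
    refine ⟨s, c, fun i t => ?_⟩
    match i with
    | 0 => exact Or.inl fun a b _ _ h => h
    | 1 =>
      rcases hc t with h | h
      · left
        intro a b ha hb hab
        have hab' := (f0 _ _).1 hab
        have hne : a ≠ b := fun e => hl.irr a (by rw [← e] at hab'; exact hab')
        rcases h a b hne ha hb with h1 | h1
        · exact (f1 _ _).2 ((hx _ _).1 h1).2
        · exact absurd (hl.tr _ _ _ hab' ((hx _ _).1 h1).1) (hl.irr a)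
      · right
        intro a b ha hb hab
        have hab' := (f0 _ _).1 hab
        rcases hk.tot a b with h1 | h1 | h1
        · rw [h1] at hab'
          exact absurd hab' (hl.irr b)
        · exact absurd (Or.inl ((hx a b).2 ⟨hab', h1⟩)) (h a b ha hb)
        · exact (f1 _ _).2 h1
  obtain ⟨w, hw⟩ := gd_of_cov hL hC
  refine ⟨((f, R0, u), w), ⟨hw, rfl⟩, ?_⟩
  refine Prod.ext ?_ rfl
  funext i
  by_cases hi : i = 0
  · subst hi
    funext (v : Fin 2 → ℕ)
    show (if (0 : ℕ) = 0 then (f 0 (v 0) (v 1) && f 1 (v 0) (v 1)) else false) = x 0 v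
    rw [if_pos rfl]
    have hv : v = ![v 0, v 1] := by
      funext j
      match j with
      | 0 => rfl
      | 1 => rfl
    rw [Bool.eq_iff_iff]
    have h1 : x 0 v = true ↔ Ed x (v 0) (v 1) := by
      unfold Ed
      rw [← hv]
    rw [h1, hx]
    simp only [Bool.and_eq_true]
    exact and_congr (f0 _ _) (f1 _ _)
  · funext v
    show (if i = 0 then (f 0 (v 0) (v 1) && f 1 (v 0) (v 1)) else false) = x i v
    rw [h0 i hi v, if_neg hi]

end Pool.Agent.Y558.EC
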