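import Pool.Agent.Y558.EC.Per

set_option autoImplicit false

/-!
# Locally transitive tournaments
-/

namespace Pool.Agent.Y558.EC

open Set MeasureTheory
open Pool.Agent.H533R2.VO (RS)
open Pool.Agent.H533R2.VS (US UIso UDich VCu)
open Pool.Agent.Y558.MC (XS SO IsoS outS)

/-- tournament, unary predicates, a marked point -/
abbrev XT : Type := (ℕ → ℕ → Bool) × (ℕ → ℕ → Bool) × (ℕ → Bool)

def IT (σ : Equiv.Perm ℕ) (y y' : XT) : Prop :=
  (∀ a b, y'.1 (σ a) (σ b) = y.1 a b) ∧ (∀ j a, y'.2.1 j (σ a) = y.2.1 j a) ∧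
    ∀ a, y'.2.2 (σ a) = y.2.2 a

/-- locally transitive tournaments -/
structure LT (T : ℕ → ℕ → Bool) : Prop where
  irr : ∀ a, T a a = false
  tot : ∀ a b, a = b ∨ T a b = true ∨ T b a = true
  asy : ∀ a b, T a b = true → T b a = true → False
  out : ∀ x a b c, T x a = true → T x b = true → T x c = true → T a b = true → T b c = true →
    T a c = true
  inn : ∀ x a b c, T a x = true → T b x = true → T c x = true → T a b = true → T b c = true →
    T a c = true

structure GT (y : XT) : Prop where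
  lt : LT y.1
  pt : ∃ m, ∀ a, y.2.2 a = true ↔ a = m

/-- the second part -/
def In (y : XT) (a : ℕ) : Prop := ∃ x, y.2.2 x = true ∧ y.1 a x = true

theorem in_iso {σ : Equiv.Perm ℕ} {y y' : XT} (h : IT σ y y') (a : ℕ) : In y' (σ a) ↔ In y a := by
  constructor
  · rintro ⟨x, h1, h2⟩
    obtain ⟨x, rfl⟩ := σ.surjective x
    rw [h.2.2] at h1
    rw [h.1] at h2
    exact ⟨x, h1, h2⟩
  · rintro ⟨x, h1, h2⟩
    exact ⟨σ x, by rw [h.2.2]; exact h1, by rw [h.1]; exact h2⟩

theorem lt_iso {T T' : ℕ → ℕ → Bool} {σ : Equiv.Perm ℕ} (h : ∀ a b, T' (σ a) (σ b) = T a b)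
    (hT : LT T) : LT T' := by
  refine ⟨fun a => ?_, fun a b => ?_, fun a b => ?_, fun x a b c => ?_, fun x a b c => ?_⟩
  · obtain ⟨a, rfl⟩ := σ.surjective a
    rw [h]; exact hT.irr a
  · obtain ⟨a, rfl⟩ := σ.surjective a
    obtain ⟨b, rfl⟩ := σ.surjective b
    rw [h, h, σ.injective.eq_iff]; exact hT.tot a b
  · obtain ⟨a, rfl⟩ := σ.surjective a
    obtain ⟨b, rfl⟩ := σ.surjective b
    rw [h, h]; exact hT.asy a b
  · obtain ⟨x, rfl⟩ := σ.surjective x
    obtain ⟨a, rfl⟩ := σ.surjective a
    obtain ⟨b, rfl⟩ := σ.surjective b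
    obtain ⟨c, rfl⟩ := σ.surjective c
    simp only [h]; exact hT.out x a b c
  · obtain ⟨x, rfl⟩ := σ.surjective x
    obtain ⟨a, rfl⟩ := σ.surjective a
    obtain ⟨b, rfl⟩ := σ.surjective b
    obtain ⟨c, rfl⟩ := σ.surjective c
    simp only [h]; exact hT.inn x a b c

theorem gt_iso (σ : Equiv.Perm ℕ) (y y' : XT) (h : IT σ y y') (hy : GT y) : GT y' := by
  refine ⟨lt_iso h.1 hy.lt, ?_⟩
  obtain ⟨m, hm⟩ := hy.pt
  refine ⟨σ m, fun a => ?_⟩
  obtain ⟨a, rfl⟩ := σ.surjective a
  rw [h.2.2, hm, σ.injective.eq_iff]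

def trT (σ : Equiv.Perm ℕ) (y : XT) : XT :=
  (fun a b => y.1 (σ.symm a) (σ.symm b), fun j a => y.2.1 j (σ.symm a), fun a => y.2.2 (σ.symm a))

theorem it_tr (σ : Equiv.Perm ℕ) (y : XT) : IT σ y (trT σ y) := by
  refine ⟨fun a b => ?_, fun j a => ?_, fun a => ?_⟩ <;> simp [trT]

open Classical in
/-- the code -/
noncomputable def PT (y : XT) : XS :=
  (fun i a b => if i = 0 then y.1 a b else false,
    fun p m => decide ((p = 0 ∧ ¬ In y m) ∨ (p ≠ 0 ∧ In y m)),
    fun j m => if j % 2 = 0 then y.2.1 (j / 2) m else y.2.2 m)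

def DT (x : XS) : XT := (x.1 0, fun j a => x.2.2 (2 * j) a, fun a => x.2.2 1 a)

theorem dt_pt (y : XT) : DT (PT y) = y := by
  refine Prod.ext ?_ (Prod.ext ?_ ?_)
  · funext a b
    show (if (0 : ℕ) = 0 then y.1 a b else false) = _
    rw [if_pos rfl]
  · funext j a
    show (if (2 * j) % 2 = 0 then y.2.1 ((2 * j) / 2) a else y.2.2 a) = _
    have e : (2 * j) / 2 = j := by omega
    rw [if_pos (by omega), e]
  · funext a
    show (if 1 % 2 = 0 then y.2.1 (1 / 2) a else y.2.2 a) = _
    rw [if_neg (by decide)]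

theorem cont_DT : Continuous DT := by
  refine Continuous.prodMk ((continuous_apply 0).comp continuous_fst) (Continuous.prodMk ?_ ?_)
  · exact continuous_pi fun j => continuous_pi fun a => (continuous_apply a).comp
      ((continuous_apply (2 * j)).comp (continuous_snd.comp continuous_snd))
  · exact continuous_pi fun a => (continuous_apply a).comp
      ((continuous_apply 1).comp (continuous_snd.comp continuous_snd))

theorem pt_isoT (σ : Equiv.Perm ℕ) (y y' : XT) (h : IT σ y y') : IsoS σ (PT y) (PT y') := by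
  classical
  refine ⟨fun i a b => ?_, fun p m => ?_, fun j m => ?_⟩
  · show (if i = 0 then y'.1 (σ a) (σ b) else false) = (if i = 0 then y.1 a b else false)
    rw [h.1]
  · show decide ((p = 0 ∧ ¬ In y' (σ m)) ∨ (p ≠ 0 ∧ In y' (σ m))) =
      decide ((p = 0 ∧ ¬ In y m) ∨ (p ≠ 0 ∧ In y m))
    rw [decide_eq_decide, in_iso h]
  · show (if j % 2 = 0 then y'.2.1 (j / 2) (σ m) else y'.2.2 (σ m)) =
      (if j % 2 = 0 then y.2.1 (j / 2) m else y.2.2 m)
    rw [h.2.1, h.2.2]

theorem mt1 (a b : ℕ) : Measurable fun y : XT => y.1 a b :=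
  (measurable_pi_apply b).comp ((measurable_pi_apply a).comp measurable_fst)
theorem mt2 (j a : ℕ) : Measurable fun y : XT => y.2.1 j a :=
  (measurable_pi_apply a).comp ((measurable_pi_apply j).comp
    (measurable_fst.comp measurable_snd))
theorem mt3 (a : ℕ) : Measurable fun y : XT => y.2.2 a :=
  (measurable_pi_apply a).comp (measurable_snd.comp measurable_snd)

theorem mdec2 {W : Type} [MeasurableSpace W] {P : W → Prop} {d : ∀ w, Decidable (P w)}
    (h : Measurable P) : Measurable fun w => @decide (P w) (d w) := by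
  have e : (fun w => @decide (P w) (d w)) = fun w => @decide (P w) (Classical.propDecidable _) := by
    funext w
    congr
  rw [e]
  exact mdec h

theorem m_In (a : ℕ) : Measurable fun y : XT => In y a :=
  Measurable.exists fun x => (mb (mt3 x)).and (mb (mt1 a x))

theorem m_PT : Measurable PT := by
  refine Measurable.prodMk ?_ (Measurable.prodMk ?_ ?_)
  · refine measurable_pi_iff.2 fun i => measurable_pi_iff.2 fun a => measurable_pi_iff.2 fun b => ?_
    by_cases h : i = 0
    · simp only [if_pos h]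
      exact mt1 a b
    · simp only [if_neg h]
      exact measurable_const
  · exact measurable_pi_iff.2 fun p => measurable_pi_iff.2 fun m =>
      mdec2 ((measurable_const.and (m_In m).not).or (measurable_const.and (m_In m)))
  · refine measurable_pi_iff.2 fun j => measurable_pi_iff.2 fun m => ?_
    by_cases h : j % 2 = 0
    · simp only [if_pos h]
      exact mt2 _ m
    · simp only [if_neg h]
      exact mt3 m

theorem m_GT : MeasurableSet {y : XT | GT y} := by
  have e : {y : XT | GT y} = {y : XT | ((∀ a, y.1 a a = false) ∧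
      (∀ a b, a = b ∨ y.1 a b = true ∨ y.1 b a = true) ∧
      (∀ a b, y.1 a b = true → y.1 b a = true → False) ∧
      (∀ x a b c, y.1 x a = true → y.1 x b = true → y.1 x c = true → y.1 a b = true →
        y.1 b c = true → y.1 a c = true) ∧
      (∀ x a b c, y.1 a x = true → y.1 b x = true → y.1 c x = true → y.1 a b = true →
        y.1 b c = true → y.1 a c = true)) ∧ ∃ m, ∀ a, y.2.2 a = true ↔ a = m} := by
    ext y
    exact ⟨fun h => ⟨⟨h.lt.irr, h.lt.tot, h.lt.asy, h.lt.out, h.lt.inn⟩, h.pt⟩,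
      fun h => ⟨⟨h.1.1, h.1.2.1, h.1.2.2.1, h.1.2.2.2.1, h.1.2.2.2.2⟩, h.2⟩⟩
  rw [e]
  refine measurableSet_setOfPred.2 (Measurable.and (Measurable.and ?_ (Measurable.and ?_
    (Measurable.and ?_ (Measurable.and ?_ ?_)))) ?_)
  · exact Measurable.forall fun a => meq (mt1 a a) measurable_const
  · exact Measurable.forall fun a => Measurable.forall fun b =>
      measurable_const.or ((mb (mt1 a b)).or (mb (mt1 b a)))
  · exact Measurable.forall fun a => Measurable.forall fun b =>
      (mb (mt1 a b)).imp ((mb (mt1 b a)).imp measurable_const)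
  · exact Measurable.forall fun x => Measurable.forall fun a => Measurable.forall fun b =>
      Measurable.forall fun c => (mb (mt1 x a)).imp ((mb (mt1 x b)).imp ((mb (mt1 x c)).imp
        ((mb (mt1 a b)).imp ((mb (mt1 b c)).imp (mb (mt1 a c))))))
  · exact Measurable.forall fun x => Measurable.forall fun a => Measurable.forall fun b =>
      Measurable.forall fun c => (mb (mt1 a x)).imp ((mb (mt1 b x)).imp ((mb (mt1 c x)).imp
        ((mb (mt1 a b)).imp ((mb (mt1 b c)).imp (mb (mt1 a c))))))
  · exact Measurable.exists fun m => Measurable.forall fun a => (mb (mt3 a)).iff measurable_const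

theorem so_pt {y : XT} (h : GT y) : SO (PT y) := by
  classical
  have hT := h.lt
  obtain ⟨x0, hx0⟩ := h.pt
  have hin : ∀ a, In y a ↔ y.1 a x0 = true := by
    intro a
    constructor
    · rintro ⟨x, h1, h2⟩
      rw [(hx0 x).1 h1] at h2
      exact h2
    · exact fun h1 => ⟨x0, (hx0 x0).2 rfl, h1⟩
  have hA : ∀ a, ¬ In y a → a = x0 ∨ y.1 x0 a = true := by
    intro a ha
    rw [hin] at ha
    rcases hT.tot a x0 with h1 | h1 | h1
    · exact Or.inl h1
    · exact absurd h1 ha
    · exact Or.inr h1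
  have r0 : ∀ a b, (PT y).1 0 a b = y.1 a b := fun a b => by
    show (if (0 : ℕ) = 0 then y.1 a b else false) = _
    rw [if_pos rfl]
  have ri : ∀ i, i ≠ 0 → ∀ a b, (PT y).1 i a b = false := fun i hi a b => by
    show (if i = 0 then y.1 a b else false) = _
    rw [if_neg hi]
  have rp : ∀ p m, (PT y).2.1 p m = true ↔ (p = 0 ∧ ¬ In y m) ∨ (p ≠ 0 ∧ In y m) :=
    fun p m => decide_eq_true_iff
  have rp0 : ∀ m, (PT y).2.1 0 m = true ↔ ¬ In y m := by
    intro m
    rw [rp]
    simp
  have rp1 : ∀ p, p ≠ 0 → ∀ m, (PT y).2.1 p m = true ↔ In y m := by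
    intro p hp m
    rw [rp]
    simp [hp]
  -- transitivity inside the parts
  have tA : ∀ a b c, ¬ In y a → ¬ In y b → ¬ In y c → y.1 a b = true → y.1 b c = true →
      y.1 a c = true := by
    intro a b c ha hb hc h1 h2
    rcases hA a ha with rfl | ha'
    · rcases hA c hc with rfl | hc'
      · exact (hT.asy _ _ h1 h2).elim
      · exact hc'
    · rcases hA b hb with rfl | hb'
      · exact absurd ((hin a).2 h1) ha
      · rcases hA c hc with rfl | hc'
        · exact absurd ((hin b).2 h2) hb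
        · exact hT.out _ _ _ _ ha' hb' hc' h1 h2
  have tB : ∀ a b c, In y a → In y b → In y c → y.1 a b = true → y.1 b c = true →
      y.1 a c = true := by
    intro a b c ha hb hc h1 h2
    exact hT.inn _ _ _ _ ((hin a).1 ha) ((hin b).1 hb) ((hin c).1 hc) h1 h2
  have orB : ∀ a b, a ≠ b → ¬ y.1 a b = true → y.1 b a = true := by
    intro a b h1 h2
    rcases hT.tot a b with h3 | h3 | h3
    · exact absurd h3 h1
    · exact absurd h3 h2
    · exact h3
  have dAB : ∀ a b, ¬ In y a → In y b → a ≠ b := fun a b ha hb e => ha (e ▸ hb)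
  -- the four mixed rules
  have f1 : ∀ m m' k, ¬ In y m → ¬ In y m' → In y k → y.1 m m' = true → y.1 m k = true →
      y.1 m' k = true := by
    intro m m' k hm hm' hk h1 h2
    by_contra h3
    have h4 := orB _ _ (dAB _ _ hm' hk) h3
    have hk' := (hin k).1 hk
    have hxm : y.1 x0 m' = true := by
      rcases hA m' hm' with rfl | h5
      · exact absurd ((hin m).2 h1) hm
      · exact h5
    have h6 := hT.inn m' m k x0 h1 h4 hxm h2 hk'
    exact hm ((hin m).2 h6)
  have f2 : ∀ m k k', ¬ In y m → In y k → In y k' → y.1 k' k = true → y.1 m k = true →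
      y.1 m k' = true := by
    intro m k k' hm hk hk' h1 h2
    by_contra h3
    have h4 := orB _ _ (dAB _ _ hm hk') h3
    have hxm : y.1 x0 m = true := by
      rcases hA m hm with h5 | h5
      · rw [h5] at h3
        rw [h5] at h2
        exact (hT.asy _ _ h2 ((hin k).1 hk)).elim
      · exact h5
    have h6 := hT.out k' x0 m k ((hin k').1 hk') h4 h1 hxm h2
    exact hT.asy _ _ h6 ((hin k).1 hk)
  have f3 : ∀ m m' k, In y m → In y m' → ¬ In y k → y.1 m m' = true → y.1 m k = true →
      y.1 m' k = true := by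
    intro m m' k hm hm' hk h1 h2
    by_contra h3
    have h4 := orB _ _ (dAB _ _ hk hm').symm h3
    have h6 := hT.out m k m' x0 h2 h1 ((hin m).1 hm) h4 ((hin m').1 hm')
    exact hk ((hin k).2 h6)
  have f4 : ∀ m k k', In y m → ¬ In y k → ¬ In y k' → y.1 k' k = true → y.1 m k = true →
      y.1 m k' = true := by
    intro m k k' hm hk hk' h1 h2
    by_contra h3
    have h4 := orB _ _ (dAB _ _ hk' hm).symm h3
    have hxk : y.1 x0 k = true := by
      rcases hA k hk with h5 | h5
      · rw [h5] at h1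
        exact absurd ((hin k').2 h1) hk'
      · exact h5
    have h6 := hT.inn k k' m x0 h1 h2 hxk h4 ((hin m).1 hm)
    exact hk' ((hin k').2 h6)
  refine ⟨fun m => ?_, fun m => ?_, fun p m k l hm hk hl h1 h2 => ?_, fun p m k _ _ => ?_,
    fun i p q => ?_, fun i p q => ?_⟩
  · by_cases hm : In y m
    · exact ⟨1, (rp1 1 (by decide) m).2 hm⟩
    · exact ⟨0, (rp0 m).2 hm⟩
  · rw [r0]
    exact hT.irr m
  · rw [r0] at h1 h2 ⊢
    by_cases hp : p = 0
    · subst hp
      rw [rp0] at hm hk hl
      exact tA _ _ _ hm hk hl h1 h2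
    · rw [rp1 p hp] at hm hk hl
      exact tB _ _ _ hm hk hl h1 h2
  · rw [r0, r0]
    exact hT.tot m k
  · by_cases hi : i = 0
    · subst hi
      by_cases hp : p = 0
      · subst hp
        by_cases hq : q = 0
        · subst hq
          right
          intro m m' k hm hm' hk h1 h2
          rw [rp0] at hm hm' hk
          rw [r0] at h1 h2 ⊢
          exact tA _ _ _ hm' hm hk h1 h2
        · left
          intro m m' k hm hm' hk h1 h2
          rw [rp0] at hm hm'
          rw [rp1 q hq] at hk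
          rw [r0] at h1 h2 ⊢
          exact f1 _ _ _ hm hm' hk h1 h2
      · by_cases hq : q = 0
        · subst hq
          left
          intro m m' k hm hm' hk h1 h2
          rw [rp1 p hp] at hm hm'
          rw [rp0] at hk
          rw [r0] at h1 h2 ⊢
          exact f3 _ _ _ hm hm' hk h1 h2
        · right
          intro m m' k hm hm' hk h1 h2
          rw [rp1 p hp] at hm hm'
          rw [rp1 q hq] at hk
          rw [r0] at h1 h2 ⊢
          exact tB _ _ _ hm' hm hk h1 h2
    · left
      intro m m' k _ _ _ _ h2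
      rw [ri i hi] at h2
      exact absurd h2 (by decide)
  · by_cases hi : i = 0
    · subst hi
      by_cases hp : p = 0
      · subst hp
        by_cases hq : q = 0
        · subst hq
          left
          intro m k k' hm hk hk' h1 h2
          rw [rp0] at hm hk hk'
          rw [r0] at h1 h2 ⊢
          exact tA _ _ _ hm hk hk' h2 h1
        · right
          intro m k k' hm hk hk' h1 h2
          rw [rp0] at hm
          rw [rp1 q hq] at hk hk'
          rw [r0] at h1 h2 ⊢
          exact f2 _ _ _ hm hk hk' h1 h2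
      · by_cases hq : q = 0
        · subst hq
          right
          intro m k k' hm hk hk' h1 h2
          rw [rp1 p hp] at hm
          rw [rp0] at hk hk'
          rw [r0] at h1 h2 ⊢
          exact f4 _ _ _ hm hk hk' h1 h2
        · left
          intro m k k' hm hk hk' h1 h2
          rw [rp1 p hp] at hm
          rw [rp1 q hq] at hk hk'
          rw [r0] at h1 h2 ⊢
          exact tB _ _ _ hm hk hk' h2 h1
    · left
      intro m k k' _ _ _ _ h2
      rw [ri i hi] at h2
      exact absurd h2 (by decide)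

/-- the reduct -/
def pT (y : XT) : US a2 :=
  (fun i (v : Fin 2 → ℕ) => if i = 0 then y.1 (v 0) (v 1) else false, y.2.1)

theorem cont_pT : Continuous pT := by
  refine Continuous.prodMk ?_ (continuous_fst.comp continuous_snd)
  refine continuous_pi fun i => continuous_pi fun (v : Fin 2 → ℕ) => ?_
  show Continuous fun y : XT => (if i = 0 then y.1 (v 0) (v 1) else false)
  by_cases h : i = 0
  · simp only [if_pos h]
    exact (continuous_apply (v 1)).comp ((continuous_apply (v 0)).comp continuous_fst)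
  · simp only [if_neg h]
    exact continuous_const

theorem eq_pT (σ : Equiv.Perm ℕ) (y y' : XT) (h : IT σ y y') : UI σ (pT y) (pT y') := by
  refine ⟨fun i (v : Fin 2 → ℕ) => ?_, h.2.1⟩
  show (if i = 0 then y'.1 (σ (v 0)) (σ (v 1)) else false) =
    (if i = 0 then y.1 (v 0) (v 1) else false)
  rw [h.1]

theorem bsT : BorelSpace XT := by
  have b0 : BorelSpace (ℕ → Bool) := Pi.borelSpace
  have b2 : BorelSpace (ℕ → ℕ → Bool) := Pi.borelSpace
  have b5 : BorelSpace ((ℕ → ℕ → Bool) × (ℕ → Bool)) := Prod.borelSpace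
  exact Prod.borelSpace

/-- the family of locally transitive tournaments with a marked point -/
def famT : Fam a2 Pm2 where
  Y := XT
  top := inferInstance
  E := fun y y' => ∃ σ : Equiv.Perm ℕ, IT σ y y'
  pr := pT
  G := GT
  cont := cont_pT
  sy := by
    rintro y y' ⟨σ, h⟩
    refine ⟨σ.symm, fun a b => ?_, fun j a => ?_, fun a => ?_⟩
    · rw [← h.1, Equiv.apply_symm_apply, Equiv.apply_symm_apply]
    · rw [← h.2.1, Equiv.apply_symm_apply]
    · rw [← h.2.2, Equiv.apply_symm_apply]
  tr := by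
    rintro x y z ⟨σ, h⟩ ⟨τ, h'⟩
    refine ⟨σ.trans τ, fun a b => ?_, fun j a => ?_, fun a => ?_⟩
    · show z.1 (τ (σ a)) (τ (σ b)) = _
      rw [h'.1, h.1]
    · show z.2.1 j (τ (σ a)) = _
      rw [h'.2.1, h.2.1]
    · show z.2.2 (τ (σ a)) = _
      rw [h'.2.2, h.2.2]
  toX := by
    rintro y y' ⟨σ, h⟩
    exact ⟨σ, eq_pT σ y y' h⟩
  lift := by
    rintro y x' ⟨σ, h⟩
    exact ⟨trT σ y, ui_unique (eq_pT σ y _ (it_tr σ y)) h, σ, it_tr σ y⟩
  inv := by
    rintro y y' ⟨σ, h⟩ hG
    exact gt_iso σ _ _ h hG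
  count := by
    intro x _
    have e : {y : XT | GT y ∧ pT y = x} ⊆ Set.range fun m : ℕ =>
        (((fun a b => x.1 0 (![a, b] : Fin 2 → ℕ)), x.2, fun a => decide (a = m)) : XT) := by
      rintro ⟨T, U, C⟩ ⟨h1, h2⟩
      obtain ⟨m, hm⟩ := h1.pt
      refine ⟨m, ?_⟩
      refine Prod.ext ?_ (Prod.ext ?_ ?_)
      · funext a b
        have h4 := congrFun (congrFun (congrArg Prod.fst h2) 0) (![a, b] : Fin 2 → ℕ)
        exact h4.symm
      · exact (congrArg Prod.snd h2).symm
      · funext a
        rw [Bool.eq_iff_iff]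
        exact decide_eq_true_iff.trans (hm a).symm
    exact (Set.countable_range _).mono e
  dich := by
    intro B hB hi
    have hbs := bsT
    rcases viaS IT PT DT m_PT cont_DT dt_pt pt_isoT (fun σ y => ⟨_, it_tr σ y⟩)
      {y : XT | GT y ∧ pT y ∈ B} (m_GT.inter (cont_pT.measurable hB)) (by
        rintro y ⟨h1, h2⟩ y' σ h
        exact ⟨gt_iso σ _ _ h h1, (hi _ _ ⟨σ, eq_pT σ y y' h⟩).1 h2⟩)
        (fun y hy => so_pt hy.1) with
        ⟨f, hf⟩ | ⟨g, hg, hgB, hgi⟩
    · left
      refine ⟨f, fun y h1 h2 => ?_⟩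
      obtain ⟨m, σ, h⟩ := hf y ⟨h1, h2⟩
      exact ⟨m, σ, h⟩
    · right
      exact ⟨g, hg, hgB, hgi⟩

theorem ex_pT (x : RS a2) (h0 : ∀ i, i ≠ 0 → ∀ v, x i v = false)
    (hT : LT fun a b => x 0 (![a, b] : Fin 2 → ℕ))
    (u : ℕ → ℕ → Bool) : ∃ y, famT.G y ∧ famT.pr y = (x, u) := by
  refine ⟨((fun a b => x 0 (![a, b] : Fin 2 → ℕ)), u, fun a => decide (a = 0)),
    ⟨hT, 0, fun a => decide_eq_true_iff⟩, ?_⟩
  refine Prod.ext ?_ rfl
  funext i
  by_cases hi : i = 0
  · subst hi
    funext (v : Fin 2 → ℕ)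
    show (if (0 : ℕ) = 0 then x 0 (![v 0, v 1] : Fin 2 → ℕ) else false) = x 0 v
    have hv : v = ![v 0, v 1] := by
      funext j
      match j with
      | 0 => rfl
      | 1 => rfl
    rw [if_pos rfl, ← hv]
  · funext v
    show (if i = 0 then x 0 (![v 0, v 1] : Fin 2 → ℕ) else false) = x i v
    rw [h0 i hi v, if_neg hi]

end Pool.Agent.Y558.EC
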