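import Pool.Agent.Y558.EC.Int
import Pool.Agent.Y558.EC.Pos
import Pool.Agent.Y558.EC.Tou
import Pool.Agent.W875.TS.COI

set_option autoImplicit false

/-!
# The union of the families, and modular decomposition
-/

namespace Pool.Agent.Y558.EC

open Set MeasureTheory
open Pool.Agent.H533R2.VO (RS)
open Pool.Agent.H533R2.VS (US UIso UDich VCu)
open Pool.Agent.W875.TS (Mdl Prm MQ qt)

def F0 : Bool → Bool → Bool → Bool := fun p _ _ => p
def F1 : Bool → Bool → Bool → Bool := fun p q _ => p || q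
def F2 : Bool → Bool → Bool → Bool := fun p q e => !p && !q && !e

theorem io_to {G : ℕ → ℕ → Prop} {P : ℕ → ℕ → Bool} (h : IO P)
    (hG : ∀ a b, G a b ↔ P a b = true ∨ P b a = true) : Gal.TO G fun a b => P a b = true := by
  refine ⟨hG, fun a b h1 h2 => ?_, fun a b c h1 h2 => ?_⟩
  · rcases h.two a b b a h1 h2 with h3 | h3
    · rw [h.irr] at h3
      exact absurd h3 (by decide)
    · rw [h.irr] at h3
      exact absurd h3 (by decide)
  · rcases h.two a b b c h1 h2 with h3 | h3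
    · exact h3
    · rw [h.irr] at h3
      exact absurd h3 (by decide)

theorem count_bool {S : Set (ℕ → ℕ → Bool)} {T : Set (ℕ → ℕ → Prop)} (hT : T.Countable)
    (h : ∀ P ∈ S, (fun a b => P a b = true) ∈ T) : S.Countable := by
  refine Set.MapsTo.countable_of_injOn
    (f := fun (P : ℕ → ℕ → Bool) (a b : ℕ) => P a b = true) (t := T) h ?_ hT
  intro P _ P' _ hh
  funext a b
  rw [Bool.eq_iff_iff]
  exact iff_of_eq (congrFun (congrFun hh a) b)

theorem c0 (x : US a2) (_ : Pm2 x.1) : {P : ℕ → ℕ → Bool | IO P ∧ ∀ a b, x.1 0 ![a, b] =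
    F0 (P a b) (P b a) (decide (a = b))}.Countable := by
  refine Set.Subsingleton.countable ?_
  rintro P ⟨_, hP⟩ P' ⟨_, hP'⟩
  funext a b
  exact (hP a b).symm.trans (hP' a b)

theorem c1 (x : US a2) (hx : Pm2 x.1) : {P : ℕ → ℕ → Bool | IO P ∧ ∀ a b, x.1 0 ![a, b] =
    F1 (P a b) (P b a)
      (decide (a = b))}.Countable := by
  rcases Set.eq_empty_or_nonempty {P : ℕ → ℕ → Bool | IO P ∧ ∀ a b, x.1 0 ![a, b] =
    F1 (P a b) (P b a)
      (decide (a = b))} with h0 | ⟨P0, _, h0⟩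
  · rw [h0]
    exact Set.countable_empty
  have hpr : Gal.Pri (Ed x.1) := by
    refine pri_of hx fun a b h => ?_
    unfold Ed at h ⊢
    rw [h0] at h ⊢
    have h' : (P0 a b || P0 b a) = true := h
    show (P0 b a || P0 a b) = true
    rw [Bool.or_comm]
    exact h'
  refine count_bool (Gal.count hpr) ?_
  rintro P ⟨hP, h1⟩
  refine io_to hP fun a b => ?_
  unfold Ed
  rw [h1]
  show (P a b || P b a) = true ↔ _
  rw [Bool.or_eq_true]

theorem c2 (x : US a2) (hx : Pm2 x.1) : {P : ℕ → ℕ → Bool | IO P ∧ ∀ a b, x.1 0 ![a, b] =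
    F2 (P a b) (P b a)
      (decide (a = b))}.Countable := by
  rcases Set.eq_empty_or_nonempty {P : ℕ → ℕ → Bool | IO P ∧ ∀ a b, x.1 0 ![a, b] =
    F2 (P a b) (P b a)
      (decide (a = b))} with h0 | ⟨P0, _, h0⟩
  · rw [h0]
    exact Set.countable_empty
  have key : ∀ P : ℕ → ℕ → Bool, (∀ a b, x.1 0 ![a, b] =
      F2 (P a b) (P b a)
      (decide (a = b))) → ∀ a b, Ed x.1 a b ↔ (a ≠ b ∧ ¬ (P a b = true ∨ P b a = true)) := by
    intro P hP a b
    unfold Ed
    rw [hP]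
    show (!P a b && !P b a && !decide (a = b)) = true ↔ _
    simp only [Bool.and_eq_true, Bool.not_eq_true', decide_eq_false_iff_not, not_or,
      Bool.not_eq_true]
    tauto
  have hpr : Gal.Pri (Ed x.1) := by
    refine pri_of hx fun a b h => ?_
    rw [key P0 h0] at h ⊢
    exact ⟨h.1.symm, fun h' => h.2 h'.symm⟩
  refine count_bool (Gal.count (pri_compl hpr)) ?_
  rintro P ⟨hP, h1⟩
  refine io_to hP fun a b => ?_
  rw [key P h1]
  constructor
  · rintro ⟨h2, h3⟩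
    by_contra h4
    exact h3 ⟨h2, h4⟩
  · intro h2
    refine ⟨?_, fun h3 => h3.2 h2⟩
    rintro rfl
    rw [hP.irr] at h2
    rcases h2 with h2 | h2 <;> exact absurd h2 (by decide)

/-- all families -/
def famA : Fam a2 Pm2 :=
  ((famP.sum famQ).sum (famI F0 c0)).sum (((famI F1 c1).sum (famI F2 c2)).sum famT)

theorem sum_l {a : ℕ → ℕ} {Pm : RS a → Prop} (F H : Fam a Pm) {x : US a}
    (h : ∃ y, F.G y ∧ F.pr y = x) : ∃ y, (F.sum H).G y ∧ (F.sum H).pr y = x := by
  obtain ⟨y, h1, h2⟩ := h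
  exact ⟨Sum.inl y, h1, h2⟩

theorem sum_r {a : ℕ → ℕ} {Pm : RS a → Prop} (F H : Fam a Pm) {x : US a}
    (h : ∃ y, H.G y ∧ H.pr y = x) : ∃ y, (F.sum H).G y ∧ (F.sum H).pr y = x := by
  obtain ⟨y, h1, h2⟩ := h
  exact ⟨Sum.inr y, h1, h2⟩

/-- the class -/
def VA (x : RS a2) : Prop := Pm2 x ∧ ∀ u, ∃ y, famA.G y ∧ famA.pr y = (x, u)

theorem vcu_VA : VCu VA := famA.vcu

theorem vcu_MQ : VCu (MQ VA) :=
  Pool.Agent.W875.TS.ts_mod a2 (fun _ => Nat.succ_pos 1) VA vcu_VA

/-! ### Plain binary relations -/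

/-- the two orders -/
structure SL (l : ℕ → ℕ → Prop) : Prop where
  irr : ∀ a, ¬ l a a
  tr : ∀ a b c, l a b → l b c → l a c
  tot : ∀ a b, a ≠ b → l a b ∨ l b a

theorem SL.lin {l : ℕ → ℕ → Prop} (h : SL l) : Lin l :=
  ⟨h.irr, h.tr, fun a b => by
    by_cases hab : a = b
    · exact Or.inl hab
    · exact Or.inr (h.tot a b hab)⟩

/-- permutation graphs and partial orders of dimension two, of finite cochromatic number -/
def T1 (Q : ℕ → ℕ → Bool) : Prop := ∃ l k : ℕ → ℕ → Prop, SL l ∧ SL k ∧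
  ((∀ a b, Q a b = true ↔ (l a b ∧ k b a) ∨ (l b a ∧ k a b)) ∨
    (∀ a b, Q a b = true ↔ (l a b ∧ k a b))) ∧
  ∃ (s : ℕ) (c : ℕ → Fin s), ∀ t,
    (∀ a b, a ≠ b → c a = t → c b = t → Q a b = true ∨ Q b a = true) ∨
    (∀ a b, c a = t → c b = t → ¬ (Q a b = true ∨ Q b a = true))

/-- interval orders and graphs -/
def T2 (Q : ℕ → ℕ → Bool) : Prop := ∃ P : ℕ → ℕ → Bool, IO P ∧
  (∃ (s : ℕ) (c : ℕ → Fin s), ∀ a b, c a = c b → ¬ Ne P a b) ∧
  ((∀ a b, Q a b = P a b) ∨ (∀ a b, Q a b = (P a b || P b a)) ∨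
    (∀ a b, Q a b = (!P a b && !P b a && !decide (a = b))))

def Geo (Q : ℕ → ℕ → Bool) : Prop := T1 Q ∨ T2 Q ∨ LT Q

def MdE (E : ℕ → ℕ → Bool) (X : Set ℕ) : Prop :=
  ∀ u, u ∉ X → ∀ v ∈ X, ∀ w ∈ X, E u v = E u w ∧ E v u = E w u

def PrE (E : ℕ → ℕ → Bool) : Prop := ∀ X : Set ℕ, MdE E X → X.Subsingleton ∨ X = univ

def quo (E : ℕ → ℕ → Bool) (e : ℕ → ℕ) : ℕ → ℕ → Bool :=
  fun m n => if m = n then false else E (e m) (e n)

def Tame (E : ℕ → ℕ → Bool) : Prop := ∀ (X : ℕ → Set ℕ) (e : ℕ → ℕ), (∀ n, e n ∈ X n) →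
  (∀ n, MdE E (X n)) → (∀ m n, m ≠ n → Disjoint (X m) (X n)) → MdE E (⋃ n, X n) →
  PrE (quo E e) → Geo (quo E e)

def IsS (σ : Equiv.Perm ℕ) (x y : (ℕ → ℕ → Bool) × (ℕ → ℕ → Bool)) : Prop :=
  (∀ m n, y.1 (σ m) (σ n) = x.1 m n) ∧ ∀ i m, y.2 i (σ m) = x.2 i m

theorem mdb_iff {E : ℕ → ℕ → Bool} {X : Set ℕ} : MdE E X ↔ MdB (fun a b => E a b = true) X := by
  constructor
  · intro h x hx y hy z hz
    obtain ⟨h1, h2⟩ := h x hx y hy z hz
    show (E x y = true → E x z = true) ∧ (E y x = true → E z x = true)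
    rw [h1, h2]
    exact ⟨id, id⟩
  · intro h x hx y hy z hz
    exact ⟨Bool.eq_iff_iff.2 ⟨(h x hx y hy z hz).1, (h x hx z hz y hy).1⟩,
      Bool.eq_iff_iff.2 ⟨(h x hx y hy z hz).2, (h x hx z hz y hy).2⟩⟩

/-- one relation -/
def On (x : RS a2) : Prop := ∀ i, i ≠ 0 → ∀ v, x i v = false

def rl (x : RS a2) : ℕ → ℕ → Bool := fun a b => x 0 (![a, b] : Fin 2 → ℕ)

theorem rl_v (x : RS a2) (v : Fin 2 → ℕ) : x 0 v = rl x (v 0) (v 1) := by
  have hv : v = ![v 0, v 1] := by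
    funext j
    match j with
    | 0 => rfl
    | 1 => rfl
  unfold rl
  rw [← hv]

theorem mdl_iff {x : RS a2} (h0 : On x) {X : Set ℕ} : Mdl x X ↔ MdE (rl x) X := by
  constructor
  · intro h u hu v hv w hw
    refine ⟨?_, ?_⟩
    · have h1 := h 0 (![u, w] : Fin 2 → ℕ) (1 : Fin 2) (0 : Fin 2) v hw hv hu
      rw [rl_v x, rl_v x] at h1
      exact h1
    · have h1 := h 0 (![w, u] : Fin 2 → ℕ) (0 : Fin 2) (1 : Fin 2) v hw hv hu
      rw [rl_v x, rl_v x] at h1
      exact h1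
  · intro h i
    by_cases hi : i = 0
    · subst hi
      intro (t : Fin 2 → ℕ) (k : Fin 2) (l : Fin 2) b hk hb hl
      show x 0 (Function.update t k b : Fin 2 → ℕ) = x 0 t
      rw [rl_v x, rl_v x]
      match k, l with
      | 0, 0 => exact absurd hk hl
      | 1, 1 => exact absurd hk hl
      | 0, 1 => exact (h (t 1) hl b hb (t 0) hk).2
      | 1, 0 => exact (h (t 0) hl b hb (t 1) hk).1
    · intro t k l b _ _ _
      rw [h0 i hi, h0 i hi]

theorem on_qt {x : RS a2} (h0 : On x) (e : ℕ → ℕ) : On (qt x e) := by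
  classical
  intro i hi v
  show (if ∃ j l, v j ≠ v l then x i (e ∘ v) else false) = false
  split_ifs
  · exact h0 i hi _
  · rfl

theorem rl_qt (x : RS a2) (e : ℕ → ℕ) : rl (qt x e) = quo (rl x) e := by
  classical
  funext m n
  show (if ∃ j l, (![m, n] : Fin 2 → ℕ) j ≠ (![m, n] : Fin 2 → ℕ) l then
    x 0 (e ∘ (![m, n] : Fin 2 → ℕ)) else false) = (if m = n then false else rl x (e m) (e n))
  by_cases h : m = n
  · rw [if_pos h, if_neg]
    rintro ⟨j, l, hjl⟩
    apply hjl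
    subst h
    match j, l with
    | 0, 0 => rfl
    | 0, 1 => rfl
    | 1, 0 => rfl
    | 1, 1 => rfl
  · rw [if_neg h, if_pos ⟨0, 1, h⟩, rl_v x]
    rfl

theorem va_of {x : RS a2} (h0 : On x) (hp : PrE (rl x)) (hG : Geo (rl x)) : VA x := by
  have hP : Pm2 x := fun M hM => hp M (mdb_iff.2 hM)
  refine ⟨hP, fun u => ?_⟩
  rcases hG with ⟨l, k, hl, hk, h1, s, c, hc⟩ | ⟨P, hP1, ⟨s, c, hc⟩, h1⟩ | hT
  · rcases h1 with h1 | h1
    · refine sum_l _ _ (sum_l _ _ (sum_l _ _ ?_))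
      exact ex_gr x h0 l k hl.lin hk.lin h1 s c (fun t => by
        rcases hc t with h4 | h4
        · left
          intro a b hab ha hb
          rcases h4 a b hab ha hb with h5 | h5
          · exact h5
          · exact (h1 a b).2 ((h1 b a).1 h5).symm
        · right
          intro a b ha hb h5
          exact h4 a b ha hb (Or.inl h5)) u
    · exact sum_l _ _ (sum_l _ _ (sum_r _ _ (ex_gp x h0 l k hl.lin hk.lin h1 s c hc u)))
  · have hC : CvI P := ⟨s, c, fun t => Or.inl fun a b ha hb => hc a b (ha.trans hb.symm)⟩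
    rcases h1 with h1 | h1 | h1
    · exact sum_l _ _ (sum_r _ _ (ex_pI F0 c0 x h0 hP hP1 h1 hC u))
    · exact sum_r _ _ (sum_l _ _ (sum_l _ _ (ex_pI F1 c1 x h0 hP hP1 h1 hC u)))
    · exact sum_r _ _ (sum_l _ _ (sum_r _ _ (ex_pI F2 c2 x h0 hP hP1 h1 hC u)))
  · exact sum_r _ _ (sum_r _ _ (ex_pT x h0 hT u))

theorem mq_of {x : RS a2} (h0 : On x) (h : Tame (rl x)) : MQ VA x := by
  intro X e h1 h2 h3 h4 h5
  have hg := h X e h1 (fun n => (mdl_iff h0).1 (h2 n)) h3 ((mdl_iff h0).1 h4) (by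
    rw [← rl_qt]
    exact fun Y hY => h5 Y ((mdl_iff (on_qt h0 e)).2 hY))
  refine va_of (on_qt h0 e) ?_ ?_
  · exact fun Y hY => h5 Y ((mdl_iff (on_qt h0 e)).2 hY)
  · rw [rl_qt]
    exact hg

/-- the structure -/
def rd (z : US a2) : (ℕ → ℕ → Bool) × (ℕ → ℕ → Bool) := (rl z.1, z.2)

def wr (x : (ℕ → ℕ → Bool) × (ℕ → ℕ → Bool)) : US a2 :=
  (fun i (v : Fin 2 → ℕ) => if i = 0 then x.1 (v 0) (v 1) else false, x.2)

theorem rd_wr (x : (ℕ → ℕ → Bool) × (ℕ → ℕ → Bool)) : rd (wr x) = x := by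
  refine Prod.ext ?_ rfl
  funext a b
  show (if (0 : ℕ) = 0 then x.1 a b else false) = _
  rw [if_pos rfl]

theorem wr_rd {z : US a2} (h : On z.1) : wr (rd z) = z := by
  refine Prod.ext ?_ rfl
  funext i
  by_cases hi : i = 0
  · subst hi
    funext (v : Fin 2 → ℕ)
    show (if (0 : ℕ) = 0 then rl z.1 (v 0) (v 1) else false) = z.1 0 v
    rw [if_pos rfl, ← rl_v]
  · funext v
    show (if i = 0 then rl z.1 (v 0) (v 1) else false) = z.1 i v
    rw [if_neg hi, h i hi]

theorem cont_rd : Continuous rd := by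
  refine Continuous.prodMk ?_ continuous_snd
  exact continuous_pi fun a => continuous_pi fun b => (continuous_apply _).comp
    ((continuous_apply (A := fun i => (Fin (a2 i) → ℕ) → Bool) 0).comp continuous_fst)

theorem is_rd {x y : US a2} {σ : Equiv.Perm ℕ} (h : UI σ x y) : IsS σ (rd x) (rd y) := by
  refine ⟨fun m n => ?_, h.2⟩
  have h1 := h.1 0 (![m, n] : Fin 2 → ℕ)
  rw [rl_v y.1, rl_v x.1] at h1
  exact h1

theorem is_wr {x y : (ℕ → ℕ → Bool) × (ℕ → ℕ → Bool)} {σ : Equiv.Perm ℕ} (h : IsS σ x y) :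
    UI σ (wr x) (wr y) := by
  refine ⟨fun i (v : Fin 2 → ℕ) => ?_, h.2⟩
  show (if i = 0 then y.1 (σ (v 0)) (σ (v 1)) else false) =
    (if i = 0 then x.1 (v 0) (v 1) else false)
  rw [h.1]

theorem on_wr (x : (ℕ → ℕ → Bool) × (ℕ → ℕ → Bool)) : On (wr x).1 := fun _ hi _ => if_neg hi

theorem outG (B : Set ((ℕ → ℕ → Bool) × (ℕ → ℕ → Bool))) (hB : MeasurableSet B)
    (hT : ∀ x ∈ B, Tame x.1)
    (hi : ∀ x ∈ B, ∀ (y : (ℕ → ℕ → Bool) × (ℕ → ℕ → Bool)) (σ : Equiv.Perm ℕ),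
      IsS σ x y → y ∈ B) :
    (∃ f : ℕ → (ℕ → ℕ → Bool) × (ℕ → ℕ → Bool), ∀ x ∈ B, ∃ (n : ℕ) (σ : Equiv.Perm ℕ),
      IsS σ (f n) x) ∨
    (∃ c : (ℕ → Bool) → (ℕ → ℕ → Bool) × (ℕ → ℕ → Bool), Continuous c ∧ (∀ s, c s ∈ B) ∧
      ∀ s t, (∃ σ : Equiv.Perm ℕ, IsS σ (c s) (c t)) → s = t) := by
  have hOn : MeasurableSet {z : US a2 | On z.1} := by
    have e : {z : US a2 | On z.1} = ⋂ i : ℕ, ⋂ (_ : i ≠ 0), ⋂ v : Fin (a2 i) → ℕ,
        {z : US a2 | z.1 i v = false} := by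
      ext z
      simp only [mem_iInter]
      rfl
    rw [e]
    refine (isClosed_iInter fun i => isClosed_iInter fun _ => isClosed_iInter fun v => ?_).measurableSet
    exact isClosed_eq ((continuous_apply v).comp ((continuous_apply i).comp continuous_fst))
      continuous_const
  have hsymm : ∀ x y : US a2, UIso x y → UIso y x := by
    rintro x y ⟨σ, h⟩
    exact ⟨_, ui_symm h⟩
  have key : ∀ x y : US a2, UIso x y → (On x.1 ∧ rd x ∈ B) → (On y.1 ∧ rd y ∈ B) := by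
    rintro x y ⟨σ, h⟩ ⟨h1, h2⟩
    refine ⟨fun i hi' v => ?_, hi _ h2 _ σ (is_rd h)⟩
    have e : v = ⇑σ ∘ (⇑σ.symm ∘ v) := by
      funext j
      exact (σ.apply_symm_apply _).symm
    rw [e, h.1, h1 i hi']
  rcases vcu_MQ {z : US a2 | On z.1 ∧ rd z ∈ B} (hOn.inter (cont_rd.measurable hB))
    (fun x y h => ⟨key x y h, key y x (hsymm x y h)⟩)
    (fun z hz => mq_of hz.1 (hT _ hz.2)) with ⟨f, hf⟩ | ⟨g, hg, hgB, hgi⟩
  · left
    refine ⟨fun n => rd (f n), fun x hx => ?_⟩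
    obtain ⟨n, σ, h⟩ := hf (wr x) ⟨on_wr x, by rw [rd_wr]; exact hx⟩
    refine ⟨n, σ, ?_⟩
    have h1 := is_rd h
    rw [rd_wr] at h1
    exact h1
  · right
    refine ⟨fun c => rd (g c), cont_rd.comp hg, fun c => (hgB c).2, fun s t h => ?_⟩
    obtain ⟨σ, h⟩ := h
    have h1 := is_wr h
    rw [wr_rd (hgB s).1, wr_rd (hgB t).1] at h1
    exact hgi s t ⟨σ, h1⟩

/-! ### The structures themselves -/

theorem geo_quo {E : ℕ → ℕ → Bool} (h : Geo E) {e : ℕ → ℕ} (he : Function.Injective e) :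
    Geo (quo E e) := by
  have q1 : ∀ m n, m ≠ n → quo E e m n = E (e m) (e n) := fun m n h => if_neg h
  have q2 : ∀ m, quo E e m m = false := fun m => if_pos rfl
  rcases h with ⟨l, k, hl, hk, h1, s, c, hc⟩ | ⟨P, hP1, ⟨s, c, hc⟩, h1⟩ | hT
  · left
    have sub : ∀ l : ℕ → ℕ → Prop, SL l → SL fun a b => l (e a) (e b) := fun l hl =>
      ⟨fun a => hl.irr _, fun a b c => hl.tr _ _ _, fun a b hab => hl.tot _ _ fun h => hab (he h)⟩
    refine ⟨fun a b => l (e a) (e b), fun a b => k (e a) (e b), sub l hl, sub k hk, ?_, s,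
      fun a => c (e a), fun t => ?_⟩
    · rcases h1 with h1 | h1
      · left
        intro a b
        by_cases hab : a = b
        · subst hab
          rw [q2]
          constructor
          · intro h; exact absurd h (by decide)
          · rintro (h | h) <;> exact absurd h.1 (hl.irr _)
        · rw [q1 a b hab]
          exact h1 _ _
      · right
        intro a b
        by_cases hab : a = b
        · subst hab
          rw [q2]
          constructor
          · intro h; exact absurd h (by decide)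
          · intro h; exact absurd h.1 (hl.irr _)
        · rw [q1 a b hab]
          exact h1 _ _
    · rcases hc t with h2 | h2
      · left
        intro a b hab ha hb
        rw [q1 a b hab, q1 b a (Ne.symm hab)]
        exact h2 _ _ (fun h => hab (he h)) ha hb
      · right
        intro a b ha hb
        by_cases hab : a = b
        · subst hab
          rw [q2]
          decide
        · rw [q1 a b hab, q1 b a (Ne.symm hab)]
          exact h2 _ _ ha hb
  · right; left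
    refine ⟨fun a b => P (e a) (e b), ⟨fun a => hP1.irr _, fun a b c d => hP1.two _ _ _ _⟩,
      ⟨s, fun a => c (e a), fun a b hab h2 => hc _ _ hab ⟨fun h3 => h2.1 fun u => h3 _,
        fun h3 => h2.2 fun u => h3 _⟩⟩, ?_⟩
    rcases h1 with h1 | h1 | h1
    · left
      intro a b
      by_cases hab : a = b
      · subst hab
        rw [q2]
        exact (hP1.irr _).symm
      · rw [q1 a b hab, h1]
    · right; left
      intro a b
      by_cases hab : a = b
      · subst hab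
        rw [q2]
        show false = (P (e a) (e a) || P (e a) (e a))
        rw [hP1.irr]
        rfl
      · rw [q1 a b hab, h1]
    · right; right
      intro a b
      by_cases hab : a = b
      · subst hab
        rw [q2]
        simp
      · rw [q1 a b hab, h1]
        simp only [he.eq_iff]
  · right; right
    have hne : ∀ a b, quo E e a b = true → a ≠ b ∧ E (e a) (e b) = true := by
      intro a b h
      by_cases hab : a = b
      · rw [hab, q2] at h
        exact absurd h (by decide)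
      · rw [q1 a b hab] at h
        exact ⟨hab, h⟩
    have hto : ∀ a b, E (e a) (e b) = true → quo E e a b = true := by
      intro a b h
      have hab : a ≠ b := by
        rintro rfl
        rw [hT.irr] at h
        exact absurd h (by decide)
      rw [q1 a b hab]
      exact h
    refine ⟨q2, fun a b => ?_, fun a b h1 h2 => hT.asy _ _ (hne _ _ h1).2 (hne _ _ h2).2,
      fun x a b c h1 h2 h3 h4 h5 => hto _ _ (hT.out _ _ _ _ (hne _ _ h1).2 (hne _ _ h2).2
        (hne _ _ h3).2 (hne _ _ h4).2 (hne _ _ h5).2),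
      fun x a b c h1 h2 h3 h4 h5 => hto _ _ (hT.inn _ _ _ _ (hne _ _ h1).2 (hne _ _ h2).2
        (hne _ _ h3).2 (hne _ _ h4).2 (hne _ _ h5).2)⟩
    by_cases hab : a = b
    · exact Or.inl hab
    · rcases hT.tot (e a) (e b) with h1 | h1 | h1
      · exact absurd (he h1) hab
      · exact Or.inr (Or.inl (hto _ _ h1))
      · exact Or.inr (Or.inr (hto _ _ h1))

theorem tame_of_geo {E : ℕ → ℕ → Bool} (h : Geo E) : Tame E := by
  intro X e h1 _ h3 _ _
  refine geo_quo h fun m n hmn => ?_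
  by_contra hne
  have := Set.disjoint_left.1 (h3 m n hne) (h1 m)
  rw [hmn] at this
  exact this (h1 n)

end Pool.Agent.Y558.EC
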