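import Pool.Agent.Y558.MC.Out
import Pool.Agent.Y558.EC.Ecc

set_option autoImplicit false

/-!
# Transfer of the dichotomy from sorted structures
-/

namespace Pool.Agent.Y558.EC

open Set MeasureTheory
open Pool.Agent.Y558.MC (XS SO IsoS outS)

theorem isoS_unique {σ : Equiv.Perm ℕ} {x z z' : XS} (h : IsoS σ x z) (h' : IsoS σ x z') :
    z = z' := by
  refine Prod.ext ?_ (Prod.ext ?_ ?_)
  · funext i m n
    obtain ⟨m, rfl⟩ := σ.surjective m
    obtain ⟨n, rfl⟩ := σ.surjective n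
    rw [h.1, h'.1]
  · funext p m
    obtain ⟨m, rfl⟩ := σ.surjective m
    rw [h.2.1, h'.2.1]
  · funext p m
    obtain ⟨m, rfl⟩ := σ.surjective m
    rw [h.2.2, h'.2.2]

theorem viaS {Y : Type} [TopologicalSpace Y] [SecondCountableTopology Y]
    [TopologicalSpace.IsCompletelyMetrizableSpace Y] [MeasurableSpace Y] [BorelSpace Y]
    (I : Equiv.Perm ℕ → Y → Y → Prop) (Ψ : Y → XS) (D : XS → Y) (hΨ : Measurable Ψ)
    (hD : Continuous D) (hDΨ : ∀ y, D (Ψ y) = y)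
    (hI : ∀ σ y y', I σ y y' → IsoS σ (Ψ y) (Ψ y')) (tr : ∀ σ y, ∃ y', I σ y y')
    (B : Set Y) (hB : MeasurableSet B) (hinv : ∀ y ∈ B, ∀ y' σ, I σ y y' → y' ∈ B)
    (hSO : ∀ y ∈ B, SO (Ψ y)) :
    (∃ f : ℕ → Y, ∀ y ∈ B, ∃ n σ, I σ (f n) y) ∨
    ∃ g : (ℕ → Bool) → Y, Continuous g ∧ (∀ a, g a ∈ B) ∧ ∀ a b, (∃ σ, I σ (g a) (g b)) →
      a = b := by
  have hP : PolishSpace Y := pol Y
  have inj : Function.Injective Ψ := fun y y' h => by rw [← hDΨ y, h, hDΨ]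
  have h3 : ∀ σ y y', IsoS σ (Ψ y) (Ψ y') → I σ y y' := by
    intro σ y y' h
    obtain ⟨y'', h1⟩ := tr σ y
    have h2 := isoS_unique (hI _ _ _ h1) h
    rw [← inj h2]
    exact h1
  have b1 : BorelSpace XS := by
    have b1 : BorelSpace (ℕ → Bool) := Pi.borelSpace
    have b2 : BorelSpace (ℕ → ℕ → Bool) := Pi.borelSpace
    have b3 : BorelSpace (ℕ → ℕ → ℕ → Bool) := Pi.borelSpace
    have b5 : BorelSpace ((ℕ → ℕ → Bool) × (ℕ → ℕ → Bool)) := Prod.borelSpace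
    exact Prod.borelSpace
  have hBm : MeasurableSet (Ψ '' B) := hB.image_of_measurable_injOn hΨ inj.injOn
  rcases outS (Ψ '' B) hBm (by rintro _ ⟨y, hy, rfl⟩; exact hSO y hy) (by
      rintro _ ⟨y, hy, rfl⟩ z σ hz
      obtain ⟨y', h1⟩ := tr σ y
      exact ⟨y', hinv y hy y' σ h1, isoS_unique (hI _ _ _ h1) hz⟩) with ⟨f, hf⟩ | ⟨c, hc, hcB, hci⟩
  · left
    refine ⟨fun n => D (f n), fun y hy => ?_⟩
    obtain ⟨n, σ, h⟩ := hf _ ⟨y, hy, rfl⟩
    -- f n is isomorphic to a code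
    have hs : IsoS σ.symm (Ψ y) (f n) := by
      refine ⟨fun i m n' => ?_, fun p m => ?_, fun p m => ?_⟩
      · rw [← h.1, Equiv.apply_symm_apply, Equiv.apply_symm_apply]
      · rw [← h.2.1, Equiv.apply_symm_apply]
      · rw [← h.2.2, Equiv.apply_symm_apply]
    obtain ⟨y', h1⟩ := tr σ.symm y
    have h2 : f n = Ψ y' := isoS_unique hs (hI _ _ _ h1)
    refine ⟨n, σ, h3 _ _ _ ?_⟩
    show IsoS σ (Ψ (D (f n))) (Ψ y)
    rw [h2, hDΨ, ← h2]
    exact h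
  · right
    refine ⟨fun a => D (c a), hD.comp hc, fun a => ?_, fun a b => ?_⟩
    · obtain ⟨y, hy, h⟩ := hcB a
      show D (c a) ∈ B
      rw [← h, hDΨ]
      exact hy
    · rintro ⟨σ, h⟩
      apply hci
      refine ⟨σ, ?_⟩
      obtain ⟨y, hy, h1⟩ := hcB a
      obtain ⟨y', hy', h2⟩ := hcB b
      have h4 := hI _ _ _ h
      have e1 : Ψ (D (c a)) = c a := by rw [← h1, hDΨ]
      have e2 : Ψ (D (c b)) = c b := by rw [← h2, hDΨ]
      rw [e1, e2] at h4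
      exact h4

end Pool.Agent.Y558.EC
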